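import Pool.Agent.W_58cc_h2.El

/-!
# Abstract shellability: easy lemmas (transport, cone, empty, swap, any linear order)
-/

namespace H58

variable {α : Type*}

theorem AbsA_chn_swap {r : α → α → Prop} {F : Finset α} (h : Chn r F) :
    Chn (fun a b => r b a) F :=
  fun a ha b hb hne => (h a ha b hb hne).symm

theorem AbsA_fct_swap {r : α → α → Prop} {d : ℕ} {Q : Set α} {F : Finset α} (h : Fct r d Q F) :
    Fct (fun a b => r b a) d Q F :=
  ⟨h.1, AbsA_chn_swap h.2.1, h.2.2⟩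

theorem fct_swap {r : α → α → Prop} {d : ℕ} {Q : Set α} {F : Finset α} :
    Fct (fun a b => r b a) d Q F ↔ Fct r d Q F :=
  ⟨fun h => AbsA_fct_swap h, fun h => AbsA_fct_swap h⟩

theorem AbsA_sh_swap {r : α → α → Prop} {d : ℕ} {Q : Set α} (h : Sh r d Q) :
    Sh (fun a b => r b a) d Q := by
  obtain ⟨hfin, hext, f, hinj, hf⟩ := h
  refine ⟨hfin, ?_, f, ?_, ?_⟩
  · intro F hF hc
    obtain ⟨G, hFG, hG⟩ := hext F hF (AbsA_chn_swap hc)
    exact ⟨G, hFG, AbsA_fct_swap hG⟩
  · intro F G hF hG h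
    exact hinj F G (AbsA_fct_swap hF) (AbsA_fct_swap hG) h
  · intro F G hF hG h
    obtain ⟨H, hH, h1, h2⟩ := hf F G (AbsA_fct_swap hF) (AbsA_fct_swap hG) h
    exact ⟨H, AbsA_fct_swap hH, h1, h2⟩

/-- shellability does not see the direction of the order. -/
theorem sh_swap {r : α → α → Prop} {d : ℕ} {Q : Set α} :
    Sh (fun a b => r b a) d Q ↔ Sh r d Q :=
  ⟨fun h => AbsA_sh_swap h, fun h => AbsA_sh_swap h⟩

theorem AbsA_mem_empty {F : Finset α} (h : ∀ a ∈ F, a ∈ (∅ : Set α)) : F = ∅ := by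
  rw [Finset.eq_empty_iff_forall_notMem]
  intro x hx
  exact h x hx

/-- the empty set: one facet, the empty chain. -/
theorem sh_empty (r : α → α → Prop) : Sh r 0 (∅ : Set α) := by
  refine ⟨Set.finite_empty, ?_, fun _ => 0, ?_, ?_⟩
  · intro F hF hc
    refine ⟨F, Finset.Subset.refl F, hF, hc, ?_⟩
    rw [AbsA_mem_empty hF, Finset.card_empty]
  · intro F G hF hG _
    rw [AbsA_mem_empty hF.1, AbsA_mem_empty hG.1]
  · intro F G _ _ h
    exact absurd h (lt_irrefl _)

/-- every chain has at most `d` elements. -/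
theorem sh_card_le {r : α → α → Prop} {d : ℕ} {Q : Set α} (h : Sh r d Q) (F : Finset α)
    (hF : ∀ a ∈ F, a ∈ Q) (hc : Chn r F) : F.card ≤ d := by
  obtain ⟨G, hFG, hG⟩ := h.2.1 F hF hc
  rw [← hG.2.2]
  exact Finset.card_le_card hFG

/-- The order of the facets may be given by an injective map to any linear order
(count the facets with smaller value, which is a strictly monotone map to the natural numbers). -/
theorem sh_of_linear {ι : Type*} [LinearOrder ι] {r : α → α → Prop} {d : ℕ} {Q : Set α}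
    (hfin : Q.Finite)
    (hext : ∀ F : Finset α, (∀ a ∈ F, a ∈ Q) → Chn r F → ∃ G, F ⊆ G ∧ Fct r d Q G)
    (f : Finset α → ι)
    (hinj : ∀ F G, Fct r d Q F → Fct r d Q G → f F = f G → F = G)
    (hsh : ∀ F G, Fct r d Q F → Fct r d Q G → f G < f F →
      ∃ H, Fct r d Q H ∧ f H < f F ∧ ∃ v ∈ F, v ∉ G ∧ ∀ u ∈ F, u ≠ v → u ∈ H) :
    Sh r d Q := by
  classical
  have hFfin : {F : Finset α | Fct r d Q F}.Finite := by
    apply (hfin.toFinset.powerset).finite_toSet.subset
    intro F hF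
    simp only [Finset.coe_powerset, Set.mem_preimage, Set.mem_powerset_iff]
    intro x hx
    simpa using hF.1 x hx
  set S : Finset (Finset α) := hFfin.toFinset with hS
  have hSm : ∀ F, F ∈ S ↔ Fct r d Q F := by intro F; simp [hS]
  have hmono : ∀ F G, Fct r d Q F → Fct r d Q G → f G < f F →
      (S.filter (fun H => f H < f G)).card < (S.filter (fun H => f H < f F)).card := by
    intro F G _ hG hlt
    apply Finset.card_lt_card
    rw [Finset.ssubset_iff_of_subset]
    · refine ⟨G, ?_, ?_⟩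
      · rw [Finset.mem_filter]
        exact ⟨(hSm G).2 hG, hlt⟩
      · rw [Finset.mem_filter]
        exact fun h => absurd h.2 (lt_irrefl _)
    · intro H hH
      rw [Finset.mem_filter] at hH ⊢
      exact ⟨hH.1, hH.2.trans hlt⟩
  refine ⟨hfin, hext, fun F => (S.filter (fun H => f H < f F)).card, ?_, ?_⟩
  · intro F G hF hG h
    rcases lt_trichotomy (f F) (f G) with h1 | h1 | h1
    · have := hmono G F hG hF h1
      simp only at h
      omega
    · exact hinj F G hF hG h1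
    · have := hmono F G hF hG h1
      simp only at h
      omega
  · intro F G hF hG h
    have hlt : f G < f F := by
      rcases lt_trichotomy (f F) (f G) with h1 | h1 | h1
      · have := hmono G F hG hF h1
        simp only at h
        omega
      · simp only [h1] at h
        exact absurd h (lt_irrefl _)
      · exact h1
    obtain ⟨H, hH, h1, h2⟩ := hsh F G hF hG hlt
    exact ⟨H, hH, hmono F H hF hH h1, h2⟩

/-- transport along an order isomorphism onto the image. -/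
theorem sh_image {β : Type*} {r : α → α → Prop} {s : β → β → Prop} {d : ℕ} {Q : Set α}
    (φ : α → β) (hinj : ∀ a ∈ Q, ∀ b ∈ Q, φ a = φ b → a = b)
    (hord : ∀ a ∈ Q, ∀ b ∈ Q, (r a b ↔ s (φ a) (φ b))) (h : Sh r d Q) :
    Sh s d (φ '' Q) := by
  classical
  rcases Q.eq_empty_or_nonempty with hQ | ⟨q0, hq0⟩
  · subst hQ
    have hd : d = 0 := by
      obtain ⟨G, -, hG⟩ := h.2.1 ∅ (by simp) (by intro a ha; simp at ha)
      rw [← hG.2.2, AbsA_mem_empty hG.1, Finset.card_empty]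
    subst hd
    rw [Set.image_empty]
    exact sh_empty s
  obtain ⟨hfin, hext, f, finj, hf⟩ := h
  set ψ : β → α := fun a => if h : ∃ x ∈ Q, φ x = a then h.choose else q0 with hψ
  have hψφ : ∀ x ∈ Q, ψ (φ x) = x := by
    intro x hx
    have h1 : ∃ y ∈ Q, φ y = φ x := ⟨x, hx, rfl⟩
    have h2 : ψ (φ x) = h1.choose := by simp only [hψ]; rw [dif_pos h1]
    rw [h2]
    exact hinj _ h1.choose_spec.1 _ hx h1.choose_spec.2
  have hφψ : ∀ a ∈ φ '' Q, ψ a ∈ Q ∧ φ (ψ a) = a := by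
    rintro a ⟨x, hx, rfl⟩
    rw [hψφ x hx]
    exact ⟨hx, rfl⟩
  have hm : ∀ F : Finset β, (∀ a ∈ F, a ∈ φ '' Q) → ∀ x ∈ F.image ψ, x ∈ Q := by
    intro F hF x hx
    obtain ⟨a, ha, rfl⟩ := Finset.mem_image.1 hx
    exact (hφψ a (hF a ha)).1
  have hm' : ∀ F : Finset α, (∀ a ∈ F, a ∈ Q) → ∀ x ∈ F.image φ, x ∈ φ '' Q := by
    intro F hF x hx
    obtain ⟨a, ha, rfl⟩ := Finset.mem_image.1 hx
    exact ⟨a, hF a ha, rfl⟩
  have hch : ∀ F : Finset β, (∀ a ∈ F, a ∈ φ '' Q) → Chn s F → Chn r (F.image ψ) := by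
    intro F hF hc x hx y hy hxy
    obtain ⟨a, ha, rfl⟩ := Finset.mem_image.1 hx
    obtain ⟨b, hb, rfl⟩ := Finset.mem_image.1 hy
    have h1 := hφψ a (hF a ha)
    have h2 := hφψ b (hF b hb)
    rw [hord _ h1.1 _ h2.1, hord _ h2.1 _ h1.1, h1.2, h2.2]
    exact hc a ha b hb (fun hab => hxy (by rw [hab]))
  have hch' : ∀ F : Finset α, (∀ a ∈ F, a ∈ Q) → Chn r F → Chn s (F.image φ) := by
    intro F hF hc x hx y hy hxy
    obtain ⟨a, ha, rfl⟩ := Finset.mem_image.1 hx
    obtain ⟨b, hb, rfl⟩ := Finset.mem_image.1 hy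
    rw [← hord _ (hF a ha) _ (hF b hb), ← hord _ (hF b hb) _ (hF a ha)]
    exact hc a ha b hb (fun hab => hxy (by rw [hab]))
  have him : ∀ F : Finset β, (∀ x ∈ F, x ∈ φ '' Q) → (F.image ψ).image φ = F := by
    intro F hF
    ext a
    simp only [Finset.mem_image, exists_exists_and_eq_and]
    constructor
    · rintro ⟨b, hb, rfl⟩
      rw [(hφψ b (hF b hb)).2]; exact hb
    · intro ha
      exact ⟨a, ha, (hφψ a (hF a ha)).2⟩
  have him' : ∀ F : Finset α, (∀ x ∈ F, x ∈ Q) → (F.image φ).image ψ = F := by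
    intro F hF
    ext a
    simp only [Finset.mem_image, exists_exists_and_eq_and]
    constructor
    · rintro ⟨b, hb, rfl⟩
      rw [hψφ b (hF b hb)]; exact hb
    · intro ha
      exact ⟨a, ha, hψφ a (hF a ha)⟩
  have hcard : ∀ F : Finset β, (∀ x ∈ F, x ∈ φ '' Q) → (F.image ψ).card = F.card := by
    intro F hF
    apply Finset.card_image_of_injOn
    intro a ha b hb hab
    rw [← (hφψ a (hF a ha)).2, ← (hφψ b (hF b hb)).2, hab]
  have hcard' : ∀ F : Finset α, (∀ x ∈ F, x ∈ Q) → (F.image φ).card = F.card := by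
    intro F hF
    apply Finset.card_image_of_injOn
    intro a ha b hb hab
    exact hinj a (hF a ha) b (hF b hb) hab
  have hfc : ∀ F : Finset β, Fct s d (φ '' Q) F → Fct r d Q (F.image ψ) := fun F hF =>
    ⟨hm F hF.1, hch F hF.1 hF.2.1, by rw [hcard F hF.1, hF.2.2]⟩
  have hfc' : ∀ F : Finset α, Fct r d Q F → Fct s d (φ '' Q) (F.image φ) := fun F hF =>
    ⟨hm' F hF.1, hch' F hF.1 hF.2.1, by rw [hcard' F hF.1, hF.2.2]⟩
  refine ⟨hfin.image φ, ?_, fun F => f (F.image ψ), ?_, ?_⟩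
  · intro F hF hc
    obtain ⟨G, hFG, hG⟩ := hext _ (hm F hF) (hch F hF hc)
    refine ⟨G.image φ, ?_, hfc' G hG⟩
    rw [← him F hF]
    exact Finset.image_subset_image hFG
  · intro F G hF hG hFG
    have := finj _ _ (hfc F hF) (hfc G hG) hFG
    rw [← him F hF.1, ← him G hG.1, this]
  · intro F G hF hG hFG
    obtain ⟨H, hH, h1, v, hv, h2, h3⟩ := hf _ _ (hfc F hF) (hfc G hG) hFG
    obtain ⟨a, ha, rfl⟩ := Finset.mem_image.1 hv
    refine ⟨H.image φ, hfc' H hH, ?_, a, ha, ?_, ?_⟩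
    · show f ((H.image φ).image ψ) < _
      rw [him' H hH.1]; exact h1
    · intro haG
      exact h2 (Finset.mem_image_of_mem ψ haG)
    · intro u hu hua
      have h4 : ψ u ∈ H := by
        apply h3 _ (Finset.mem_image_of_mem ψ hu)
        intro he
        apply hua
        rw [← (hφψ u (hF.1 u hu)).2, ← (hφψ a (hF.1 a ha)).2, he]
      have h5 := Finset.mem_image_of_mem φ h4
      rw [(hφψ u (hF.1 u hu)).2] at h5
      exact h5

/-- converse transport. -/
theorem sh_of_image {β : Type*} {r : α → α → Prop} {s : β → β → Prop} {d : ℕ} {Q : Set α}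
    (φ : α → β) (hinj : ∀ a ∈ Q, ∀ b ∈ Q, φ a = φ b → a = b)
    (hord : ∀ a ∈ Q, ∀ b ∈ Q, (r a b ↔ s (φ a) (φ b))) (h : Sh s d (φ '' Q)) :
    Sh r d Q := by
  classical
  rcases Q.eq_empty_or_nonempty with hQ | ⟨q0, hq0⟩
  · subst hQ
    have hd : d = 0 := by
      obtain ⟨G, -, hG⟩ := h.2.1 ∅ (by simp) (by intro a ha; simp at ha)
      rw [Set.image_empty] at hG
      rw [← hG.2.2, AbsA_mem_empty hG.1, Finset.card_empty]
    subst hd
    exact sh_empty r
  set ψ : β → α := fun a => if h : ∃ x ∈ Q, φ x = a then h.choose else q0 with hψ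
  have hψφ : ∀ x ∈ Q, ψ (φ x) = x := by
    intro x hx
    have h1 : ∃ y ∈ Q, φ y = φ x := ⟨x, hx, rfl⟩
    have h2 : ψ (φ x) = h1.choose := by simp only [hψ]; rw [dif_pos h1]
    rw [h2]
    exact hinj _ h1.choose_spec.1 _ hx h1.choose_spec.2
  have h1 : Sh r d (ψ '' (φ '' Q)) := by
    apply sh_image (r := s) ψ _ _ h
    · rintro _ ⟨x, hx, rfl⟩ _ ⟨y, hy, rfl⟩ hxy
      rw [hψφ x hx, hψφ y hy] at hxy
      rw [hxy]
    · rintro _ ⟨x, hx, rfl⟩ _ ⟨y, hy, rfl⟩
      rw [hψφ x hx, hψφ y hy]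
      exact (hord x hx y hy).symm
  have h2 : ψ '' (φ '' Q) = Q := by
    ext x
    constructor
    · rintro ⟨_, ⟨y, hy, rfl⟩, rfl⟩
      rw [hψφ y hy]; exact hy
    · intro hx
      exact ⟨φ x, ⟨x, hx, rfl⟩, hψφ x hx⟩
  rw [h2] at h1
  exact h1

/-- cone: `p` is comparable with all elements of `Q`. -/
theorem sh_cone {r : α → α → Prop} {d : ℕ} {Q : Set α} (p : α) (hp : p ∉ Q)
    (hcomp : ∀ q ∈ Q, r p q ∨ r q p) (h : Sh r d Q) : Sh r (d + 1) (insert p Q) := by
  classical
  have hle := fun F hF hc => sh_card_le h F hF hc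
  obtain ⟨hfin, hext, f, finj, hf⟩ := h
  have hch : ∀ F : Finset α, Chn r F → Chn r (F.erase p) := fun F hc a ha b hb hne =>
    hc a (Finset.mem_of_mem_erase ha) b (Finset.mem_of_mem_erase hb) hne
  have hm : ∀ F : Finset α, (∀ a ∈ F, a ∈ insert p Q) → ∀ a ∈ F.erase p, a ∈ Q := by
    intro F hF a ha
    rw [Finset.mem_erase] at ha
    rcases hF a ha.2 with h1 | h1
    · exact absurd h1 ha.1
    · exact h1
  have hpF : ∀ F, Fct r (d + 1) (insert p Q) F → p ∈ F := by
    intro F hF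
    by_contra hcon
    have h1 : ∀ a ∈ F, a ∈ Q := by
      intro a ha
      rcases hF.1 a ha with h1 | h1
      · exact absurd (h1 ▸ ha) hcon
      · exact h1
    have h2 := hle F h1 hF.2.1
    have h3 := hF.2.2
    omega
  have hfc : ∀ F, Fct r (d + 1) (insert p Q) F → Fct r d Q (F.erase p) := by
    intro F hF
    refine ⟨hm F hF.1, hch F hF.2.1, ?_⟩
    rw [Finset.card_erase_of_mem (hpF F hF), hF.2.2]
    rfl
  have hpn : ∀ F, Fct r d Q F → p ∉ F := fun F hF hpF => hp (hF.1 p hpF)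
  have hfc' : ∀ F, Fct r d Q F → Fct r (d + 1) (insert p Q) (insert p F) := by
    intro F hF
    refine ⟨?_, ?_, ?_⟩
    · intro a ha
      rcases Finset.mem_insert.1 ha with h1 | h1
      · exact Or.inl h1
      · exact Or.inr (hF.1 a h1)
    · intro a ha b hb hne
      rcases Finset.mem_insert.1 ha with h1 | h1
      · rcases Finset.mem_insert.1 hb with h2 | h2
        · exact absurd (h1.trans h2.symm) hne
        · rw [h1]; exact hcomp b (hF.1 b h2)
      · rcases Finset.mem_insert.1 hb with h2 | h2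
        · rw [h2]; exact (hcomp a (hF.1 a h1)).symm
        · exact hF.2.1 a h1 b h2 hne
    · rw [Finset.card_insert_of_notMem (hpn F hF), hF.2.2]
  refine ⟨hfin.insert p, ?_, fun F => f (F.erase p), ?_, ?_⟩
  · intro F hF hc
    obtain ⟨G, hFG, hG⟩ := hext (F.erase p) (hm F hF) (hch F hc)
    refine ⟨insert p G, ?_, hfc' G hG⟩
    intro a ha
    rw [Finset.mem_insert]
    by_cases hap : a = p
    · exact Or.inl hap
    · exact Or.inr (hFG (Finset.mem_erase.2 ⟨hap, ha⟩))
  · intro F G hF hG hFG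
    have h1 := finj _ _ (hfc F hF) (hfc G hG) hFG
    rw [← Finset.insert_erase (hpF F hF), ← Finset.insert_erase (hpF G hG), h1]
  · intro F G hF hG hFG
    obtain ⟨H, hH, h1, v, hv, h2, h3⟩ := hf _ _ (hfc F hF) (hfc G hG) hFG
    rw [Finset.mem_erase] at hv
    refine ⟨insert p H, hfc' H hH, ?_, v, hv.2, ?_, ?_⟩
    · show f ((insert p H).erase p) < _
      rw [Finset.erase_insert (hpn H hH)]
      exact h1
    · intro hvG
      exact h2 (Finset.mem_erase.2 ⟨hv.1, hvG⟩)
    · intro u hu huv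
      rw [Finset.mem_insert]
      by_cases hup : u = p
      · exact Or.inl hup
      · exact Or.inr (h3 u (Finset.mem_erase.2 ⟨hup, hu⟩) huv)

end H58
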