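import Pool.Agent.W_58cc_h2.AbsA

/-!
# Lemma L, rank free version
-/

namespace H58

variable {α : Type*}

/-- `x` is the largest element of `F` outside `A`. -/
def AbsB_Top (r : α → α → Prop) (A : Set α) (F : Finset α) (x : α) : Prop :=
  x ∈ F ∧ x ∉ A ∧ ∀ y ∈ F, y ∉ A → y ≠ x → r y x

theorem AbsB_idx {r : α → α → Prop} (hirr : ∀ a, ¬ r a a) (htr : ∀ a b c, r a b → r b c → r a c)
    {Q : Set α} (hQ : Q.Finite) : ∃ idx : α → ℕ,
      (∀ x ∈ Q, ∀ y ∈ Q, r x y → idx x < idx y) ∧
      (∀ x ∈ Q, ∀ y ∈ Q, idx x = idx y → x = y) := by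
  classical
  set S : Finset α := hQ.toFinset with hS
  set N := S.card with hN
  let c : α → ℕ := fun x => (S.filter (fun q => r q x)).card
  let e : α → ℕ := fun x => if h : x ∈ S then (S.equivFin ⟨x, h⟩ : ℕ) else 0
  have he : ∀ x, e x < N + 1 := by
    intro x
    simp only [e]
    split_ifs with h
    · exact lt_of_lt_of_le (S.equivFin ⟨x, h⟩).2 (by omega)
    · omega
  refine ⟨fun x => e x + (N + 1) * c x, ?_, ?_⟩
  · intro x hx y hy hxy
    have h1 : c x + 1 ≤ c y := by
      have hss : insert x (S.filter (fun q => r q x)) ⊆ S.filter (fun q => r q y) := by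
        intro q hq
        rcases Finset.mem_insert.1 hq with rfl | hq
        · simp [hS, hx, hxy]
        · rw [Finset.mem_filter] at hq ⊢
          exact ⟨hq.1, htr _ _ _ hq.2 hxy⟩
      have hni : x ∉ S.filter (fun q => r q x) := by
        simp [hirr]
      have := Finset.card_le_card hss
      rw [Finset.card_insert_of_notMem hni] at this
      exact this
    have h2 := he x
    show e x + (N + 1) * c x < e y + (N + 1) * c y
    have h3 : (N + 1) * (c x + 1) ≤ (N + 1) * c y := Nat.mul_le_mul_left _ h1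
    rw [Nat.mul_add] at h3
    omega
  · intro x hx y hy hxy
    have h1 : (e x + (N + 1) * c x) % (N + 1) = (e y + (N + 1) * c y) % (N + 1) := by
      exact congrArg (· % (N + 1)) hxy
    rw [Nat.add_mul_mod_self_left, Nat.add_mul_mod_self_left, Nat.mod_eq_of_lt (he x),
      Nat.mod_eq_of_lt (he y)] at h1
    have hxS : x ∈ S := by simpa [hS] using hx
    have hyS : y ∈ S := by simpa [hS] using hy
    simp only [e, hxS, hyS, dif_pos] at h1
    have h2 : S.equivFin ⟨x, hxS⟩ = S.equivFin ⟨y, hyS⟩ := Fin.ext h1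
    have h3 := S.equivFin.injective h2
    exact congrArg Subtype.val h3

theorem AbsB_top_exists {r : α → α → Prop} {Q A : Set α} {idx : α → ℕ}
    (hidx : ∀ x ∈ Q, ∀ y ∈ Q, r x y → idx x < idx y) (F : Finset α) (hF : ∀ a ∈ F, a ∈ Q)
    (hc : Chn r F) (hne : ∃ x ∈ F, x ∉ A) : ∃ x, AbsB_Top r A F x := by
  classical
  obtain ⟨x0, hx0, hx0A⟩ := hne
  have hn : (F.filter (fun y => y ∉ A)).Nonempty := ⟨x0, by simp [hx0, hx0A]⟩
  obtain ⟨x, hx, hmax⟩ := Finset.exists_max_image _ idx hn
  rw [Finset.mem_filter] at hx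
  refine ⟨x, hx.1, hx.2, ?_⟩
  intro y hy hyA hne
  rcases hc y hy x hx.1 hne with h | h
  · exact h
  · exfalso
    have h1 := hidx x (hF x hx.1) y (hF y hy) h
    have h2 := hmax y (by simp [hy, hyA])
    omega

theorem AbsB_top_unique {r : α → α → Prop} (hirr : ∀ a, ¬ r a a)
    (htr : ∀ a b c, r a b → r b c → r a c) {A : Set α} {F : Finset α} {x y : α}
    (hx : AbsB_Top r A F x) (hy : AbsB_Top r A F y) : x = y := by
  by_contra hne
  have h1 := hx.2.2 y hy.1 hy.2.1 (fun h => hne h.symm)
  have h2 := hy.2.2 x hx.1 hx.2.1 hne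
  exact hirr _ (htr _ _ _ h1 h2)

open Classical in
theorem AbsB_split {r : α → α → Prop} {F : Finset α} (hc : Chn r F) {x : α} (hx : x ∈ F) :
    F = insert x (F.filter (fun u => r u x) ∪ F.filter (fun u => r x u)) := by
  ext u
  simp only [Finset.mem_insert, Finset.mem_union, Finset.mem_filter]
  constructor
  · intro hu
    by_cases h : u = x
    · exact Or.inl h
    · rcases hc u hu x hx h with h' | h'
      · exact Or.inr (Or.inl ⟨hu, h'⟩)
      · exact Or.inr (Or.inr ⟨hu, h'⟩)
  · rintro (rfl | h | h)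
    · exact hx
    · exact h.1
    · exact h.1

open Classical in
theorem AbsB_card {r : α → α → Prop} (hirr : ∀ a, ¬ r a a)
    (htr : ∀ a b c, r a b → r b c → r a c) {L U : Finset α} {x : α}
    (hL : ∀ u ∈ L, r u x) (hU : ∀ u ∈ U, r x u) :
    (insert x (L ∪ U)).card = L.card + U.card + 1 := by
  rw [Finset.card_insert_of_notMem, Finset.card_union_of_disjoint]
  · rw [Finset.disjoint_left]
    intro u hu hu'
    exact hirr _ (htr _ _ _ (hL u hu) (hU u hu'))
  · intro h
    rcases Finset.mem_union.1 h with h | h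
    · exact hirr _ (hL x h)
    · exact hirr _ (hU x h)

open Classical in
/-- glueing a lower and an upper facet at `x`. -/
theorem AbsB_glue {r : α → α → Prop} (hirr : ∀ a, ¬ r a a)
    (htr : ∀ a b c, r a b → r b c → r a c)
    {Q A : Set α} {d d1 d2 : ℕ} (hAQ : ∀ a ∈ A, a ∈ Q) {x : α} (hx : x ∈ Q) (hxA : x ∉ A)
    (hd : d1 + d2 + 1 = d) {L U : Finset α}
    (hL : Fct r d1 {q | q ∈ Q ∧ r q x} L) (hU : Fct r d2 {a | a ∈ A ∧ r x a} U) :
    Fct r d Q (insert x (L ∪ U)) ∧ AbsB_Top r A (insert x (L ∪ U)) x ∧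
      (insert x (L ∪ U)).filter (fun u => r u x) = L ∧
      (insert x (L ∪ U)).filter (fun u => r x u) = U := by
  have hLx : ∀ u ∈ L, r u x := fun u hu => (hL.1 u hu).2
  have hUx : ∀ u ∈ U, r x u := fun u hu => (hU.1 u hu).2
  refine ⟨⟨?_, ?_, ?_⟩, ⟨?_, hxA, ?_⟩, ?_, ?_⟩
  · intro a ha
    rcases Finset.mem_insert.1 ha with rfl | ha
    · exact hx
    · rcases Finset.mem_union.1 ha with ha | ha
      · exact (hL.1 a ha).1
      · exact hAQ _ (hU.1 a ha).1
  · intro a ha b hb hab
    rcases Finset.mem_insert.1 ha with ea | ha2 <;> rcases Finset.mem_insert.1 hb with eb | hb2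
    · exact absurd (ea.trans eb.symm) hab
    · rw [ea]
      rcases Finset.mem_union.1 hb2 with hb | hb
      · exact Or.inr (hLx b hb)
      · exact Or.inl (hUx b hb)
    · rw [eb]
      rcases Finset.mem_union.1 ha2 with ha | ha
      · exact Or.inl (hLx a ha)
      · exact Or.inr (hUx a ha)
    · rcases Finset.mem_union.1 ha2 with ha | ha <;> rcases Finset.mem_union.1 hb2 with hb | hb
      · exact hL.2.1 a ha b hb hab
      · exact Or.inl (htr _ _ _ (hLx a ha) (hUx b hb))
      · exact Or.inr (htr _ _ _ (hLx b hb) (hUx a ha))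
      · exact hU.2.1 a ha b hb hab
  · rw [AbsB_card hirr htr hLx hUx, hL.2.2, hU.2.2, hd]
  · exact Finset.mem_insert_self _ _
  · intro y hy hyA hne
    rcases Finset.mem_insert.1 hy with rfl | hy
    · exact absurd rfl hne
    · rcases Finset.mem_union.1 hy with hy | hy
      · exact hLx y hy
      · exact absurd (hU.1 y hy).1 hyA
  · ext u
    simp only [Finset.mem_filter, Finset.mem_insert, Finset.mem_union]
    constructor
    · rintro ⟨rfl | h | h, h'⟩
      · exact absurd h' (hirr _)
      · exact h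
      · exact absurd (htr _ _ _ h' (hUx u h)) (hirr _)
    · intro h
      exact ⟨Or.inr (Or.inl h), hLx u h⟩
  · ext u
    simp only [Finset.mem_filter, Finset.mem_insert, Finset.mem_union]
    constructor
    · rintro ⟨rfl | h | h, h'⟩
      · exact absurd h' (hirr _)
      · exact absurd (htr _ _ _ h' (hLx u h)) (hirr _)
      · exact h
    · intro h
      exact ⟨Or.inr (Or.inr h), hUx u h⟩

open Classical in
/-- the lower and the upper part of a facet at its largest element outside `A`. -/
theorem AbsB_parts {r : α → α → Prop} (hirr : ∀ a, ¬ r a a)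
    (htr : ∀ a b c, r a b → r b c → r a c)
    {Q A : Set α} {d d1 d2 : ℕ} {x : α}
    (hd : d1 + d2 + 1 = d) (h1 : Sh r d1 {q | q ∈ Q ∧ r q x})
    (h2 : Sh r d2 {a | a ∈ A ∧ r x a}) {F : Finset α} (hF : Fct r d Q F)
    (hx : AbsB_Top r A F x) :
    Fct r d1 {q | q ∈ Q ∧ r q x} (F.filter (fun u => r u x)) ∧
      Fct r d2 {a | a ∈ A ∧ r x a} (F.filter (fun u => r x u)) := by
  have hLm : ∀ a ∈ F.filter (fun u => r u x), a ∈ {q | q ∈ Q ∧ r q x} := by
    intro a ha
    rw [Finset.mem_filter] at ha
    exact ⟨hF.1 a ha.1, ha.2⟩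
  have hUm : ∀ a ∈ F.filter (fun u => r x u), a ∈ {a | a ∈ A ∧ r x a} := by
    intro a ha
    rw [Finset.mem_filter] at ha
    refine ⟨?_, ha.2⟩
    by_contra hA
    have hne : a ≠ x := by
      rintro rfl
      exact hirr _ ha.2
    exact hirr _ (htr _ _ _ ha.2 (hx.2.2 a ha.1 hA hne))
  have hLc : Chn r (F.filter (fun u => r u x)) := by
    intro a ha b hb hab
    rw [Finset.mem_filter] at ha hb
    exact hF.2.1 a ha.1 b hb.1 hab
  have hUc : Chn r (F.filter (fun u => r x u)) := by
    intro a ha b hb hab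
    rw [Finset.mem_filter] at ha hb
    exact hF.2.1 a ha.1 b hb.1 hab
  have e1 := sh_card_le h1 _ hLm hLc
  have e2 := sh_card_le h2 _ hUm hUc
  have e3 := AbsB_card (x := x) hirr htr (fun u hu => (hLm u hu).2) (fun u hu => (hUm u hu).2)
  rw [← AbsB_split hF.2.1 hx.1, hF.2.2] at e3
  exact ⟨⟨hLm, hLc, by omega⟩, ⟨hUm, hUc, by omega⟩⟩

/-- **Lemma L** (relative shelling, rank free and self dual form).

Proof (row 456, section 1). `N = Q \ A`. Choose a map `idx : α → ℕ` on the finite set `Q` which is
strictly increasing for `r` and injective (linear extension of the strict order `r`), shelling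
functions `fA` for `A`, `fl x`, `fu x` for the lower and upper parts. For a facet `F` of `Q` which
is not inside `A` let `x` be the element of `F \ A` with the largest `idx` (= the largest element
of the chain `F \ A`); then `F = F_{<x} ∪ {x} ∪ F_{>x}`, the lower part is a chain of
`{q ∈ Q, r q x}`, so has at most `d1 x` elements (`sh_card_le`), the upper part is a chain of
`{a ∈ A, r x a}`, at most `d2 x` elements, and `d1 x + d2 x + 1 = d`: both are facets.
Order: value in `ℕ ×ₗ (ℕ ×ₗ ℕ)`: `(0, (0, fA F))` if `F ⊆ A`, else `(idx x + 1, (fl x F_{<x}, fu x F_{>x}))`;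
use `sh_of_linear`. For `G` earlier than `F ⊄ A`: if `x ∉ G` take `v = x` and
`H = (F \ {x}) ∪ {y}`, `y` from `hE` (the elements of `H` outside `A` are in `F_{<x}`, so `H` is in
an earlier block); if `x ∈ G` then the largest element of `G \ A` is `x` again, and one uses the
shelling of the lower or of the upper part. Extension of chains: same decomposition. -/
theorem sh_rel {r : α → α → Prop} (hirr : ∀ a, ¬ r a a) (htr : ∀ a b c, r a b → r b c → r a c)
    {Q A : Set α} {d : ℕ} (d1 d2 : α → ℕ) (hQ : Q.Finite) (hAQ : ∀ a ∈ A, a ∈ Q)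
    (hA : Sh r d A)
    (hd : ∀ x ∈ Q, x ∉ A → d1 x + d2 x + 1 = d)
    (h1 : ∀ x ∈ Q, x ∉ A → Sh r (d1 x) {q | q ∈ Q ∧ r q x})
    (h2 : ∀ x ∈ Q, x ∉ A → Sh r (d2 x) {a | a ∈ A ∧ r x a})
    (hE : ∀ x ∈ Q, x ∉ A → ∀ C1 C2, Fct r (d1 x) {q | q ∈ Q ∧ r q x} C1 →
      Fct r (d2 x) {a | a ∈ A ∧ r x a} C2 →
      ∃ y ∈ A, (∀ c ∈ C1, r c y) ∧ (∀ c ∈ C2, r y c)) :
    Sh r d Q := by
  classical
  by_cases hQA : ∀ x ∈ Q, x ∈ A
  · have : Q = A := Set.Subset.antisymm (fun x hx => hQA x hx) (fun x hx => hAQ x hx)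
    rw [this]; exact hA
  push Not at hQA
  obtain ⟨x0, -, -⟩ := hQA
  have : Nonempty α := ⟨x0⟩
  obtain ⟨idx, hidx, hidxi⟩ := AbsB_idx hirr htr hQ
  have hXe : ∀ F : Finset α, (∀ a ∈ F, a ∈ Q) → Chn r F → (∃ x ∈ F, x ∉ A) →
      ∃ x, AbsB_Top r A F x := fun F hF hc hne => AbsB_top_exists hidx F hF hc hne
  choose! X hX using hXe
  obtain ⟨-, hAext, fA, hfAi, hfAs⟩ := hA
  have h1' : ∀ x, ∃ f : Finset α → ℕ, x ∈ Q → x ∉ A →
      (∀ F G, Fct r (d1 x) {q | q ∈ Q ∧ r q x} F → Fct r (d1 x) {q | q ∈ Q ∧ r q x} G →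
        f F = f G → F = G) ∧
      ∀ F G, Fct r (d1 x) {q | q ∈ Q ∧ r q x} F → Fct r (d1 x) {q | q ∈ Q ∧ r q x} G →
        f G < f F → ∃ H, Fct r (d1 x) {q | q ∈ Q ∧ r q x} H ∧ f H < f F ∧
          ∃ v ∈ F, v ∉ G ∧ ∀ u ∈ F, u ≠ v → u ∈ H := by
    intro x
    by_cases hx : x ∈ Q ∧ x ∉ A
    · obtain ⟨-, -, f, hf⟩ := h1 x hx.1 hx.2
      exact ⟨f, fun _ _ => hf⟩
    · exact ⟨fun _ => 0, fun h h' => absurd ⟨h, h'⟩ hx⟩
  choose fl hfl using h1'
  have h2' : ∀ x, ∃ f : Finset α → ℕ, x ∈ Q → x ∉ A →
      (∀ F G, Fct r (d2 x) {a | a ∈ A ∧ r x a} F → Fct r (d2 x) {a | a ∈ A ∧ r x a} G →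
        f F = f G → F = G) ∧
      ∀ F G, Fct r (d2 x) {a | a ∈ A ∧ r x a} F → Fct r (d2 x) {a | a ∈ A ∧ r x a} G →
        f G < f F → ∃ H, Fct r (d2 x) {a | a ∈ A ∧ r x a} H ∧ f H < f F ∧
          ∃ v ∈ F, v ∉ G ∧ ∀ u ∈ F, u ≠ v → u ∈ H := by
    intro x
    by_cases hx : x ∈ Q ∧ x ∉ A
    · obtain ⟨-, -, f, hf⟩ := h2 x hx.1 hx.2
      exact ⟨f, fun _ _ => hf⟩
    · exact ⟨fun _ => 0, fun h h' => absurd ⟨h, h'⟩ hx⟩
  choose fu hfu using h2'
  -- the order of the facets
  let val : Finset α → ℕ ×ₗ (ℕ ×ₗ ℕ) := fun F =>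
    if ∃ x ∈ F, x ∉ A then
      toLex (idx (X F) + 1, toLex (fl (X F) (F.filter (fun u => r u (X F))),
        fu (X F) (F.filter (fun u => r (X F) u))))
    else toLex (0, toLex (0, fA F))
  have hval1 : ∀ F x, Fct r d Q F → AbsB_Top r A F x → val F =
      toLex (idx x + 1, toLex (fl x (F.filter (fun u => r u x)),
        fu x (F.filter (fun u => r x u)))) := by
    intro F x hF hx
    have hne : ∃ x ∈ F, x ∉ A := ⟨x, hx.1, hx.2.1⟩
    have hXx : X F = x := AbsB_top_unique hirr htr (hX F hF.1 hF.2.1 hne) hx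
    simp only [val, if_pos hne, hXx]
  have hval0 : ∀ F, (∀ x ∈ F, x ∈ A) → val F = toLex (0, toLex (0, fA F)) := by
    intro F hF
    have hne : ¬ ∃ x ∈ F, x ∉ A := by
      push Not
      exact hF
    simp only [val, if_neg hne]
  have hparts : ∀ F x, Fct r d Q F → AbsB_Top r A F x →
      Fct r (d1 x) {q | q ∈ Q ∧ r q x} (F.filter (fun u => r u x)) ∧
      Fct r (d2 x) {a | a ∈ A ∧ r x a} (F.filter (fun u => r x u)) := by
    intro F x hF hx
    have hxQ := hF.1 x hx.1
    exact AbsB_parts hirr htr (hd x hxQ hx.2.1) (h1 x hxQ hx.2.1) (h2 x hxQ hx.2.1) hF hx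
  refine sh_of_linear hQ ?_ val ?_ ?_
  · -- extension of chains
    intro F hF hc
    by_cases hne : ∃ x ∈ F, x ∉ A
    · have hx := hX F hF hc hne
      set x := X F with hxdef
      have hxQ := hF x hx.1
      obtain ⟨L, hFL, hL⟩ := (h1 x hxQ hx.2.1).2.1 (F.filter (fun u => r u x))
        (by intro a ha; rw [Finset.mem_filter] at ha; exact ⟨hF a ha.1, ha.2⟩)
        (by intro a ha b hb hab; rw [Finset.mem_filter] at ha hb; exact hc a ha.1 b hb.1 hab)
      obtain ⟨U, hFU, hU⟩ := (h2 x hxQ hx.2.1).2.1 (F.filter (fun u => r x u))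
        (by
          intro a ha
          rw [Finset.mem_filter] at ha
          refine ⟨?_, ha.2⟩
          by_contra hA
          have hne : a ≠ x := by
            intro h
            rw [h] at ha
            exact hirr _ ha.2
          exact hirr _ (htr _ _ _ ha.2 (hx.2.2 a ha.1 hA hne)))
        (by intro a ha b hb hab; rw [Finset.mem_filter] at ha hb; exact hc a ha.1 b hb.1 hab)
      refine ⟨insert x (L ∪ U), ?_, (AbsB_glue hirr htr hAQ hxQ hx.2.1 (hd x hxQ hx.2.1) hL hU).1⟩
      rw [AbsB_split hc hx.1]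
      intro u hu
      rcases Finset.mem_insert.1 hu with rfl | hu
      · exact Finset.mem_insert_self _ _
      · refine Finset.mem_insert_of_mem ?_
        rcases Finset.mem_union.1 hu with hu | hu
        · exact Finset.mem_union_left _ (hFL hu)
        · exact Finset.mem_union_right _ (hFU hu)
    · push Not at hne
      obtain ⟨G, hFG, hG⟩ := hAext F hne hc
      exact ⟨G, hFG, fun a ha => hAQ a (hG.1 a ha), hG.2⟩
  · -- injectivity
    intro F G hF hG hFG
    by_cases hneF : ∃ x ∈ F, x ∉ A <;> by_cases hneG : ∃ x ∈ G, x ∉ A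
    · have hx := hX F hF.1 hF.2.1 hneF
      have hy := hX G hG.1 hG.2.1 hneG
      set x := X F with hxdef
      set y := X G with hydef
      rw [hval1 F x hF hx, hval1 G y hG hy] at hFG
      have e0 := congrArg (fun p => (ofLex p).1) hFG
      have e1 := congrArg (fun p => (ofLex (ofLex p).2).1) hFG
      have e2 := congrArg (fun p => (ofLex (ofLex p).2).2) hFG
      simp only [ofLex_toLex] at e0 e1 e2
      have hxQ := hF.1 x hx.1
      have hyQ := hG.1 y hy.1
      have hxy : x = y := hidxi x hxQ y hyQ (by omega)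
      rw [← hxy] at e1 e2 hy
      have pF := hparts F x hF hx
      have pG := hparts G x hG hy
      have q1 := (hfl x hxQ hx.2.1).1 _ _ pF.1 pG.1 e1
      have q2 := (hfu x hxQ hx.2.1).1 _ _ pF.2 pG.2 e2
      rw [AbsB_split hF.2.1 hx.1, AbsB_split hG.2.1 hy.1, q1, q2]
    · push Not at hneG
      have hx := hX F hF.1 hF.2.1 hneF
      rw [hval1 F _ hF hx, hval0 G hneG] at hFG
      have e0 := congrArg (fun p => (ofLex p).1) hFG
      simp at e0
    · push Not at hneF
      have hy := hX G hG.1 hG.2.1 hneG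
      rw [hval1 G _ hG hy, hval0 F hneF] at hFG
      have e0 := congrArg (fun p => (ofLex p).1) hFG
      simp at e0
    · push Not at hneF hneG
      rw [hval0 F hneF, hval0 G hneG] at hFG
      have e2 := congrArg (fun p => (ofLex (ofLex p).2).2) hFG
      simp only [ofLex_toLex] at e2
      exact hfAi F G ⟨hneF, hF.2⟩ ⟨hneG, hG.2⟩ e2
  · -- shelling
    intro F G hF hG hlt
    by_cases hneF : ∃ x ∈ F, x ∉ A
    · have hx := hX F hF.1 hF.2.1 hneF
      set x := X F with hxdef
      have hxQ := hF.1 x hx.1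
      have pF := hparts F x hF hx
      by_cases hxG : x ∈ G
      · -- same block
        have hneG : ∃ x ∈ G, x ∉ A := ⟨x, hxG, hx.2.1⟩
        have hy := hX G hG.1 hG.2.1 hneG
        set y := X G with hydef
        have hyQ := hG.1 y hy.1
        rw [hval1 F x hF hx, hval1 G y hG hy] at hlt
        have hxy : y = x := by
          by_contra hne
          have h3 := hidx x hxQ y hyQ (hy.2.2 x hxG hx.2.1 (fun h => hne h.symm))
          rw [Prod.Lex.toLex_lt_toLex] at hlt
          rcases hlt with h | h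
          · simp only at h; omega
          · simp only at h; omega
        rw [hxy] at hlt hy
        have pG := hparts G x hG hy
        rw [Prod.Lex.toLex_lt_toLex] at hlt
        rcases hlt with h | ⟨-, h⟩
        · exact absurd h (lt_irrefl _)
        · simp only at h
          rw [Prod.Lex.toLex_lt_toLex] at h
          rcases h with h | ⟨h, h'⟩
          · simp only at h
            obtain ⟨L, hL, hLl, v, hvF, hvG, hsub⟩ :=
              (hfl x hxQ hx.2.1).2 _ _ pF.1 pG.1 h
            have g := AbsB_glue hirr htr hAQ hxQ hx.2.1 (hd x hxQ hx.2.1) hL pF.2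
            rw [Finset.mem_filter] at hvF
            refine ⟨_, g.1, ?_, v, hvF.1, ?_, ?_⟩
            · rw [hval1 _ x g.1 g.2.1, hval1 F x hF hx, g.2.2.1, g.2.2.2]
              rw [Prod.Lex.toLex_lt_toLex]
              refine Or.inr ⟨rfl, ?_⟩
              rw [Prod.Lex.toLex_lt_toLex]
              exact Or.inl hLl
            · intro hv
              exact hvG (by rw [Finset.mem_filter]; exact ⟨hv, hvF.2⟩)
            · intro u hu hne
              rw [AbsB_split hF.2.1 hx.1] at hu
              rcases Finset.mem_insert.1 hu with rfl | hu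
              · exact Finset.mem_insert_self _ _
              · refine Finset.mem_insert_of_mem ?_
                rcases Finset.mem_union.1 hu with hu | hu
                · exact Finset.mem_union_left _ (hsub u hu hne)
                · exact Finset.mem_union_right _ hu
          · simp only at h h'
            have hLL := (hfl x hxQ hx.2.1).1 _ _ pG.1 pF.1 h
            obtain ⟨U, hU, hUl, v, hvF, hvG, hsub⟩ :=
              (hfu x hxQ hx.2.1).2 _ _ pF.2 pG.2 h'
            have g := AbsB_glue hirr htr hAQ hxQ hx.2.1 (hd x hxQ hx.2.1) pF.1 hU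
            rw [Finset.mem_filter] at hvF
            refine ⟨_, g.1, ?_, v, hvF.1, ?_, ?_⟩
            · rw [hval1 _ x g.1 g.2.1, hval1 F x hF hx, g.2.2.1, g.2.2.2]
              rw [Prod.Lex.toLex_lt_toLex]
              refine Or.inr ⟨rfl, ?_⟩
              rw [Prod.Lex.toLex_lt_toLex]
              exact Or.inr ⟨rfl, hUl⟩
            · intro hv
              exact hvG (by rw [Finset.mem_filter]; exact ⟨hv, hvF.2⟩)
            · intro u hu hne
              rw [AbsB_split hF.2.1 hx.1] at hu
              rcases Finset.mem_insert.1 hu with rfl | hu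
              · exact Finset.mem_insert_self _ _
              · refine Finset.mem_insert_of_mem ?_
                rcases Finset.mem_union.1 hu with hu | hu
                · exact Finset.mem_union_left _ hu
                · exact Finset.mem_union_right _ (hsub u hu hne)
      · -- exchange `x` for an element of `A`
        obtain ⟨y, hyA, hy1, hy2⟩ := hE x hxQ hx.2.1 _ _ pF.1 pF.2
        have hyQ := hAQ y hyA
        have hHF : Fct r d Q (insert y (F.filter (fun u => r u x) ∪ F.filter (fun u => r x u))) := by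
          refine ⟨?_, ?_, ?_⟩
          · intro a ha
            rcases Finset.mem_insert.1 ha with rfl | ha
            · exact hyQ
            · rcases Finset.mem_union.1 ha with ha | ha
              · exact (pF.1.1 a ha).1
              · exact hAQ _ (pF.2.1 a ha).1
          · intro a ha b hb hab
            rcases Finset.mem_insert.1 ha with ea | ha2 <;>
              rcases Finset.mem_insert.1 hb with eb | hb2
            · exact absurd (ea.trans eb.symm) hab
            · rw [ea]
              rcases Finset.mem_union.1 hb2 with hb | hb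
              · exact Or.inr (hy1 b hb)
              · exact Or.inl (hy2 b hb)
            · rw [eb]
              rcases Finset.mem_union.1 ha2 with ha | ha
              · exact Or.inl (hy1 a ha)
              · exact Or.inr (hy2 a ha)
            · have ha' : a ∈ F := by
                rcases Finset.mem_union.1 ha2 with ha | ha <;> exact (Finset.mem_filter.1 ha).1
              have hb' : b ∈ F := by
                rcases Finset.mem_union.1 hb2 with hb | hb <;> exact (Finset.mem_filter.1 hb).1
              exact hF.2.1 a ha' b hb' hab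
          · rw [AbsB_card hirr htr hy1 hy2, pF.1.2.2, pF.2.2.2, hd x hxQ hx.2.1]
        refine ⟨_, hHF, ?_, x, hx.1, hxG, ?_⟩
        · rw [hval1 F x hF hx]
          by_cases hneH : ∃ z ∈ insert y (F.filter (fun u => r u x) ∪ F.filter (fun u => r x u)),
              z ∉ A
          · have hz := hX _ hHF.1 hHF.2.1 hneH
            set z := X (insert y (F.filter (fun u => r u x) ∪ F.filter (fun u => r x u)))
              with hzdef
            rw [hval1 _ _ hHF hz, Prod.Lex.toLex_lt_toLex]
            left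
            simp only
            have hzm := hz.1
            have hzx : r z x := by
              rcases Finset.mem_insert.1 hzm with h | h
              · exact absurd (show z ∈ A by rw [h]; exact hyA) hz.2.1
              · rcases Finset.mem_union.1 h with h | h
                · exact (Finset.mem_filter.1 h).2
                · exact absurd (pF.2.1 _ h).1 hz.2.1
            have := hidx _ (hHF.1 _ hzm) x hxQ hzx
            omega
          · push Not at hneH
            rw [hval0 _ hneH, Prod.Lex.toLex_lt_toLex]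
            left
            simp
        · intro u hu hne
          rw [AbsB_split hF.2.1 hx.1] at hu
          rcases Finset.mem_insert.1 hu with h | hu
          · exact absurd h hne
          · exact Finset.mem_insert_of_mem hu
    · push Not at hneF
      by_cases hneG : ∃ x ∈ G, x ∉ A
      · exfalso
        have hy := hX G hG.1 hG.2.1 hneG
        rw [hval1 G _ hG hy, hval0 F hneF, Prod.Lex.toLex_lt_toLex] at hlt
        rcases hlt with h | ⟨h, -⟩
        · simp at h
        · simp at h
      · push Not at hneG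
        rw [hval0 F hneF, hval0 G hneG, Prod.Lex.toLex_lt_toLex] at hlt
        rcases hlt with h | ⟨-, h⟩
        · simp at h
        · simp only at h
          rw [Prod.Lex.toLex_lt_toLex] at h
          rcases h with h | ⟨-, h⟩
          · simp at h
          · simp only at h
            obtain ⟨H, hH, hHl, v, hvF, hvG, hsub⟩ :=
              hfAs F G ⟨hneF, hF.2⟩ ⟨hneG, hG.2⟩ h
            refine ⟨H, ⟨fun a ha => hAQ a (hH.1 a ha), hH.2⟩, ?_, v, hvF, hvG, hsub⟩
            rw [hval0 F hneF, hval0 H hH.1, Prod.Lex.toLex_lt_toLex]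
            refine Or.inr ⟨rfl, ?_⟩
            rw [Prod.Lex.toLex_lt_toLex]
            exact Or.inr ⟨rfl, hHl⟩

end H58
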