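import Pool.Agent.W_58cc_h2.Dict

/-!
# MP_58cc3c_co: shellability of the order complex and `Sh`
-/

namespace Pool.Agent.W_58cc_h2

open Finset

section general

variable {α β : Type*}

/-- The complex of the finite chains of `Q`. -/
def chainCx (le : α → α → Prop) (Q : Set α) : Set (Finset α) :=
  {F | (∀ x ∈ F, x ∈ Q) ∧ ∀ x ∈ F, ∀ y ∈ F, le x y ∨ le y x}

/-- The strict relation of `le`. -/
def slt (le : α → α → Prop) (x y : α) : Prop := le x y ∧ x ≠ y

lemma isCh_iff {le : α → α → Prop} (hr : ∀ x, le x x) (Q : Set α) (F : Finset α) :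
    IsCh (slt le) Q F ↔ F ∈ chainCx le Q := by
  constructor
  · rintro ⟨h1, h2⟩
    refine ⟨h1, fun x hx y hy => ?_⟩
    by_cases h : x = y
    · subst h; exact Or.inl (hr x)
    · rcases h2 x hx y hy h with h3 | h3
      · exact Or.inl h3.1
      · exact Or.inr h3.1
  · rintro ⟨h1, h2⟩
    refine ⟨h1, fun x hx y hy h => ?_⟩
    rcases h2 x hx y hy with h3 | h3
    · exact Or.inl ⟨h3, h⟩
    · exact Or.inr ⟨h3, h.symm⟩

lemma IsCh.mono {r : α → α → Prop} {Q : Set α} {F G : Finset α} (h : IsCh r Q F) (hG : G ⊆ F) :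
    IsCh r Q G :=
  ⟨fun x hx => h.1 x (hG hx), fun x hx y hy => h.2 x (hG hx) y (hG hy)⟩

lemma isCh_empty {r : α → α → Prop} {Q : Set α} : IsCh r Q ∅ := by
  constructor <;> simp

open Classical in
theorem shellable_of_sh {le : α → α → Prop} (hr : ∀ x, le x x) {Q : Set α} {d : ℕ}
    (h : Sh (slt le) d Q) : Shellable (chainCx le Q) := by
  obtain ⟨hfin, hext, f, finj, hf⟩ := h
  have hmem : ∀ F, F ∈ chainCx le Q ↔ IsCh (slt le) Q F := fun F => (isCh_iff hr Q F).symm
  have hfct : ∀ F, IsFacet (chainCx le Q) F ↔ IsFct (slt le) d Q F := by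
    intro F
    constructor
    · rintro ⟨h1, h2⟩
      obtain ⟨G, hG, hFG⟩ := hext F ((hmem F).1 h1)
      rw [← h2 G ((hmem G).2 hG.1) hFG]
      exact hG
    · rintro ⟨h1, h2⟩
      refine ⟨(hmem F).2 h1, fun G hG hFG => ?_⟩
      obtain ⟨G', hG', hGG'⟩ := hext G ((hmem G).1 hG)
      have h3 : F = G' := Finset.eq_of_subset_of_card_le (hFG.trans hGG') (by rw [hG'.2, h2])
      exact subset_antisymm (h3 ▸ hGG') hFG
  -- the finite set of facets
  have hFfin : {F : Finset α | IsFct (slt le) d Q F}.Finite := by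
    apply (hfin.toFinset.powerset).finite_toSet.subset
    intro F hF
    simp only [Finset.coe_powerset, Set.mem_preimage, Set.mem_powerset_iff]
    intro x hx
    simpa using hF.1.1 x hx
  set S : Finset (Finset α) := hFfin.toFinset with hS
  have hSm : ∀ F, F ∈ S ↔ IsFct (slt le) d Q F := by intro F; simp [hS]
  set T : Finset ℕ := S.image f with hT
  set g : ℕ → Finset α := fun n => if h : ∃ F ∈ S, f F = n then h.choose else ∅ with hg
  have hgT : ∀ n ∈ T, g n ∈ S ∧ f (g n) = n := by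
    intro n hn
    have h1 : ∃ F ∈ S, f F = n := by simpa [hT] using hn
    have h2 : g n = h1.choose := by simp only [hg]; rw [dif_pos h1]
    rw [h2]
    exact h1.choose_spec
  have hgf : ∀ F ∈ S, g (f F) = F := by
    intro F hF
    have h1 := hgT (f F) (by rw [hT]; exact Finset.mem_image_of_mem f hF)
    exact finj _ _ ((hSm _).1 h1.1) ((hSm _).1 hF) h1.2
  set N : List ℕ := T.sort (· ≤ ·) with hN
  have hNm : ∀ n, n ∈ N ↔ n ∈ T := by intro n; simp [hN]
  have hNs : ∀ i j : ℕ, ∀ hi : i < N.length, ∀ hj : j < N.length, i < j → N[i] < N[j] := by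
    have h1 : N.Pairwise (· < ·) := by
      rw [hN]
      exact Finset.sortedLT_sort T |>.pairwise
    rw [List.pairwise_iff_getElem] at h1
    exact fun i j hi hj hij => h1 i j hi hj hij
  refine ⟨(d : ℤ) - 1, ⟨⟨∅, (hmem _).2 isCh_empty⟩, ?_, ?_⟩, N.map g, ?_, ?_, ?_⟩
  · intro F hF
    obtain ⟨G, hG, hFG⟩ := hext F ((hmem F).1 hF)
    exact ⟨G, (hfct G).2 hG, hFG⟩
  · intro F hF
    have := ((hfct F).1 hF).2
    rw [this]; ring
  · rw [List.nodup_map_iff_inj_on (by rw [hN]; exact Finset.sort_nodup _ _)]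
    intro a ha b hb hab
    rw [← (hgT a ((hNm a).1 ha)).2, ← (hgT b ((hNm b).1 hb)).2, hab]
  · intro F
    rw [hfct, ← hSm, List.mem_map]
    constructor
    · rintro ⟨n, hn, rfl⟩
      exact (hgT n ((hNm n).1 hn)).1
    · intro hF
      exact ⟨f F, (hNm _).2 (by rw [hT]; exact Finset.mem_image_of_mem f hF), hgf F hF⟩
  · intro j hj0 hj
    have hjN : j < N.length := by simpa using hj
    have hLi : ∀ i (hi : i < N.length), (N.map g)[i]'(by simpa using hi) ∈ S ∧
        f ((N.map g)[i]'(by simpa using hi)) = N[i] := by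
      intro i hi
      rw [List.getElem_map]
      exact hgT _ ((hNm _).1 (List.getElem_mem _))
    have hidx : ∀ F ∈ S, f F < N[j] → ∃ i, ∃ hi : i < j,
        F = (N.map g)[i]'(by rw [List.length_map]; exact hi.trans hjN) := by
      intro F hF hlt
      have h1 : f F ∈ N := (hNm _).2 (by rw [hT]; exact Finset.mem_image_of_mem f hF)
      obtain ⟨i, hi, hi2⟩ := List.getElem_of_mem h1
      have hij : i < j := by
        by_contra hcon
        rcases lt_or_eq_of_le (not_lt.1 hcon) with h | h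
        · have := hNs j i hjN hi h
          omega
        · subst h; omega
      refine ⟨i, hij, ?_⟩
      rw [List.getElem_map]
      rw [hi2, hgf F hF]
    set C : Set (Finset α) := {G : Finset α | (∃ i : ℕ, ∃ hi : i < j,
      G ⊆ (N.map g)[i]'(hi.trans hj)) ∧ G ⊆ (N.map g)[j]} with hC
    have hFj := hLi j hjN
    have hFj' := (hSm _).1 hFj.1
    -- every face lies in a face `L j - v` which is a facet
    have key : ∀ G ∈ C, ∃ v ∈ (N.map g)[j], ((N.map g)[j]).erase v ∈ C ∧
        G ⊆ ((N.map g)[j]).erase v := by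
      rintro G ⟨⟨i, hi, hGi⟩, hGj⟩
      have hFi := hLi i (hi.trans hjN)
      have hFi' := (hSm _).1 hFi.1
      obtain ⟨H, v, hH, hHf, hv, h1, h2⟩ := hf _ _ hFj' hFi' (by
        rw [hFi.2, hFj.2]; exact hNs i j (hi.trans hjN) hjN hi)
      refine ⟨v, hv, ⟨?_, Finset.erase_subset _ _⟩, (Finset.subset_inter hGj hGi).trans h1⟩
      obtain ⟨i', hi', hHi⟩ := hidx H ((hSm H).2 hH) (by rw [hFj.2] at hHf; exact hHf)
      exact ⟨i', hi', hHi ▸ h2⟩
    have hnot : (N.map g)[j] ∉ C := by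
      rintro ⟨⟨i, hi, hGi⟩, -⟩
      have hFi := hLi i (hi.trans hjN)
      have hFi' := (hSm _).1 hFi.1
      have h1 : (N.map g)[j] = (N.map g)[i]'(hi.trans hj) :=
        Finset.eq_of_subset_of_card_le hGi (by rw [hFi'.2, hFj'.2])
      have h2 := hNs i j (hi.trans hjN) hjN hi
      have h3 := hFi.2
      rw [← h1, hFj.2] at h3
      omega
    have hfac : ∀ v ∈ (N.map g)[j], ((N.map g)[j]).erase v ∈ C →
        IsFacet C (((N.map g)[j]).erase v) := by
      intro v hv hvC
      refine ⟨hvC, fun G hG hvG => ?_⟩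
      by_contra hne
      have h1 : v ∈ G := by
        by_contra hvG'
        apply hne
        apply subset_antisymm _ hvG
        intro x hx
        refine Finset.mem_erase.2 ⟨fun h => hvG' (h ▸ hx), hG.2 hx⟩
      have h2 : G = (N.map g)[j] := by
        apply subset_antisymm hG.2
        intro x hx
        by_cases hxv : x = v
        · rw [hxv]; exact h1
        · exact hvG (Finset.mem_erase.2 ⟨hxv, hx⟩)
      exact hnot (h2 ▸ hG)
    refine ⟨⟨∅, ⟨0, hj0, by simp⟩, by simp⟩, ?_, ?_⟩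
    · intro G hG
      obtain ⟨v, hv, h1, h2⟩ := key G hG
      exact ⟨_, hfac v hv h1, h2⟩
    · intro G hG
      obtain ⟨v, hv, h1, h2⟩ := key G hG.1
      have h3 := hG.2 _ h1 h2
      rw [← h3, Finset.card_erase_of_mem hv, hFj'.2]
      have : 0 < d := by
        rw [← hFj'.2]; exact Finset.card_pos.2 ⟨v, hv⟩
      rw [Nat.cast_sub (by omega)]
      push_cast
      ring

open Classical in
theorem sh_of_shellable {le : α → α → Prop} (hr : ∀ x, le x x) {Q : Set α} (hfin : Q.Finite)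
    (h : Shellable (chainCx le Q)) : ∃ d, Sh (slt le) d Q := by
  obtain ⟨D, ⟨⟨F0, hF0⟩, hext, hcard⟩, L, hnd, hL, hsh⟩ := h
  have hmem : ∀ F, F ∈ chainCx le Q ↔ IsCh (slt le) Q F := fun F => (isCh_iff hr Q F).symm
  obtain ⟨F1, hF1, -⟩ := hext F0 hF0
  have hD : (F1.card : ℤ) = D + 1 := hcard F1 hF1
  refine ⟨F1.card, hfin, ?_, ?_⟩
  · intro F hF
    obtain ⟨G, hG, hFG⟩ := hext F ((hmem F).2 hF)
    refine ⟨G, ⟨(hmem G).1 hG.1, ?_⟩, hFG⟩
    have := hcard G hG
    omega
  · have hfct : ∀ F, IsFacet (chainCx le Q) F ↔ IsFct (slt le) F1.card Q F := by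
      intro F
      constructor
      · intro hF
        refine ⟨(hmem F).1 hF.1, ?_⟩
        have := hcard F hF
        omega
      · rintro ⟨h1, h2⟩
        obtain ⟨G, hG, hFG⟩ := hext F ((hmem F).2 h1)
        have h3 := hcard G hG
        have : F = G := Finset.eq_of_subset_of_card_le hFG (by omega)
        rw [this]; exact hG
    refine ⟨fun F => L.idxOf F, ?_, ?_⟩
    · intro F G hF hG hFG
      have h1 : F ∈ L := (hL F).2 ((hfct F).2 hF)
      exact (List.idxOf_inj h1).1 hFG
    · intro F G hF hG hFG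
      have hFL : F ∈ L := (hL F).2 ((hfct F).2 hF)
      have hGL : G ∈ L := (hL G).2 ((hfct G).2 hG)
      have hj : L.idxOf F < L.length := List.idxOf_lt_length_iff.2 hFL
      have hi : L.idxOf G < L.length := List.idxOf_lt_length_iff.2 hGL
      have hFj : L[L.idxOf F] = F := List.getElem_idxOf hj
      have hGi : L[L.idxOf G] = G := List.getElem_idxOf hi
      obtain ⟨-, h1, h2⟩ := hsh (L.idxOf F) (by simp only at hFG; omega) hj
      obtain ⟨H', hH', hsub⟩ := h1 (F ∩ G) ⟨⟨L.idxOf G, hFG, by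
        rw [hGi]; exact Finset.inter_subset_right⟩, by
        rw [hFj]; exact Finset.inter_subset_left⟩
      have hc := h2 H' hH'
      obtain ⟨⟨i', hi', hHi⟩, hHj⟩ := hH'.1
      rw [hFj] at hHj
      have hcF := hF.2
      obtain ⟨v, hvF, hvH⟩ : ∃ v ∈ F, v ∉ H' := by
        by_contra hcon
        push Not at hcon
        have : F = H' := subset_antisymm hcon hHj
        rw [← this] at hc
        omega
      have hHe : H' = F.erase v := by
        apply Finset.eq_of_subset_of_card_le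
        · intro x hx
          exact Finset.mem_erase.2 ⟨fun h => hvH (h ▸ hx), hHj hx⟩
        · rw [Finset.card_erase_of_mem hvF]
          have : 0 < F.card := Finset.card_pos.2 ⟨v, hvF⟩
          omega
      refine ⟨L[i']'(hi'.trans hj), v, ?_, ?_, hvF, ?_, ?_⟩
      · exact (hfct _).1 ((hL _).1 (List.getElem_mem _))
      · show L.idxOf (L[i']'(hi'.trans hj)) < L.idxOf F
        rw [List.Nodup.idxOf_getElem hnd]
        exact hi'
      · rw [← hHe]; exact hsub
      · rw [← hHe]; exact hHi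

theorem shellable_iff_sh {le : α → α → Prop} (hr : ∀ x, le x x) {Q : Set α} (hfin : Q.Finite) :
    Shellable (chainCx le Q) ↔ ∃ d, Sh (slt le) d Q :=
  ⟨sh_of_shellable hr hfin, fun ⟨_, h⟩ => shellable_of_sh hr h⟩

open Classical in
/-- Transport of `Sh` along a map which is injective on `Q` and preserves and reflects the
strict relations. -/
theorem Sh.image {r : β → β → Prop} {r' : α → α → Prop} {Q : Set β} {d : ℕ} (φ : β → α)
    (hinj : ∀ x ∈ Q, ∀ y ∈ Q, φ x = φ y → x = y)
    (hrel : ∀ x ∈ Q, ∀ y ∈ Q, (r x y ↔ r' (φ x) (φ y))) (h : Sh r d Q) :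
    Sh r' d (φ '' Q) := by
  obtain ⟨hfin, hext, f, finj, hf⟩ := h
  rcases Q.eq_empty_or_nonempty with hQ | ⟨q0, hq0⟩
  · subst hQ
    refine ⟨by simp, ?_, ?_⟩
    · intro F hF
      obtain ⟨G, hG, -⟩ := hext ∅ isCh_empty
      have hG0 : G = ∅ := by
        rw [Finset.eq_empty_iff_forall_notMem]
        intro x hx
        exact hG.1.1 x hx
      have hd : d = 0 := by rw [← hG.2, hG0]; rfl
      refine ⟨F, ⟨hF, ?_⟩, subset_rfl⟩
      rw [hd, Finset.card_eq_zero, Finset.eq_empty_iff_forall_notMem]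
      intro x hx
      simpa using hF.1 x hx
    · have hemp : ∀ F, IsFct r' d (φ '' (∅ : Set β)) F → F = ∅ := by
        intro F hF
        rw [Finset.eq_empty_iff_forall_notMem]
        intro x hx
        simpa using hF.1.1 x hx
      refine ⟨fun _ => 0, fun F G hF hG _ => by rw [hemp F hF, hemp G hG], ?_⟩
      intro F G _ _ hlt
      simp at hlt
  set ψ : α → β := fun a => if h : ∃ x ∈ Q, φ x = a then h.choose else q0 with hψ
  have hψφ : ∀ x ∈ Q, ψ (φ x) = x := by
    intro x hx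
    have h1 : ∃ y ∈ Q, φ y = φ x := ⟨x, hx, rfl⟩
    have h2 : ψ (φ x) = h1.choose := by simp only [hψ]; rw [dif_pos h1]
    rw [h2]
    exact hinj _ h1.choose_spec.1 _ hx h1.choose_spec.2
  have hφψ : ∀ a ∈ φ '' Q, ψ a ∈ Q ∧ φ (ψ a) = a := by
    rintro a ⟨x, hx, rfl⟩
    rw [hψφ x hx]
    exact ⟨hx, rfl⟩
  have hch : ∀ F : Finset α, IsCh r' (φ '' Q) F → IsCh r Q (F.image ψ) := by
    intro F hF
    constructor
    · intro x hx
      obtain ⟨a, ha, rfl⟩ := Finset.mem_image.1 hx
      exact (hφψ a (hF.1 a ha)).1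
    · intro x hx y hy hxy
      obtain ⟨a, ha, rfl⟩ := Finset.mem_image.1 hx
      obtain ⟨b, hb, rfl⟩ := Finset.mem_image.1 hy
      have h1 := hφψ a (hF.1 a ha)
      have h2 := hφψ b (hF.1 b hb)
      rw [hrel _ h1.1 _ h2.1, hrel _ h2.1 _ h1.1, h1.2, h2.2]
      exact hF.2 a ha b hb (fun hab => hxy (by rw [hab]))
  have hch' : ∀ F : Finset β, IsCh r Q F → IsCh r' (φ '' Q) (F.image φ) := by
    intro F hF
    constructor
    · intro x hx
      obtain ⟨a, ha, rfl⟩ := Finset.mem_image.1 hx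
      exact ⟨a, hF.1 a ha, rfl⟩
    · intro x hx y hy hxy
      obtain ⟨a, ha, rfl⟩ := Finset.mem_image.1 hx
      obtain ⟨b, hb, rfl⟩ := Finset.mem_image.1 hy
      rw [← hrel _ (hF.1 a ha) _ (hF.1 b hb), ← hrel _ (hF.1 b hb) _ (hF.1 a ha)]
      exact hF.2 a ha b hb (fun hab => hxy (by rw [hab]))
  have him : ∀ F : Finset α, (∀ x ∈ F, x ∈ φ '' Q) → (F.image ψ).image φ = F := by
    intro F hF
    ext a
    simp only [Finset.mem_image, exists_exists_and_eq_and]
    constructor
    · rintro ⟨b, hb, rfl⟩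
      rw [(hφψ b (hF b hb)).2]; exact hb
    · intro ha
      exact ⟨a, ha, (hφψ a (hF a ha)).2⟩
  have him' : ∀ F : Finset β, (∀ x ∈ F, x ∈ Q) → (F.image φ).image ψ = F := by
    intro F hF
    ext a
    simp only [Finset.mem_image, exists_exists_and_eq_and]
    constructor
    · rintro ⟨b, hb, rfl⟩
      rw [hψφ b (hF b hb)]; exact hb
    · intro ha
      exact ⟨a, ha, hψφ a (hF a ha)⟩
  have hcard : ∀ F : Finset α, (∀ x ∈ F, x ∈ φ '' Q) → (F.image ψ).card = F.card := by
    intro F hF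
    apply Finset.card_image_of_injOn
    intro a ha b hb hab
    rw [← (hφψ a (hF a ha)).2, ← (hφψ b (hF b hb)).2, hab]
  have hcard' : ∀ F : Finset β, (∀ x ∈ F, x ∈ Q) → (F.image φ).card = F.card := by
    intro F hF
    apply Finset.card_image_of_injOn
    intro a ha b hb hab
    exact hinj a (hF a ha) b (hF b hb) hab
  have hfc : ∀ F : Finset α, IsFct r' d (φ '' Q) F → IsFct r d Q (F.image ψ) := fun F hF =>
    ⟨hch F hF.1, by rw [hcard F hF.1.1, hF.2]⟩
  have hfc' : ∀ F : Finset β, IsFct r d Q F → IsFct r' d (φ '' Q) (F.image φ) := fun F hF =>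
    ⟨hch' F hF.1, by rw [hcard' F hF.1.1, hF.2]⟩
  refine ⟨hfin.image φ, ?_, fun F => f (F.image ψ), ?_, ?_⟩
  · intro F hF
    obtain ⟨G, hG, hFG⟩ := hext _ (hch F hF)
    refine ⟨G.image φ, hfc' G hG, ?_⟩
    rw [← him F hF.1]
    exact Finset.image_subset_image hFG
  · intro F G hF hG hFG
    have := finj _ _ (hfc F hF) (hfc G hG) hFG
    rw [← him F hF.1.1, ← him G hG.1.1, this]
  · intro F G hF hG hFG
    obtain ⟨H, v, hH, h1, hv, h2, h3⟩ := hf _ _ (hfc F hF) (hfc G hG) hFG
    obtain ⟨a, ha, rfl⟩ := Finset.mem_image.1 hv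
    refine ⟨H.image φ, a, hfc' H hH, ?_, ha, ?_, ?_⟩
    · show f ((H.image φ).image ψ) < _
      rw [him' H hH.1.1]; exact h1
    · intro x hx
      rw [Finset.mem_inter] at hx
      rw [Finset.mem_erase]
      refine ⟨fun hxa => ?_, hx.1⟩
      subst hxa
      have := h2 (Finset.mem_inter.2 ⟨Finset.mem_image_of_mem ψ ha,
        Finset.mem_image_of_mem ψ hx.2⟩)
      simp at this
    · intro x hx
      rw [Finset.mem_erase] at hx
      have h4 : ψ x ∈ (F.image ψ).erase (ψ a) := by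
        rw [Finset.mem_erase]
        refine ⟨fun hxa => hx.1 ?_, Finset.mem_image_of_mem ψ hx.2⟩
        rw [← (hφψ x (hF.1.1 x hx.2)).2, ← (hφψ a (hF.1.1 a ha)).2, hxa]
      have h5 := Finset.mem_image_of_mem φ (h3 h4)
      rw [(hφψ x (hF.1.1 x hx.2)).2] at h5
      exact h5

open Classical in
theorem Sh.of_image {r : β → β → Prop} {r' : α → α → Prop} {Q : Set β} {d : ℕ} (φ : β → α)
    (hinj : ∀ x ∈ Q, ∀ y ∈ Q, φ x = φ y → x = y)
    (hrel : ∀ x ∈ Q, ∀ y ∈ Q, (r x y ↔ r' (φ x) (φ y))) (h : Sh r' d (φ '' Q)) :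
    Sh r d Q := by
  rcases Q.eq_empty_or_nonempty with hQ | ⟨q0, hq0⟩
  · subst hQ
    obtain ⟨-, hext, -⟩ := h
    obtain ⟨G, hG, -⟩ := hext ∅ isCh_empty
    have hG0 : G = ∅ := by
      rw [Finset.eq_empty_iff_forall_notMem]
      intro x hx
      simpa using hG.1.1 x hx
    have hd : d = 0 := by rw [← hG.2, hG0]; rfl
    have hemp : ∀ F, IsCh r (∅ : Set β) F → F = ∅ := by
      intro F hF
      rw [Finset.eq_empty_iff_forall_notMem]
      intro x hx
      exact hF.1 x hx
    refine ⟨by simp, fun F hF => ⟨F, ⟨hF, by rw [hemp F hF, hd]; rfl⟩, subset_rfl⟩,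
      fun _ => 0, fun F G hF hG _ => by rw [hemp F hF.1, hemp G hG.1], ?_⟩
    intro F G _ _ hlt
    simp at hlt
  set ψ : α → β := fun a => if h : ∃ x ∈ Q, φ x = a then h.choose else q0 with hψ
  have hψφ : ∀ x ∈ Q, ψ (φ x) = x := by
    intro x hx
    have h1 : ∃ y ∈ Q, φ y = φ x := ⟨x, hx, rfl⟩
    have h2 : ψ (φ x) = h1.choose := by simp only [hψ]; rw [dif_pos h1]
    rw [h2]
    exact hinj _ h1.choose_spec.1 _ hx h1.choose_spec.2
  have h1 := Sh.image (r := r') (r' := r) (Q := φ '' Q) ψ ?_ ?_ h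
  · have h2 : ψ '' (φ '' Q) = Q := by
      ext x
      constructor
      · rintro ⟨_, ⟨y, hy, rfl⟩, rfl⟩
        rw [hψφ y hy]; exact hy
      · intro hx
        exact ⟨φ x, ⟨x, hx, rfl⟩, hψφ x hx⟩
    rw [h2] at h1
    exact h1
  · rintro _ ⟨x, hx, rfl⟩ _ ⟨y, hy, rfl⟩ hxy
    rw [hψφ x hx, hψφ y hy] at hxy
    rw [hxy]
  · rintro _ ⟨x, hx, rfl⟩ _ ⟨y, hy, rfl⟩
    rw [hψφ x hx, hψφ y hy]
    exact (hrel x hx y hy).symm

end general

lemma patLE_refl (s : FPerm) : PatLE s s := ⟨id, strictMono_id, fun _ _ => Iff.rfl⟩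

lemma finite_le_wd (w : List Bool) : {x : El | x ≤ .wd w}.Finite := by
  have h1 : ((fun n => El.idp n) '' (Set.Iic (lis w))).Finite := (Set.finite_Iic _).image _
  have h2 : ((fun l => El.wd l) '' {l | l ∈ w.sublists}).Finite :=
    (List.finite_toSet w.sublists).image _
  apply (h1.union h2).subset
  intro x hx
  cases x with
  | idp n => exact Or.inl ⟨n, hx, rfl⟩
  | wd l => exact Or.inr ⟨l, by simpa using hx, rfl⟩

lemma finite_Op (P : Set El) (g : El) (w : List Bool) : (Op P g (.wd w)).Finite :=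
  (finite_le_wd w).subset fun _ hx => hx.2.2.le

lemma interior_eq {g : El} (hg : g ∈ PP) {w : List Bool} (hw : NS w) :
    Interior (toP g) (ofWord w) = toP '' Op PP g (.wd w) := by
  have hwP : El.wd w ∈ PP := wd_mem_PP.2 hw
  ext x
  constructor
  · rintro ⟨h1, h2, h3, h4⟩
    obtain ⟨y, hy, rfl⟩ := exists_of_patLE h2
    refine ⟨y, ⟨hy, ?_, ?_⟩, rfl⟩
    · exact lt_of_le_of_ne ((patLE_toP hg hy).1 h1) (fun h => h3 (by rw [h]))
    · exact lt_of_le_of_ne ((patLE_toP hy hwP).1 h2) (fun h => h4 (by rw [h]; rfl))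
  · rintro ⟨y, ⟨hy, h1, h2⟩, rfl⟩
    refine ⟨(patLE_toP hg hy).2 h1.le, (patLE_toP hy hwP).2 h2.le, ?_, ?_⟩
    · intro h; exact h1.ne (toP_injOn hy hg h).symm
    · intro h; exact h2.ne (toP_injOn hy hwP h)

/-- Shellability of the order complex of an interval below a permutation with one descent. -/
theorem shellable_iff {g : El} (hg : g ∈ PP) {w : List Bool} (hw : NS w) :
    Shellable (Delta (toP g) (ofWord w)) ↔
      ∃ d, Sh (fun x y : El => x < y) d (Op PP g (.wd w)) := by
  have hrel : ∀ x ∈ Op PP g (.wd w), ∀ y ∈ Op PP g (.wd w),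
      (x < y ↔ slt PatLE (toP x) (toP y)) := by
    intro x hx y hy
    unfold slt
    rw [patLE_toP hx.1 hy.1, lt_iff_le_and_ne]
    constructor
    · rintro ⟨h1, h2⟩
      exact ⟨h1, fun h => h2 (toP_injOn hx.1 hy.1 h)⟩
    · rintro ⟨h1, h2⟩
      exact ⟨h1, fun h => h2 (by rw [h])⟩
  have hinj : ∀ x ∈ Op PP g (.wd w), ∀ y ∈ Op PP g (.wd w), toP x = toP y → x = y :=
    fun x hx y hy h => toP_injOn hx.1 hy.1 h
  have h0 : Delta (toP g) (ofWord w) = chainCx PatLE (Interior (toP g) (ofWord w)) := rfl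
  rw [h0, shellable_iff_sh patLE_refl (by
    rw [interior_eq hg hw]; exact (finite_Op PP g w).image _), interior_eq hg hw]
  constructor
  · rintro ⟨d, h⟩
    exact ⟨d, h.of_image toP hinj hrel⟩
  · rintro ⟨d, h⟩
    exact ⟨d, h.image toP hinj hrel⟩

/-- The interval `[t, t]`. -/
theorem shellable_self (t : FPerm) : Shellable (Delta t t) := by
  have hP : ∀ x : FPerm, PatLE t x → PatLE x t → x = t := by
    intro x h1 h2
    obtain ⟨n, p⟩ := t
    obtain ⟨m, q⟩ := x
    obtain ⟨f, hf, hf2⟩ := h1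
    obtain ⟨g, hg, -⟩ := h2
    have hnm : n = m := by
      apply le_antisymm
      · simpa using Fintype.card_le_of_injective f hf.injective
      · simpa using Fintype.card_le_of_injective g hg.injective
    subst hnm
    have hid : ∀ i, f i = i := by
      let e : Fin n ≃o Fin n := hf.orderIsoOfSurjective _ (Finite.surjective_of_injective hf.injective)
      have he : e = OrderIso.refl _ := Subsingleton.elim _ _
      intro i
      have h1 : e i = i := by rw [he]; rfl
      exact h1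
    have : q = p := by
      have h3 : q.symm = p.symm := by
        apply perm_ext
        intro u v
        simp only [Equiv.symm_symm]
        have := hf2 u v
        simp only [hid] at this
        exact this.symm
      simpa using congrArg Equiv.symm h3
    rw [this]
  have h0 : Delta t t = chainCx PatLE (Interior t t) := rfl
  have h1 : Interior t t = ∅ := by
    ext x
    simp only [Set.mem_empty_iff_false, iff_false]
    rintro ⟨h1, h2, h3, -⟩
    exact h3 (hP x h1 h2)
  rw [h0, h1, shellable_iff_sh patLE_refl (by simp)]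
  refine ⟨0, by simp, ?_, fun _ => 0, ?_, ?_⟩
  · intro F hF
    refine ⟨F, ⟨hF, ?_⟩, subset_rfl⟩
    rw [Finset.card_eq_zero, Finset.eq_empty_iff_forall_notMem]
    intro x hx
    exact hF.1 x hx
  · intro F G hF hG _
    rw [Finset.card_eq_zero.1 hF.2, Finset.card_eq_zero.1 hG.2]
  · intro F G _ _ h
    simp at h

end Pool.Agent.W_58cc_h2
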