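import Pool.Agent.W_58cc_h2.Sub

/-!
# Words not starting with `11`, top starting with `10` (paper proof, section 3)
-/

namespace H58

open El

theorem CC10_wd_above {s : List Bool} {e : El} (h : wd s < e) : ∃ l, e = wd l := by
  cases e with
  | idp n => exact absurd h (by simp)
  | wd l => exact ⟨l, rfl⟩

theorem CC10_f {b : Bool} {s l : List Bool} (h : (b :: s).Sublist ((!b) :: l)) :
    (b :: s).Sublist l := by
  rcases List.sublist_cons_iff.1 h with h | ⟨r, hr, _⟩
  · exact h
  · simp at hr

/-- the words starting with `10` above `v`, described by the word `m`. -/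
theorem CC10_part (v m h2 : List Bool) (hm : m.Sublist h2)
    (hv : ∀ u : List Bool, v.Sublist (true :: false :: u) ↔ m.Sublist u)
    (hne : ∀ u : List Bool, v ≠ true :: false :: u) (hl : v.length = m.length + 1) :
    ShI {e | ∃ u, e = wd (true :: false :: u)} (wd v) (wd (true :: false :: h2)) := by
  have h1 := sh_pre_HO [true, false] m h2 (sub_HO m h2 hm)
  have e : Op {e | ∃ u, e = wd (true :: false :: u)} (wd v) (wd (true :: false :: h2)) =
      {e : El | ∃ u, e = wd ([true, false] ++ u) ∧ m.Sublist u ∧ u.Sublist h2 ∧ u ≠ h2} := by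
    ext e
    constructor
    · rintro ⟨⟨u, rfl⟩, h3, h4⟩
      rw [lt_wd_wd] at h3 h4
      refine ⟨u, rfl, (hv u).1 h3.1, ?_, ?_⟩
      · exact List.cons_sublist_cons.1 (List.cons_sublist_cons.1 h4.1)
      · exact fun h => h4.2 (by rw [h])
    · rintro ⟨u, rfl, h3, h4, h5⟩
      refine ⟨⟨u, rfl⟩, ?_, ?_⟩
      · rw [lt_wd_wd]
        exact ⟨(hv u).2 h3, hne u⟩
      · rw [lt_wd_wd]
        refine ⟨(h4.cons_cons _).cons_cons _, fun h => h5 ?_⟩
        exact (List.cons.inj (List.cons.inj h).2).2
  unfold ShI
  rw [e, show rk (wd (true :: false :: h2)) - rk (wd v) - 1 = h2.length - m.length by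
    simp only [rk_wd, List.length_cons, hl]; omega]
  exact h1

/-- the part of the words starting with `10` above `0t`. -/
theorem CC10_zero (t h2 : List Bool) (h : wd (false :: t) < wd (true :: false :: h2)) :
    ShI {e | ∃ u, e = wd (true :: false :: u)} (wd (false :: t)) (wd (true :: false :: h2)) := by
  have hv : ∀ u : List Bool, (false :: t).Sublist (true :: false :: u) ↔ t.Sublist u := by
    intro u
    constructor
    · intro h3
      exact List.cons_sublist_cons.1 (CC10_f (b := false) h3)
    · intro h3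
      exact (h3.cons_cons _).cons _
  exact CC10_part _ t h2 ((hv h2).1 ((lt_wd_wd _ _).1 h).1) hv (fun u hu => by simp at hu)
    (by simp)

/-- top `10h2` (step of the induction). `A` = `PC` and starts with `10`; outside `A`: `x = 0t`;
the only cover of `x` in `A ∪ {h}` is `10t`; `hE`: `z = 0t'`: `y = 10t'`; `z` starting with `1`:
`z = t = 1z1` by lengths, `y = 10z1`. Lower part by `ih`; upper part
`{10u : t ≤ u < h2}` (`0t <+ 10u ↔ t <+ u`). `Op A g h`: if `g1 = 0g2` a copy of `(g2, h2)`;
if `g1` does not start with `0` a copy of `HO g1 h2` (`1g1 <+ 10u ↔ g1 <+ u`). -/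
theorem cc_step10 (g1 h2 : List Bool) (hgh : wd (true :: g1) < wd (true :: false :: h2))
    (ih : ∀ x : List Bool, x.length < h2.length + 2 → wd (true :: g1) < wd x → wd x ∈ PC →
      ShI PC (wd (true :: g1)) (wd x)) :
    ShI PC (wd (true :: g1)) (wd (true :: false :: h2)) := by
  have hout : ∀ x ∈ PC, wd (true :: g1) < x → x ∉ {e | ∃ u, e = wd (true :: false :: u)} →
      ∃ t, x = wd (false :: t) := by
    intro x hx hgx hxA
    obtain ⟨v, rfl⟩ := CC10_wd_above hgx
    match v, hx, hgx, hxA with
    | [], _, hgx, _ =>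
      have := ((lt_wd_wd_len _ _).1 hgx).2
      simp at this
    | false :: t, _, _, _ => exact ⟨t, rfl⟩
    | [true], _, hgx, _ =>
      have := ((lt_wd_wd_len _ _).1 hgx).2
      simp at this
    | true :: true :: t, hx, _, _ => exact absurd rfl (hx t)
    | true :: false :: u, _, _, hxA => exact absurd ⟨u, rfl⟩ hxA
  apply sh_up PC {e | ∃ u, e = wd (true :: false :: u)} (wd (true :: g1))
    (wd (true :: false :: h2)) hgh (Or.inl ⟨_, rfl⟩)
  · rintro x ⟨u, rfl⟩ t h
    have := El.wd.inj h
    simp at this
  · by_cases hg : ∃ g2, g1 = false :: g2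
    · obtain ⟨g2, rfl⟩ := hg
      have hlt : wd g2 < wd h2 := by
        rw [lt_wd_wd] at hgh ⊢
        refine ⟨List.cons_sublist_cons.1 (List.cons_sublist_cons.1 hgh.1), ?_⟩
        exact fun h => hgh.2 (by rw [h])
      have h1 := sh_pre_Op [true, false] g2 h2 (sub_shI g2 h2 hlt)
      have e : Op {e | ∃ u, e = wd (true :: false :: u)} (wd (true :: false :: g2))
          (wd (true :: false :: h2)) =
          {e : El | ∃ u, e = wd ([true, false] ++ u) ∧ g2.Sublist u ∧ u.Sublist h2 ∧ u ≠ h2 ∧
            u ≠ g2} := by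
        ext e
        constructor
        · rintro ⟨⟨u, rfl⟩, h3, h4⟩
          rw [lt_wd_wd] at h3 h4
          refine ⟨u, rfl, ?_, ?_, ?_, ?_⟩
          · exact List.cons_sublist_cons.1 (List.cons_sublist_cons.1 h3.1)
          · exact List.cons_sublist_cons.1 (List.cons_sublist_cons.1 h4.1)
          · exact fun h => h4.2 (by rw [h])
          · exact fun h => h3.2 (by rw [h])
        · rintro ⟨u, rfl, h3, h4, h5, h6⟩
          refine ⟨⟨u, rfl⟩, ?_, ?_⟩
          · rw [lt_wd_wd]
            refine ⟨(h3.cons_cons _).cons_cons _, fun h => h6 ?_⟩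
            exact (List.cons.inj (List.cons.inj h).2).2.symm
          · rw [lt_wd_wd]
            refine ⟨(h4.cons_cons _).cons_cons _, fun h => h5 ?_⟩
            exact (List.cons.inj (List.cons.inj h).2).2
      unfold ShI
      rw [e, show rk (wd (true :: false :: h2)) - rk (wd (true :: false :: g2)) - 1 =
        rk (wd h2) - rk (wd g2) - 1 by simp only [rk_wd, List.length_cons]; omega]
      exact h1
    · push Not at hg
      have hv : ∀ u : List Bool, (true :: g1).Sublist (true :: false :: u) ↔ g1.Sublist u := by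
        intro u
        rw [List.cons_sublist_cons]
        exact Sub_cons hg
      refine CC10_part _ g1 h2 ((hv h2).1 ((lt_wd_wd _ _).1 hgh).1) hv ?_ (by simp)
      intro u hu
      exact hg u (List.cons.inj hu).2
  · intro x hx hgx hxh _
    obtain ⟨v, rfl⟩ := CC10_wd_above hgx
    refine ih v ?_ hgx hx
    exact ((lt_wd_wd_len _ _).1 hxh).2
  · intro x hx hgx hxh hxA
    obtain ⟨t, rfl⟩ := hout x hx hgx hxA
    exact CC10_zero t h2 hxh
  · intro x hx hgx hxh hxA z a hz hgz hzx hrz ha hxa hah hra
    obtain ⟨t, rfl⟩ := hout x hx hgx hxA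
    have hz2 : ∃ z', z = wd z' := by
      cases z with
      | idp n => exact absurd hgz (by simp)
      | wd z' => exact ⟨z', rfl⟩
    obtain ⟨z', rfl⟩ := hz2
    obtain ⟨u, rfl⟩ : ∃ u, a = wd (true :: false :: u) := by
      rcases ha with ha | ha
      · exact ⟨h2, ha⟩
      · exact ha
    have h3 : t.Sublist u :=
      List.cons_sublist_cons.1 (CC10_f (b := false) ((lt_wd_wd _ _).1 hxa).1)
    have h4 : t = u := h3.eq_of_length (by simp at hra ⊢; omega)
    subst h4
    have hs := (lt_wd_wd_len _ _).1 hzx
    have hzl : t.length + 1 = z'.length + 1 := by simpa using hrz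
    have hg' : (true :: g1).Sublist z' := hgz
    match z', hs, hzl, hg' with
    | [], _, _, hg' => simp at hg'
    | false :: t', hs, hzl, _ =>
      have h5 : t'.Sublist t := List.cons_sublist_cons.1 hs.1
      refine ⟨wd (true :: false :: t'), ⟨t', rfl⟩, ?_, ?_⟩
      · rw [lt_wd_wd_len]
        exact ⟨List.sublist_cons_self _ _, by simp⟩
      · rw [lt_wd_wd_len]
        refine ⟨(h5.cons_cons _).cons_cons _, ?_⟩
        simp at hzl ⊢
        omega
    | true :: z1, hs, hzl, _ =>
      have h5 : (true :: z1).Sublist t := CC10_f (b := true) hs.1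
      have h6 : true :: z1 = t := h5.eq_of_length (by omega)
      subst h6
      refine ⟨wd (true :: false :: z1), ⟨z1, rfl⟩, ?_, ?_⟩
      · rw [lt_wd_wd_len]
        exact ⟨(List.sublist_cons_self _ _).cons_cons _, by simp⟩
      · rw [lt_wd_wd_len]
        exact ⟨((List.sublist_cons_self _ _).cons_cons _).cons_cons _, by simp⟩

end H58
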