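import Pool.Agent.W_58cc_h2.CC0
import Pool.Agent.W_58cc_h2.CC10

/-!
# Words not starting with `11` above a word starting with `1` (paper proof, section 3)
-/

namespace H58

open El

/-- **(C)**, strong induction on `h.length` with the two steps. -/
theorem cc_shI (g1 h : List Bool) (hgh : wd (true :: g1) < wd h) (hh : wd h ∈ PC) :
    ShI PC (wd (true :: g1)) (wd h) := by
  induction hn : h.length using Nat.strong_induction_on generalizing h with
  | _ n ih =>
    match h, hgh, hh, hn with
    | [], hgh, _, _ =>
      have := ((lt_wd_wd_len _ _).1 hgh).2
      simp at this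
    | [true], hgh, _, _ =>
      have := ((lt_wd_wd_len _ _).1 hgh).2
      simp at this
    | true :: true :: t, _, hh, _ => exact absurd rfl (hh t)
    | false :: h', hgh, _, hn =>
      apply cc_step0 g1 h' hgh
      intro x hx hgx hxC
      exact ih x.length (by rw [← hn]; exact hx) x hgx hxC rfl
    | true :: false :: h2, hgh, _, hn =>
      apply cc_step10 g1 h2 hgh
      intro x hx hgx hxC
      exact ih x.length (by rw [← hn]; exact hx) x hgx hxC rfl

end H58
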