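import Pool.Agent.W_58cc_h2.Sub

/-!
# Words not starting with `11`, top starting with `0` (paper proof, section 3)
-/

namespace H58

open El

theorem CC0_wd_above {s : List Bool} {e : El} (h : wd s < e) : ∃ l, e = wd l := by
  cases e with
  | idp n => exact absurd h (by simp)
  | wd l => exact ⟨l, rfl⟩

/-- top `0h'` (step of the induction). `A` = `PC` and starts with `0`; `Op A g h = 0 HO(g, h')`;
outside `A`: `x = 10v'` with `x <+ h'`; the only cover of `x` in `A ∪ {h}` is `0x`;
`hE`: `z = 1..` (it is `g` or a `10`-word): `y = 0z`; `z = 0s`: `s = v'` by lengths, `y = 00v'`.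
Lower part by `ih`, upper part `0 HO(x, h')`. -/
theorem cc_step0 (g1 h' : List Bool) (hgh : wd (true :: g1) < wd (false :: h'))
    (ih : ∀ x : List Bool, x.length < h'.length + 1 → wd (true :: g1) < wd x → wd x ∈ PC →
      ShI PC (wd (true :: g1)) (wd x)) :
    ShI PC (wd (true :: g1)) (wd (false :: h')) := by
  have key : ∀ v : List Bool, (∀ t, v ≠ false :: t) → wd v < wd (false :: h') →
      ShI {e | ∃ u, e = wd (false :: u)} (wd v) (wd (false :: h')) := by
    intro v hv hvw
    exact Sub_part hv (sub_HO v h' ((Sub_cons hv).1 ((lt_wd_wd _ _).1 hvw).1))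
  apply sh_up PC {e | ∃ u, e = wd (false :: u)} (wd (true :: g1)) (wd (false :: h')) hgh
    (Or.inl ⟨_, rfl⟩)
  · rintro x ⟨u, rfl⟩ t h
    have := El.wd.inj h
    simp at this
  · exact key (true :: g1) (fun t ht => by simp at ht) hgh
  · intro x hx hgx hxh _
    obtain ⟨v, rfl⟩ := CC0_wd_above hgx
    refine ih v ?_ hgx hx
    have := ((lt_wd_wd_len _ _).1 hxh).2
    simpa using this
  · intro x hx hgx hxh hxA
    obtain ⟨v, rfl⟩ := CC0_wd_above hgx
    exact key v (fun t ht => hxA ⟨t, by rw [ht]⟩) hxh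
  · intro x hx hgx hxh hxA z a hz hgz hzx hrz ha hxa hah hra
    obtain ⟨v, rfl⟩ := CC0_wd_above hgx
    have hv : ∀ t, v ≠ false :: t := fun t ht => hxA ⟨t, by rw [ht]⟩
    have hz2 : ∃ z', z = wd z' := by
      cases z with
      | idp n => exact absurd hgz (by simp)
      | wd z' => exact ⟨z', rfl⟩
    obtain ⟨z', rfl⟩ := hz2
    obtain ⟨l', rfl⟩ : ∃ l', a = wd (false :: l') := by
      rcases ha with ha | ha
      · exact ⟨h', ha⟩
      · exact ha
    have h3 : v.Sublist l' := (Sub_cons hv).1 ((lt_wd_wd _ _).1 hxa).1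
    have h4 : v = l' := h3.eq_of_length (by simp at hra ⊢; omega)
    subst h4
    have hs := (lt_wd_wd _ _).1 hzx
    refine ⟨wd (false :: z'), ⟨z', rfl⟩, ?_, ?_⟩
    · rw [lt_wd_wd_len]
      exact ⟨List.sublist_cons_self _ _, by simp⟩
    · rw [lt_wd_wd]
      exact ⟨hs.1.cons_cons _, fun h => hs.2 (List.cons.inj h).2⟩

end H58
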