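import Pool.Agent.W_58cc_h2.El

/-!
# The words below `1^r 00` (paper proof, section 4 (4))
-/

namespace H58

open El

/-- words `u ∈ F` below `1^r 00` -/
theorem below_core (r : ℕ) (u : List Bool) (hu : Fw u)
    (h : u.Sublist (List.replicate r true ++ [false, false])) :
    ∃ i, 1 ≤ i ∧ i ≤ r ∧ (u = List.replicate i true ++ [false] ∨
      u = List.replicate i true ++ [false, false]) := by
  have h2 : ([false, false] : List Bool) = List.replicate 2 false := rfl
  rw [h2, List.sublist_append_iff] at h
  obtain ⟨u1, u2, rfl, h3, h4⟩ := h
  obtain ⟨i, hi, rfl⟩ := List.sublist_replicate_iff.1 h3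
  obtain ⟨j, hj, rfl⟩ := List.sublist_replicate_iff.1 h4
  have h5 : true ∈ List.replicate i true ++ List.replicate j false := hu.subset (by simp)
  have h6 : false ∈ List.replicate i true ++ List.replicate j false := hu.subset (by simp)
  have h7 : i ≠ 0 := by
    rintro rfl
    simp at h5
  have h8 : j ≠ 0 := by
    rintro rfl
    simp at h6
  refine ⟨i, by omega, hi, ?_⟩
  obtain rfl | rfl : j = 1 ∨ j = 2 := by omega
  · left; rfl
  · right; rfl

private theorem CoreB_count (i : ℕ) (t : List Bool) (ht : t.count true = 0) :
    (List.replicate i true ++ t).count true = i := by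
  rw [List.count_append, ht, List.count_replicate_self, add_zero]

private theorem CoreB_lis (i : ℕ) (t : List Bool) (ht : t.count true = 0) :
    lis (List.replicate i true ++ t) = max (lis t) i := by
  induction i with
  | zero => simp
  | succ i ih =>
    rw [List.replicate_succ, List.cons_append, lis_true, ih, CoreB_count i t ht]
    omega

/-- for `j ≥ 2`: a word `u ∈ F`, `u ≠ 100`, below `1^r 00` is above `idp j` iff it is above
`1^j 0`. -/
theorem core_key (r j : ℕ) (hj : 2 ≤ j) (u : List Bool) (hu : Fw u)
    (h : u.Sublist (List.replicate r true ++ [false, false])) (hne : u ≠ [true, false, false]) :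
    j ≤ lis u ↔ (List.replicate j true ++ [false]).Sublist u := by
  obtain ⟨i, hi, _, rfl | rfl⟩ := below_core r u hu h
  · rw [CoreB_lis i _ (by simp)]
    constructor
    · intro h1
      have h2 : j ≤ i := by
        simp only [lis_false, lis_nil] at h1
        omega
      exact (List.replicate_sublist_replicate true |>.2 h2).append (List.Sublist.refl _)
    · intro h1
      have h2 := h1.count_le true
      rw [CoreB_count j _ (by simp), CoreB_count i _ (by simp)] at h2
      omega
  · have h3 : i ≠ 1 := by
      rintro rfl
      exact hne rfl
    rw [CoreB_lis i _ (by simp)]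
    constructor
    · intro h1
      have h2 : j ≤ i := by
        simp only [lis_false, lis_nil] at h1
        omega
      exact (List.replicate_sublist_replicate true |>.2 h2).append (by simp)
    · intro h1
      have h2 := h1.count_le true
      rw [CoreB_count j _ (by simp), CoreB_count i _ (by simp)] at h2
      omega

end H58
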