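import Pool.Agent.W_58cc_h2.CoreA
import Pool.Agent.W_58cc_h2.CoreB

/-!
# The core words `1^r 00` (paper proof, section 4 (4))
-/

namespace H58

open El

/-- `PP` without `100`. -/
def PQ : Set El := {e | e ∈ PP ∧ e ≠ wd [true, false, false]}

/-- words of `PQ` -/
def PQw : Set El := {e | e ∈ PQ ∧ ∃ l, e = wd l}

theorem Core_count (i : ℕ) (t : List Bool) (ht : t.count true = 0) :
    (List.replicate i true ++ t).count true = i := by
  rw [List.count_append, ht, List.count_replicate_self, add_zero]

theorem Core_lis (i : ℕ) (t : List Bool) (ht : t.count true = 0) :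
    lis (List.replicate i true ++ t) = max (lis t) i := by
  induction i with
  | zero => simp
  | succ i ih =>
    rw [List.replicate_succ, List.cons_append, lis_true, ih, Core_count i t ht]
    omega

theorem Core_lis_w (r : ℕ) : lis (List.replicate r true ++ [false, false]) = max 2 r := by
  rw [Core_lis r _ (by simp)]
  rfl

theorem Core_Fw (j : ℕ) (hj : 1 ≤ j) : Fw (List.replicate j true ++ [false]) := by
  obtain ⟨i, rfl⟩ : ∃ i, j = i + 1 := ⟨j - 1, by omega⟩
  unfold Fw
  rw [List.replicate_succ, List.cons_append]
  exact (List.sublist_append_right _ _).cons_cons _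

theorem Core_sub (j r : ℕ) (h : j ≤ r) :
    (List.replicate j true ++ [false]).Sublist (List.replicate r true ++ [false, false]) :=
  (List.replicate_sublist_replicate true |>.2 h).append (by simp)

theorem Core_Fw_w (r : ℕ) (hr : 1 ≤ r) : Fw (List.replicate r true ++ [false, false]) :=
  List.Sublist.trans (Core_Fw r hr) (Core_sub r r le_rfl)

theorem Core_PQw (r j : ℕ) (hj : 2 ≤ j) (hjr : j ≤ r) :
    ShI PQw (idp j) (wd (List.replicate r true ++ [false, false])) := by
  have h1 := sub_HO _ _ (Core_sub j r hjr)
  have e : Op PQw (idp j) (wd (List.replicate r true ++ [false, false])) =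
      HO (List.replicate j true ++ [false]) (List.replicate r true ++ [false, false]) := by
    ext x
    constructor
    · rintro ⟨⟨⟨hx1, hx2⟩, ⟨u, rfl⟩⟩, h2, h3⟩
      rw [lt_wd_wd] at h3
      refine ⟨u, rfl, ?_, h3.1, h3.2⟩
      apply (core_key r j hj u ((wd_mem_PP u).1 hx1) h3.1 _).1 ((lt_id_wd _ _).1 h2)
      exact fun h => hx2 (by rw [h])
    · rintro ⟨u, rfl, h2, h3, h4⟩
      have hF : Fw u := List.Sublist.trans (Core_Fw j (by omega)) h2
      have hne : u ≠ [true, false, false] := by
        rintro rfl
        have h5 := h2.count_le true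
        rw [Core_count j _ (by simp)] at h5
        simp at h5
        omega
      refine ⟨⟨⟨(wd_mem_PP u).2 hF, fun h => hne (El.wd.inj h)⟩, ⟨u, rfl⟩⟩, ?_, ?_⟩
      · rw [lt_id_wd]
        exact (core_key r j hj u hF h3 hne).2 h2
      · rw [lt_wd_wd]
        exact ⟨h3, h4⟩
  unfold ShI
  rw [e, show rk (wd (List.replicate r true ++ [false, false])) - rk (idp j) - 1 =
    (List.replicate r true ++ [false, false]).length - (List.replicate j true ++ [false]).length by
      simp only [rk_wd, rk_id, List.length_append, List.length_replicate, List.length_cons,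
        List.length_nil]
      omega]
  exact h1

theorem Core_ids (P : Set El) (hP : ∀ n, idp n ∈ P) (k j : ℕ) : ShI P (idp k) (idp j) := by
  have e : Op P (idp k) (idp j) = {x : El | ∃ n, x = idp n ∧ k < n ∧ n < j} := by
    ext x
    constructor
    · rintro ⟨_, h2, h3⟩
      cases x with
      | idp n => exact ⟨n, rfl, (lt_id_id _ _).1 h2, (lt_id_id _ _).1 h3⟩
      | wd l => exact absurd h3 (by simp)
    · rintro ⟨n, rfl, h2, h3⟩
      exact ⟨hP n, (lt_id_id _ _).2 h2, (lt_id_id _ _).2 h3⟩
  unfold ShI
  rw [e]
  exact sh_idchain k j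

theorem Core_idp_PQ (n : ℕ) : idp n ∈ PQ := ⟨idp_mem_PP n, fun h => by cases h⟩

/-- `sh_up` with `P = PQ`, `A = PQw`: outside `A` are `idp j`, `k < j ≤ r`; lower part a chain of
identities (`sh_idchain`), upper part `HO (1^j 0) w`, `A` part `HO (1^k 0) w`; `hE`:
`z = idp (j-1)`, `a = 1^j 0`, `y = 1^(j-1) 0`. -/
theorem core_PQ (r k : ℕ) (hk : 2 ≤ k) (hkr : k ≤ r) :
    ShI PQ (idp k) (wd (List.replicate r true ++ [false, false])) := by
  have hg : idp k < wd (List.replicate r true ++ [false, false]) := by
    rw [lt_id_wd, Core_lis_w]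
    omega
  have hout : ∀ x ∈ PQ, idp k < x → x < wd (List.replicate r true ++ [false, false]) → x ∉ PQw →
      ∃ j, x = idp j ∧ k < j ∧ j ≤ r := by
    intro x hx hgx hxh hxA
    cases x with
    | idp j =>
      refine ⟨j, rfl, (lt_id_id _ _).1 hgx, ?_⟩
      rw [lt_id_wd, Core_lis_w] at hxh
      have := (lt_id_id _ _).1 hgx
      omega
    | wd l => exact absurd ⟨hx, ⟨l, rfl⟩⟩ hxA
  apply sh_up PQ PQw (idp k) (wd (List.replicate r true ++ [false, false])) hg
    (Or.inr ⟨fun x hx => hx.1, (wd_mem_PP _).2 (Core_Fw_w r (by omega))⟩) (fun x hx => hx.1)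
    (Core_PQw r k hk hkr)
  · intro x hx hgx hxh hxA
    obtain ⟨j, rfl, _, _⟩ := hout x hx hgx hxh hxA
    exact Core_ids PQ Core_idp_PQ k j
  · intro x hx hgx hxh hxA
    obtain ⟨j, rfl, hkj, hjr⟩ := hout x hx hgx hxh hxA
    exact Core_PQw r j (by omega) hjr
  · intro x hx hgx hxh hxA z a hz hgz hzx hrz ha hxa hah hra
    obtain ⟨j, rfl, hkj, hjr⟩ := hout x hx hgx hxh hxA
    obtain ⟨n, rfl⟩ : ∃ n, z = idp n := by
      cases z with
      | idp n => exact ⟨n, rfl⟩
      | wd s => exact absurd hzx (by simp)
    have hkn : k ≤ n := (le_id_id _ _).1 hgz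
    have hjn : j = n + 1 := by simpa using hrz
    subst hjn
    obtain ⟨l, rfl, hlF, hlw, hl1⟩ : ∃ l, a = wd l ∧ Fw l ∧
        l.Sublist (List.replicate r true ++ [false, false]) ∧ l ≠ [true, false, false] := by
      rcases ha with ha | ha
      · refine ⟨_, ha, Core_Fw_w r (by omega), List.Sublist.refl _, ?_⟩
        intro h
        have := congrArg List.length h
        simp at this
        omega
      · obtain ⟨l, rfl⟩ := ha.2
        exact ⟨l, rfl, (wd_mem_PP l).1 ha.1.1, hah, fun h => ha.1.2 (by rw [h])⟩
    have h3 := (core_key r (n + 1) (by omega) l hlF hlw hl1).1 ((lt_id_wd _ _).1 hxa)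
    have h4 : List.replicate (n + 1) true ++ [false] = l := by
      apply h3.eq_of_length
      simp at hra ⊢
      omega
    subst h4
    refine ⟨wd (List.replicate n true ++ [false]), ⟨⟨(wd_mem_PP _).2 (Core_Fw n (by omega)), ?_⟩,
      ⟨_, rfl⟩⟩, ?_, ?_⟩
    · intro h
      have h5 := congrArg (List.count true) (El.wd.inj h)
      rw [Core_count n _ (by simp)] at h5
      simp at h5
      omega
    · rw [lt_id_wd, Core_lis n _ (by simp)]
      omega
    · rw [lt_wd_wd_len]
      refine ⟨(List.replicate_sublist_replicate true |>.2 (by omega)).append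
        (List.Sublist.refl _), by simp⟩

theorem Core_wd_above {s : List Bool} {e : El} (h : wd s < e) : ∃ l, e = wd l := by
  cases e with
  | idp n => exact absurd h (by simp)
  | wd l => exact ⟨l, rfl⟩

/-- **(4)** `k ≥ 3`: `PQ` and `PP` give the same open interval. `k = 2`: `sh_up` with `P = PP`,
`A = PQ`, outside `x = 100`, `z = idp 2`, `a = 1100`, `y = 110`. -/
theorem core (r k : ℕ) (hk : 2 ≤ k) (hkr : k ≤ r) :
    T k (List.replicate r true ++ [false, false]) := by
  have hl100 : lis [true, false, false] = 2 := rfl
  by_cases hk3 : 3 ≤ k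
  · have h1 := core_PQ r k hk hkr
    have e : Op PQ (idp k) (wd (List.replicate r true ++ [false, false])) =
        Op PP (idp k) (wd (List.replicate r true ++ [false, false])) := by
      ext x
      constructor
      · rintro ⟨h2, h3, h4⟩
        exact ⟨h2.1, h3, h4⟩
      · rintro ⟨h2, h3, h4⟩
        refine ⟨⟨h2, ?_⟩, h3, h4⟩
        rintro rfl
        rw [lt_id_wd, hl100] at h3
        omega
    unfold T ShI
    unfold ShI at h1
    rw [← e]
    exact h1
  · obtain rfl : k = 2 := by omega
    have hg : idp 2 < wd (List.replicate r true ++ [false, false]) := by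
      rw [lt_id_wd, Core_lis_w]
      omega
    have hout : ∀ x ∈ PP, x ∉ PQ → x = wd [true, false, false] := by
      intro x hx hxA
      by_contra hcon
      exact hxA ⟨hx, hcon⟩
    apply sh_up PP PQ (idp 2) (wd (List.replicate r true ++ [false, false])) hg
      (Or.inr ⟨fun x hx => hx, (wd_mem_PP _).2 (Core_Fw_w r (by omega))⟩) (fun x hx => hx.1)
      (core_PQ r 2 le_rfl hkr)
    · intro x hx hgx hxh hxA
      rw [hout x hx hxA]
      have e : Op PP (idp 2) (wd [true, false, false]) = ∅ := by
        ext y
        simp only [Set.mem_empty_iff_false, iff_false]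
        rintro ⟨h2, h3, h4⟩
        cases y with
        | idp n =>
          rw [lt_id_id] at h3
          rw [lt_id_wd, hl100] at h4
          omega
        | wd l =>
          rw [lt_id_wd] at h3
          have h5 := ((lt_wd_wd_len _ _).1 h4).2
          have h6 := lis_lt_length ((wd_mem_PP l).1 h2)
          simp at h5
          omega
      unfold ShI
      rw [e]
      exact sh_empty _
    · intro x hx hgx hxh hxA
      rw [hout x hx hxA] at hxh ⊢
      apply sub_shI_of PQ _ _ hxh
      intro u h2 h3 h4 h5
      refine ⟨(wd_mem_PP u).2 ?_, fun h => h4 (El.wd.inj h)⟩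
      unfold Fw
      exact List.Sublist.trans (by decide) h2
    · intro x hx hgx hxh hxA z a hz hgz hzx hrz ha hxa hah hra
      rw [hout x hx hxA] at hgx hxh hzx hrz hxa hra
      have hzP : z ∈ PP := by
        rcases hz with hz | hz
        · rw [hz]; exact idp_mem_PP _
        · exact hz
      have hz2 : z = idp 2 := by
        cases z with
        | idp n =>
          simp at hrz
          rw [← hrz]
        | wd s =>
          exfalso
          have h5 := lis_lt_length ((wd_mem_PP s).1 hzP)
          have h6 := (le_id_wd _ _).1 hgz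
          simp at hrz
          omega
      subst hz2
      obtain ⟨l, rfl⟩ := Core_wd_above hxa
      have hsub : [true, false, false].Sublist l := hxa.le
      have hF : Fw l := by
        unfold Fw
        exact List.Sublist.trans (by decide) hsub
      have hlw : l.Sublist (List.replicate r true ++ [false, false]) := hah
      have hcf : 2 ≤ l.count false := by
        have := hsub.count_le false
        simpa using this
      obtain ⟨i, hi1, hir, h7 | h7⟩ := below_core r l hF hlw
      · exfalso
        rw [h7, List.count_append, List.count_replicate] at hcf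
        simp at hcf
      · have hi : i = 2 := by
          rw [h7] at hra
          simp at hra
          omega
        subst hi
        have h8 : l = [true, true, false, false] := h7
        subst h8
        refine ⟨wd [true, true, false], ⟨?_, ?_⟩, ?_, ?_⟩
        · rw [wd_mem_PP]
          unfold Fw
          decide
        · intro h
          have := El.wd.inj h
          simp at this
        · rw [lt_id_wd]
          decide
        · rw [lt_wd_wd]
          decide

end H58
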