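import Pool.Agent.W_58cc_h2.Sub

/-!
# Small `k` (paper proof, section 4 (3))
-/

namespace H58

open El

theorem CoreA_lis1 {l : List Bool} (h : Fw l) : 1 ≤ lis l := by
  have h1 := lis_mono h
  simpa using h1

theorem CoreA_len {l : List Bool} (h : Fw l) : 2 ≤ l.length := by
  have h1 : ([true, false] : List Bool).length ≤ l.length := h.length_le
  simpa using h1

theorem CoreA_lis_allfalse (z : List Bool) (h : z.count true = 0) : lis z = z.length := by
  induction z with
  | nil => simp
  | cons b z ih =>
    cases b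
    · rw [List.count_cons_of_ne (by simp)] at h
      simp [ih h]
    · simp at h

theorem CoreA_lis2 {l : List Bool} (h : Fw l) (hne : l ≠ [true, false]) : 2 ≤ lis l := by
  cases l with
  | nil => exact absurd h (by simp [Fw])
  | cons b z =>
    cases b
    · have h1 : Fw z := by
        unfold Fw at h ⊢
        cases h with
        | cons _ h1 => exact h1
      have h2 := CoreA_lis1 h1
      rw [lis_false]
      omega
    · have h1 : false ∈ z := by
        unfold Fw at h
        cases h with
        | cons _ h1 => exact h1.subset (by simp)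
        | cons_cons _ h1 => exact h1.subset (by simp)
      rw [lis_true]
      by_cases hc : z.count true = 0
      · have h2 := CoreA_lis_allfalse z hc
        have h3 : z.length ≠ 1 := by
          intro h4
          obtain ⟨c, rfl⟩ := List.length_eq_one_iff.1 h4
          simp only [List.mem_singleton] at h1
          subst h1
          exact hne rfl
        have h4 : z.length ≠ 0 := by
          intro h5
          rw [List.length_eq_zero_iff.1 h5] at h1
          simp at h1
        omega
      · omega

/-- `T_0 ⇐ T_1`: cone with apex `idp 1`. -/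
theorem red_zero (w : List Bool) (hF : Fw w) (h : T 1 w) : T 0 w := by
  have hl := CoreA_lis1 hF
  have hlen := CoreA_len hF
  have e : Op PP (idp 0) (wd w) = insert (idp 1) (Op PP (idp 1) (wd w)) := by
    ext x
    constructor
    · rintro ⟨h1, h2, h3⟩
      cases x with
      | idp n =>
        rw [lt_id_id] at h2
        by_cases hn : n = 1
        · exact Or.inl (by rw [hn])
        · exact Or.inr ⟨h1, by rw [lt_id_id]; omega, h3⟩
      | wd u =>
        exact Or.inr ⟨h1, (lt_id_wd 1 u).2 (CoreA_lis1 ((wd_mem_PP u).1 h1)), h3⟩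
    · rintro (rfl | ⟨h1, h2, h3⟩)
      · exact ⟨idp_mem_PP 1, (lt_id_id 0 1).2 (by norm_num), (lt_id_wd 1 w).2 hl⟩
      · exact ⟨h1, lt_trans ((lt_id_id 0 1).2 (by norm_num)) h2, h3⟩
  unfold T ShI
  rw [e, show rk (wd w) - rk (idp 0) - 1 = rk (wd w) - rk (idp 1) - 1 + 1 by
    simp only [rk_wd, rk_id]; omega]
  exact sh_cone (idp 1) (fun h1 => lt_irrefl _ h1.2.1) (fun q hq => Or.inl hq.2.1) h

theorem t1_ten : T 1 [true, false] := by
  have e : Op PP (idp 1) (wd [true, false]) = ∅ := by
    ext x
    simp only [Set.mem_empty_iff_false, iff_false]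
    rintro ⟨h1, h2, h3⟩
    cases x with
    | idp n =>
      rw [lt_id_id] at h2
      rw [lt_id_wd] at h3
      simp at h3
      omega
    | wd u =>
      have h4 := CoreA_len ((wd_mem_PP u).1 h1)
      have h5 := ((lt_wd_wd_len _ _).1 h3).2
      simp at h5
      omega
  unfold T ShI
  rw [e]
  exact sh_empty _

/-- **(3)** `T_1 ⇐ T_2`: `sh_up` with `A = PP \ {wd 10}`; `Op A (idp 1) (wd w)` is the cone with apex
`idp 2` over `Op PP (idp 2) (wd w)`; `hE`: `z = idp 1`, `y = idp 2`. -/
theorem red_one (w : List Bool) (hF : Fw w) (h3 : 3 ≤ w.length) (h : T 2 w) : T 1 w := by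
  have hw : w ≠ [true, false] := by
    rintro rfl
    simp at h3
  have hl := CoreA_lis2 hF hw
  refine sh_up PP {x | x ∈ PP ∧ x ≠ wd [true, false]} (idp 1) (wd w)
    ((lt_id_wd 1 w).2 (by omega)) (Or.inr ⟨fun x hx => hx, (wd_mem_PP w).2 hF⟩)
    (fun x hx => hx.1) ?_ ?_ ?_ ?_
  · have e : Op {x | x ∈ PP ∧ x ≠ wd [true, false]} (idp 1) (wd w) =
        insert (idp 2) (Op PP (idp 2) (wd w)) := by
      ext x
      constructor
      · rintro ⟨⟨h1, h1'⟩, h2, h3⟩
        cases x with
        | idp n =>
          rw [lt_id_id] at h2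
          by_cases hn : n = 2
          · exact Or.inl (by rw [hn])
          · exact Or.inr ⟨h1, by rw [lt_id_id]; omega, h3⟩
        | wd u =>
          exact Or.inr ⟨h1, (lt_id_wd 2 u).2 (CoreA_lis2 ((wd_mem_PP u).1 h1)
            fun h4 => h1' (by rw [h4])), h3⟩
      · rintro (rfl | ⟨h1, h2, h3⟩)
        · exact ⟨⟨idp_mem_PP 2, by simp⟩, (lt_id_id 1 2).2 (by norm_num), (lt_id_wd 2 w).2 hl⟩
        · refine ⟨⟨h1, ?_⟩, lt_trans ((lt_id_id 1 2).2 (by norm_num)) h2, h3⟩
          rintro rfl
          rw [lt_id_wd] at h2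
          simp at h2
    unfold ShI
    rw [e, show rk (wd w) - rk (idp 1) - 1 = rk (wd w) - rk (idp 2) - 1 + 1 by
      simp only [rk_wd, rk_id]; omega]
    exact sh_cone (idp 2) (fun h1 => lt_irrefl _ h1.2.1) (fun q hq => Or.inl hq.2.1) h
  · intro x hx h1 h2 hxA
    have hxe : x = wd [true, false] := by
      by_contra hne
      exact hxA ⟨hx, hne⟩
    subst hxe
    exact t1_ten
  · intro x hx h1 h2 hxA
    have hxe : x = wd [true, false] := by
      by_contra hne
      exact hxA ⟨hx, hne⟩
    subst hxe
    refine sub_shI_of _ _ _ h2 ?_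
    intro u hu _ hne _
    exact ⟨(wd_mem_PP u).2 hu, by simpa using hne⟩
  · intro x hx h1 h2 hxA z a hz hgz hzx hzr ha hxa hah har
    have hxe : x = wd [true, false] := by
      by_contra hne
      exact hxA ⟨hx, hne⟩
    subst hxe
    have hzr' : rk z = 1 := by
      have h4 : rk (wd [true, false]) = 2 := rfl
      omega
    have hz1 : z = idp 1 := by
      rcases hz with rfl | hz
      · rfl
      · cases z with
        | idp n =>
          rw [rk_id] at hzr'
          rw [hzr']
        | wd u =>
          exfalso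
          have h4 := CoreA_len ((wd_mem_PP u).1 hz)
          rw [rk_wd] at hzr'
          omega
    subst hz1
    refine ⟨idp 2, ⟨idp_mem_PP 2, by simp⟩, (lt_id_id 1 2).2 (by norm_num), ?_⟩
    cases a with
    | idp n => exact absurd hxa (by simp)
    | wd u =>
      rw [lt_wd_wd] at hxa
      refine (lt_id_wd 2 u).2 (CoreA_lis2 hxa.1 fun h4 => hxa.2 h4.symm)

end H58
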