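import Mathlib

/-!
# MP_58cc3c_co: definitions of the question and of the final statement

Finite permutations in one-line notation, pattern containment, the interior of an interval, its
order complex, pure and shellable complexes, exactly as in the problem file.
-/

namespace Pool.Agent.W_58cc_h2

/-- A finite permutation of length `n`, one-line notation `p 0, p 1, ..., p (n - 1)`
(entries `0, ..., n - 1` instead of `1, ..., n`). -/
structure FPerm where
  /-- the length -/
  n : ℕ
  /-- the permutation -/
  p : Equiv.Perm (Fin n)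

/-- Pattern containment: `PatLE s t` if `t` has a subsequence (at the positions `f 0 < f 1 < ...`)
whose entries are in the same relative order as the entries of `s`. -/
def PatLE (s t : FPerm) : Prop :=
  ∃ f : Fin s.n → Fin t.n, StrictMono f ∧ ∀ i j, s.p i < s.p j ↔ t.p (f i) < t.p (f j)

/-- The interior of the interval `[s, t]` of the pattern poset. -/
def Interior (s t : FPerm) : Set FPerm :=
  {x | PatLE s x ∧ PatLE x t ∧ x ≠ s ∧ x ≠ t}

/-- The order complex of the interior of `[s, t]`: its faces are the finite sets of pairwise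
comparable elements of the interior (the empty set is a face). -/
def Delta (s t : FPerm) : Set (Finset FPerm) :=
  {F | (∀ x ∈ F, x ∈ Interior s t) ∧ ∀ x ∈ F, ∀ y ∈ F, PatLE x y ∨ PatLE y x}

/-- A facet is a maximal face. -/
def IsFacet {α : Type*} (K : Set (Finset α)) (F : Finset α) : Prop :=
  F ∈ K ∧ ∀ G ∈ K, F ⊆ G → G = F

/-- The complex `K` is pure of dimension `d`: it has a face, every face lies in a facet and every
facet has `d + 1` vertices. -/
def IsPure {α : Type*} (K : Set (Finset α)) (d : ℤ) : Prop :=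
  K.Nonempty ∧ (∀ F ∈ K, ∃ G, IsFacet K G ∧ F ⊆ G) ∧ ∀ F, IsFacet K F → (F.card : ℤ) = d + 1

/-- Shellability of a pure complex: the facets can be listed `L 0, L 1, ...` so that for every
`j ≥ 1` the complex of all faces of `L j` which are faces of an earlier facet is pure of
dimension `d - 1`. -/
def Shellable {α : Type*} (K : Set (Finset α)) : Prop :=
  ∃ d : ℤ, IsPure K d ∧ ∃ L : List (Finset α), L.Nodup ∧ (∀ F, F ∈ L ↔ IsFacet K F) ∧
    ∀ j : ℕ, 0 < j → ∀ hj : j < L.length,
      IsPure {G : Finset α | (∃ i : ℕ, ∃ hi : i < j, G ⊆ L[i]'(hi.trans hj)) ∧ G ⊆ L[j]} (d - 1)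

/-- `i` is a descent of `t`: the entry at position `i + 1` is smaller than the one at position
`i`. -/
def Descent (t : FPerm) (i : ℕ) : Prop :=
  ∃ h : i + 1 < t.n, t.p ⟨i + 1, h⟩ < t.p ⟨i, (Nat.lt_succ_self i).trans h⟩

/-- `t` has exactly one descent. -/
def OneDescent (t : FPerm) : Prop := ∃! i : ℕ, Descent t i

/-- The identity permutation of length `k`. -/
def idn (k : ℕ) : FPerm := ⟨k, 1⟩

/-- The permutation 456123. -/
def p456123 : FPerm :=
  ⟨6, ⟨![3, 4, 5, 0, 1, 2], ![3, 4, 5, 0, 1, 2], by decide, by decide⟩⟩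

/-- The permutation 356124. -/
def p356124 : FPerm :=
  ⟨6, ⟨![2, 4, 5, 0, 1, 3], ![3, 4, 0, 5, 1, 2], by decide, by decide⟩⟩

/-- The final statement. -/
def Final : Prop :=
  ∀ t : FPerm, OneDescent t →
    (∀ k : ℕ, k ≤ 3 → PatLE (idn k) t →
      (Shellable (Delta (idn k) t) ↔ ¬ PatLE p456123 t ∧ ¬ PatLE p356124 t)) ∧
    (¬ PatLE p456123 t → ¬ PatLE p356124 t → ∀ s, PatLE s t → Shellable (Delta s t))

end Pool.Agent.W_58cc_h2
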