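import Pool.Agent.W_58cc_h2.ElW

/-!
# MP_58cc3c_co: permutations with at most one descent are words
-/

namespace Pool.Agent.W_58cc_h2

open List

/-- The permutation with word `f`: first the values `v` with `f v = false`, then those with
`f v = true`, both in increasing order. -/
def permOf {n : ℕ} (f : Fin n → Bool) : FPerm := ⟨n, Tuple.sort f⟩

/-- The permutation of a word. -/
def ofWord (l : List Bool) : FPerm := permOf l.get

/-- The permutation of an element of the word model. -/
def toP : El → FPerm
  | .idp n => idn n
  | .wd l => ofWord l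

@[simp] lemma toP_idp (n : ℕ) : toP (.idp n) = idn n := rfl
@[simp] lemma toP_wd (l : List Bool) : toP (.wd l) = ofWord l := rfl

lemma patLE_iff_symm (s t : FPerm) : PatLE s t ↔
    ∃ g : Fin s.n → Fin t.n, StrictMono g ∧
      ∀ u v, s.p.symm u < s.p.symm v ↔ t.p.symm (g u) < t.p.symm (g v) := by
  constructor
  · rintro ⟨f, hf, h⟩
    refine ⟨fun u => t.p (f (s.p.symm u)), ?_, ?_⟩
    · intro u v huv
      exact (h _ _).1 (by simpa using huv)
    · intro u v
      simp [hf.lt_iff_lt]
  · rintro ⟨g, hg, h⟩
    refine ⟨fun i => t.p.symm (g (s.p i)), ?_, ?_⟩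
    · intro i j hij
      exact (h _ _).1 (by simpa using hij)
    · intro i j
      simp [hg.lt_iff_lt]

lemma sort_symm_lt {n : ℕ} (f : Fin n → Bool) (u v : Fin n) :
    (Tuple.sort f).symm u < (Tuple.sort f).symm v ↔ f u < f v ∨ (f u = f v ∧ u < v) := by
  have key : ∀ u v : Fin n, (Tuple.sort f).symm u < (Tuple.sort f).symm v →
      f u < f v ∨ (f u = f v ∧ u < v) := by
    intro u v h
    have h1 := Tuple.monotone_sort f h.le
    simp only [Function.comp_apply, Equiv.apply_symm_apply] at h1
    rcases lt_or_eq_of_le h1 with h2 | h2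
    · exact Or.inl h2
    · right
      refine ⟨h2, ?_⟩
      have := (Tuple.eq_sort_iff.1 (rfl : Tuple.sort f = Tuple.sort f)).2 _ _ h
      simp only [Equiv.apply_symm_apply] at this
      exact this h2
  constructor
  · exact key u v
  · intro h
    rcases lt_trichotomy ((Tuple.sort f).symm u) ((Tuple.sort f).symm v) with h1 | h1 | h1
    · exact h1
    · have : u = v := (Tuple.sort f).symm.injective h1
      subst this
      rcases h with h | h
      · exact absurd h (lt_irrefl _)
      · exact absurd h.2 (lt_irrefl _)
    · rcases key v u h1 with h2 | h2 <;> rcases h with h | h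
      · exact absurd (h2.trans h) (lt_irrefl _)
      · rw [h.1] at h2; exact absurd h2 (lt_irrefl _)
      · rw [h2.1] at h; exact absurd h (lt_irrefl _)
      · exact absurd (h2.2.trans h.2) (lt_irrefl _)

lemma perm_ext {n : ℕ} {p q : Equiv.Perm (Fin n)}
    (h : ∀ u v, p.symm u < p.symm v ↔ q.symm u < q.symm v) : p = q := by
  have hm : StrictMono (fun i => q.symm (p i)) := by
    intro i j hij
    exact (h _ _).1 (by simpa using hij)
  let e : Fin n ≃o Fin n := hm.orderIsoOfSurjective _ (q.symm.surjective.comp p.surjective)
  have he : e = OrderIso.refl _ := Subsingleton.elim _ _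
  ext i
  have h1 : e i = i := by rw [he]; rfl
  have h2 : q.symm (p i) = i := h1
  have h3 : p i = q i := (Equiv.symm_apply_eq q).1 h2
  rw [h3]

lemma patLE_permOf {m : ℕ} (p : Equiv.Perm (Fin m)) {n : ℕ} (f : Fin n → Bool) :
    PatLE ⟨m, p⟩ (permOf f) ↔ ∃ g : Fin m → Fin n, StrictMono g ∧ p = Tuple.sort (f ∘ g) := by
  rw [patLE_iff_symm]
  constructor
  · rintro ⟨(g : Fin m → Fin n), (hg : StrictMono g), h⟩
    refine ⟨g, hg, ?_⟩
    have hg' : ∀ u v : Fin m, (g u : Fin n) < g v ↔ u < v := fun u v => hg.lt_iff_lt
    apply perm_ext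
    intro u v
    refine (h u v).trans ?_
    change (Tuple.sort f).symm (g u) < (Tuple.sort f).symm (g v) ↔ _
    rw [sort_symm_lt, sort_symm_lt, hg']
    rfl
  · rintro ⟨g, hg, h⟩
    refine ⟨g, hg, ?_⟩
    have hg' : ∀ u v : Fin m, (g u : Fin n) < g v ↔ u < v := fun u v => hg.lt_iff_lt
    subst h
    intro u v
    change (Tuple.sort (f ∘ g)).symm u < (Tuple.sort (f ∘ g)).symm v ↔
      (Tuple.sort f).symm (g u) < (Tuple.sort f).symm (g v)
    rw [sort_symm_lt, sort_symm_lt, hg']
    rfl

lemma permOf_congr {n m : ℕ} (h : n = m) (f : Fin n → Bool) (f' : Fin m → Bool)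
    (hf : ∀ i, f i = f' (Fin.cast h i)) : permOf f = permOf f' := by
  subst h
  have : f = f' := by ext i; rw [hf]; rfl
  rw [this]

lemma ofWord_ofFn {n : ℕ} (f : Fin n → Bool) : ofWord (List.ofFn f) = permOf f := by
  apply permOf_congr (by simp)
  intro i
  simp only [List.get_ofFn]

lemma patLE_ofWord (s : FPerm) (l : List Bool) :
    PatLE s (ofWord l) ↔ ∃ l', l' <+ l ∧ ofWord l' = s := by
  obtain ⟨m, p⟩ := s
  unfold ofWord
  rw [patLE_permOf]
  constructor
  · rintro ⟨g, hg, h⟩
    refine ⟨List.ofFn (l.get ∘ g), ?_, ?_⟩
    · rw [List.sublist_iff_exists_fin_orderEmbedding_get_eq]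
      refine ⟨(Fin.castOrderIso (by simp)).toOrderEmbedding.trans
        (OrderEmbedding.ofStrictMono g hg), ?_⟩
      intro i
      rw [List.get_ofFn]
      rfl
    · subst h
      exact ofWord_ofFn _
  · rintro ⟨l', hl, h⟩
    rw [List.sublist_iff_exists_fin_orderEmbedding_get_eq] at hl
    obtain ⟨e, he⟩ := hl
    obtain rfl : l'.length = m := congrArg FPerm.n h
    refine ⟨fun i => e i, fun i j hij => e.strictMono hij, ?_⟩
    have h1 : l.get ∘ (fun i => e i) = l'.get := by
      ext i
      exact (he i).symm
    rw [h1]
    unfold permOf at h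
    simpa using h.symm

lemma not_NS_iff (l : List Bool) : ¬ NS l ↔ l.Pairwise (· ≤ ·) := by
  rw [List.pairwise_iff_forall_sublist]
  constructor
  · intro h a b hab
    cases a <;> cases b
    · exact le_rfl
    · exact Bool.false_le _
    · exact absurd hab h
    · exact le_rfl
  · intro h h'
    exact absurd (h h') (by decide)

lemma not_NS_iff_monotone (l : List Bool) : ¬ NS l ↔ Monotone l.get := by
  rw [not_NS_iff, List.pairwise_iff_get]
  constructor
  · intro h i j hij
    rcases lt_or_eq_of_le hij with h' | h'
    · exact h i j h'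
    · rw [h']
  · intro h i j hij
    exact h hij.le

/-- A sorted word gives the identity. -/
lemma ofWord_of_not_NS {l : List Bool} (h : ¬ NS l) : ofWord l = idn l.length := by
  unfold ofWord permOf idn
  rw [not_NS_iff_monotone] at h
  rw [Tuple.sort_eq_refl_iff_monotone.2 h]
  rfl

lemma NS_iff_exists (l : List Bool) :
    NS l ↔ ∃ i j : Fin l.length, i < j ∧ l.get i = true ∧ l.get j = false := by
  rw [← not_iff_not, not_NS_iff, List.pairwise_iff_get]
  push Not
  constructor
  · intro h i j hij h1 h2
    have := h i j hij
    rw [h1, h2] at this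
    exact absurd this (by decide)
  · intro h i j hij
    have := h i j hij
    cases h1 : l.get i with
    | false => exact Bool.false_le _
    | true =>
      cases h2 : l.get j with
      | false => exact absurd h2 (this h1)
      | true => exact le_rfl

lemma eq_of_sort_eq {n : ℕ} {f f' : Fin n → Bool}
    (h : ∀ u v, (Tuple.sort f).symm u < (Tuple.sort f).symm v ↔
      (Tuple.sort f').symm u < (Tuple.sort f').symm v)
    (hf : ∃ i j, i < j ∧ f i = true ∧ f j = false) : f = f' := by
  have key : ∀ u v, u < v → ((f u = true ∧ f v = false) ↔ (f' u = true ∧ f' v = false)) := by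
    intro u v huv
    have h1 := h u v
    rw [sort_symm_lt, sort_symm_lt] at h1
    revert h1
    cases f u <;> cases f v <;> cases f' u <;> cases f' v <;> simp [huv]
  obtain ⟨i, j, hij, hi, hj⟩ := hf
  have h0 := (key i j hij).1 ⟨hi, hj⟩
  ext w
  cases hw : f w with
  | true =>
    rcases lt_trichotomy w j with h1 | h1 | h1
    · exact ((key w j h1).1 ⟨hw, hj⟩).1.symm ▸ rfl
    · rw [h1, hj] at hw; simp at hw
    · cases hw' : f' w with
      | true => rfl
      | false =>
        have := (key i w (hij.trans h1)).2 ⟨h0.1, hw'⟩
        rw [hw] at this; simp at this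
  | false =>
    rcases lt_trichotomy i w with h1 | h1 | h1
    · exact ((key i w h1).1 ⟨hi, hw⟩).2.symm ▸ rfl
    · rw [← h1, hi] at hw; simp at hw
    · cases hw' : f' w with
      | false => rfl
      | true =>
        have := (key w j (h1.trans hij)).2 ⟨hw', h0.2⟩
        rw [hw] at this; simp at this

lemma eq_of_ofWord_eq {l l' : List Bool} (hl : NS l) (h : ofWord l = ofWord l') : l = l' := by
  have hlen : l.length = l'.length := congrArg FPerm.n h
  have key : ∀ u v : Fin l.length, (Tuple.sort l.get).symm u < (Tuple.sort l.get).symm v ↔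
      (Tuple.sort (l'.get ∘ Fin.cast hlen)).symm u <
        (Tuple.sort (l'.get ∘ Fin.cast hlen)).symm v := by
    have h2 : permOf (l'.get ∘ Fin.cast hlen) = permOf l.get := by
      have : permOf (l'.get ∘ Fin.cast hlen) = permOf l'.get := by
        apply permOf_congr hlen
        intro i
        rfl
      rw [this]
      exact h.symm
    unfold permOf at h2
    simp only [FPerm.mk.injEq, heq_eq_eq, true_and] at h2
    rw [h2]
    simp
  have := eq_of_sort_eq key ((NS_iff_exists l).1 hl)
  apply List.ext_get hlen
  intro n h1 h2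
  exact congrFun this ⟨n, h1⟩

lemma ofWord_ne_idn {l : List Bool} (hl : NS l) (n : ℕ) : ofWord l ≠ idn n := by
  intro h
  have hlen : l.length = n := congrArg FPerm.n h
  have h1 : ¬ NS (List.replicate n false) := by
    rw [not_NS_iff]
    exact List.pairwise_replicate_of_refl
  have h2 := ofWord_of_not_NS h1
  rw [List.length_replicate] at h2
  have h3 := eq_of_ofWord_eq hl (h.trans h2.symm)
  rw [h3] at hl
  exact h1 hl

lemma not_NS_replicate (n : ℕ) (b : Bool) : ¬ NS (List.replicate n b) := by
  rw [not_NS_iff]
  exact List.pairwise_replicate_of_refl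

lemma idn_eq (n : ℕ) : idn n = ofWord (List.replicate n false) := by
  have := ofWord_of_not_NS (not_NS_replicate n false)
  rw [List.length_replicate] at this
  exact this.symm

lemma exists_sorted_iff (m : ℕ) (l : List Bool) :
    (∃ z, z <+ l ∧ ¬ NS z ∧ z.length = m) ↔ m ≤ lis l := by
  constructor
  · rintro ⟨z, hz, hs, rfl⟩
    rw [not_NS_iff] at hs
    induction l generalizing z with
    | nil => simp at hz; simp [hz]
    | cons a l ih =>
      rcases List.sublist_cons_iff.1 hz with h | ⟨r, rfl, h⟩
      · exact (ih _ h hs).trans (lis_le_cons _ _)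
      · have hr := (List.pairwise_cons.1 hs)
        cases a with
        | false => simpa using ih _ h hr.2
        | true =>
          have h1 : r.count true = r.length := by
            rw [List.count_eq_length]
            intro b hb
            have := hr.1 b hb
            cases b
            · exact absurd this (by decide)
            · rfl
          have h2 := h.count_le true
          simp only [lis_true, List.length_cons]
          omega
  · intro h
    have key : ∃ z, z <+ l ∧ z.Pairwise (· ≤ ·) ∧ z.length = lis l := by
      clear h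
      induction l with
      | nil => exact ⟨[], by simp, by simp, by simp⟩
      | cons a l ih =>
        obtain ⟨z, h1, h2, h3⟩ := ih
        cases a with
        | false =>
          refine ⟨false :: z, h1.cons_cons false, ?_, by simp [h3]⟩
          rw [List.pairwise_cons]
          exact ⟨fun b _ => Bool.false_le b, h2⟩
        | true =>
          rcases le_total (1 + l.count true) (lis l) with h | h
          · refine ⟨z, h1.cons true, h2, ?_⟩
            simp only [lis_true]
            omega
          · refine ⟨List.replicate (1 + l.count true) true, ?_, ?_, ?_⟩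
            · rw [add_comm, List.replicate_succ]
              apply List.Sublist.cons_cons
              rw [List.replicate_sublist_iff]
            · exact List.pairwise_replicate_of_refl
            · simp only [lis_true, List.length_replicate]
              omega
    obtain ⟨z, h1, h2, h3⟩ := key
    refine ⟨z.take m, (List.take_sublist _ _).trans h1, ?_, ?_⟩
    · rw [not_NS_iff]
      exact h2.sublist (List.take_sublist _ _)
    · rw [List.length_take]
      omega

lemma patLE_idn_ofWord (m : ℕ) (l : List Bool) : PatLE (idn m) (ofWord l) ↔ m ≤ lis l := by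
  rw [patLE_ofWord, ← exists_sorted_iff]
  constructor
  · rintro ⟨z, hz, h⟩
    refine ⟨z, hz, fun hns => ofWord_ne_idn hns m h, congrArg FPerm.n h⟩
  · rintro ⟨z, hz, h, rfl⟩
    exact ⟨z, hz, ofWord_of_not_NS h⟩

lemma lis_replicate_false (n : ℕ) : lis (List.replicate n false) = n := by
  induction n with
  | zero => rfl
  | succ n ih => rw [List.replicate_succ, lis_false, ih]

/-- On `PP` containment of permutations is the order of the word model. -/
theorem patLE_toP {x y : El} (hx : x ∈ PP) (hy : y ∈ PP) : PatLE (toP x) (toP y) ↔ x ≤ y := by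
  cases x with
  | idp m =>
    cases y with
    | idp n => rw [toP_idp, toP_idp, idn_eq n, patLE_idn_ofWord, lis_replicate_false, idp_le_idp]
    | wd l => rw [toP_idp, toP_wd, patLE_idn_ofWord, idp_le_wd]
  | wd l =>
    have hl : NS l := wd_mem_PP.1 hx
    cases y with
    | idp n =>
      rw [toP_idp, toP_wd, idn_eq n, patLE_ofWord, wd_le_idp, iff_false]
      rintro ⟨l', h1, h2⟩
      have := eq_of_ofWord_eq hl h2.symm
      subst this
      exact not_NS_replicate n false (hl.mono h1)
    | wd l' =>
      rw [toP_wd, toP_wd, patLE_ofWord, wd_le_wd]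
      constructor
      · rintro ⟨l'', h1, h2⟩
        have := eq_of_ofWord_eq hl h2.symm
        rw [this]
        exact h1
      · intro h
        exact ⟨l, h, rfl⟩

theorem toP_injOn {x y : El} (hx : x ∈ PP) (hy : y ∈ PP) (h : toP x = toP y) : x = y := by
  have h1 : ∀ s : FPerm, PatLE s s := fun s => ⟨id, strictMono_id, fun i j => Iff.rfl⟩
  apply le_antisymm
  · rw [← patLE_toP hx hy, h]; exact h1 _
  · rw [← patLE_toP hy hx, h]; exact h1 _

/-- Patterns of a permutation with at most one descent have at most one descent. -/
theorem exists_of_patLE {s : FPerm} {w : List Bool} (h : PatLE s (ofWord w)) :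
    ∃ x ∈ PP, toP x = s := by
  rw [patLE_ofWord] at h
  obtain ⟨l, hl, rfl⟩ := h
  by_cases hns : NS l
  · exact ⟨.wd l, wd_mem_PP.2 hns, rfl⟩
  · exact ⟨.idp l.length, idp_mem_PP _, (ofWord_of_not_NS hns).symm⟩

/-- A permutation with exactly one descent comes from a non sorted word. -/
theorem exists_word {t : FPerm} (h : OneDescent t) : ∃ w, NS w ∧ ofWord w = t := by
  obtain ⟨n, p⟩ := t
  obtain ⟨i, ⟨hi, hd⟩, huniq⟩ := h
  simp only at hi hd
  -- increasing steps
  have step : ∀ j : ℕ, j ≠ i → ∀ hj : j + 1 < n,
      p ⟨j, (Nat.lt_succ_self j).trans hj⟩ < p ⟨j + 1, hj⟩ := by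
    intro j hji hj
    rcases lt_trichotomy (p ⟨j, (Nat.lt_succ_self j).trans hj⟩) (p ⟨j + 1, hj⟩) with h | h | h
    · exact h
    · have := congrArg Fin.val (p.injective h)
      simp at this
    · exact absurd (huniq j ⟨hj, h⟩) hji
  have inc : ∀ a d : ℕ, ∀ hd : a + d + 1 < n, (∀ j, a ≤ j → j ≤ a + d → j ≠ i) →
      p ⟨a, by omega⟩ < p ⟨a + d + 1, hd⟩ := by
    intro a d
    induction d with
    | zero =>
      intro hd hj
      exact step a (hj a le_rfl le_rfl) hd
    | succ d ih =>
      intro hd hj
      refine (ih (by omega) (fun j h1 h2 => hj j h1 (by omega))).trans ?_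
      exact step (a + d + 1) (hj _ (by omega) (by omega)) hd
  have inc' : ∀ a b : Fin n, a < b → (b.1 ≤ i ∨ i < a.1) → p a < p b := by
    intro a b hab h
    obtain ⟨d, hd⟩ : ∃ d, b.1 = a.1 + d + 1 := ⟨b.1 - a.1 - 1, by have := Fin.lt_def.1 hab; omega⟩
    have h1 := inc a.1 d (by rw [← hd]; exact b.2) (by intro j h2 h3; omega)
    have h2 : (⟨a.1 + d + 1, by rw [← hd]; exact b.2⟩ : Fin n) = b := by
      ext; simp [hd]
    rw [h2] at h1
    exact h1
  let f : Fin n → Bool := fun v => decide (i < (p.symm v).1)
  have hp : p = Tuple.sort f := by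
    rw [Tuple.eq_sort_iff]
    constructor
    · intro a b hab
      simp only [f, Function.comp_apply, Equiv.symm_apply_apply]
      by_cases h : i < a.1
      · have : i < b.1 := lt_of_lt_of_le h hab
        simp [h, this]
      · simp [h]
    · intro a b hab hf
      simp only [f, Equiv.symm_apply_apply] at hf
      apply inc' a b hab
      by_cases h : i < a.1
      · exact Or.inr h
      · left
        have : ¬ i < b.1 := by
          intro h'
          simp [h, h'] at hf
        omega
  refine ⟨List.ofFn f, ?_, ?_⟩
  · rw [NS_iff_exists]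
    refine ⟨Fin.cast (by simp) (p ⟨i + 1, hi⟩),
      Fin.cast (by simp) (p ⟨i, (Nat.lt_succ_self i).trans hi⟩), ?_, ?_, ?_⟩
    · exact hd
    · rw [List.get_ofFn]
      simp [f]
    · rw [List.get_ofFn]
      simp [f]
  · rw [ofWord_ofFn]
    unfold permOf
    rw [← hp]

lemma p456123_eq : p456123 = ofWord [true, true, true, false, false, false] := by
  have h : (⟨![3, 4, 5, 0, 1, 2], ![3, 4, 5, 0, 1, 2], by decide, by decide⟩ :
      Equiv.Perm (Fin 6)) =
      Tuple.sort (![true, true, true, false, false, false] : Fin 6 → Bool) := by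
    rw [Tuple.eq_sort_iff]
    constructor
    · intro a b
      revert a b
      decide
    · decide
  have h2 : ofWord [true, true, true, false, false, false] =
      permOf (![true, true, true, false, false, false] : Fin 6 → Bool) := by
    apply permOf_congr rfl
    decide
  rw [h2]
  unfold permOf
  rw [← h]
  rfl

lemma p356124_eq : p356124 = ofWord [true, true, false, true, false, false] := by
  have h : (⟨![2, 4, 5, 0, 1, 3], ![3, 4, 0, 5, 1, 2], by decide, by decide⟩ :
      Equiv.Perm (Fin 6)) =
      Tuple.sort (![true, true, false, true, false, false] : Fin 6 → Bool) := by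
    rw [Tuple.eq_sort_iff]
    constructor
    · intro a b
      revert a b
      decide
    · decide
  have h2 : ofWord [true, true, false, true, false, false] =
      permOf (![true, true, false, true, false, false] : Fin 6 → Bool) := by
    apply permOf_congr rfl
    decide
  rw [h2]
  unfold permOf
  rw [← h]
  rfl

theorem patLE_p456123 {w : List Bool} (hw : NS w) :
    PatLE p456123 (ofWord w) ↔ [true, true, true, false, false, false] <+ w := by
  rw [p456123_eq]
  exact patLE_toP (x := .wd _) (y := .wd w) (wd_mem_PP.2 (by unfold NS; decide))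
    (wd_mem_PP.2 hw)

theorem patLE_p356124 {w : List Bool} (hw : NS w) :
    PatLE p356124 (ofWord w) ↔ [true, true, false, true, false, false] <+ w := by
  rw [p356124_eq]
  exact patLE_toP (x := .wd _) (y := .wd w) (wd_mem_PP.2 (by unfold NS; decide))
    (wd_mem_PP.2 hw)

end Pool.Agent.W_58cc_h2
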