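import Mathlib

/-!
# MP_58cc3c_co, one-descent family: definitions (helper2)

Binary words (`false` = 0, `true` = 1), the ambient poset `El`, abstract shellability `Sh`.
Paper proof: row 456 of the table `proofs`.
-/

namespace H58

section Abs

variable {α : Type*}

/-- chains for a strict relation `r`. -/
def Chn (r : α → α → Prop) (F : Finset α) : Prop :=
  ∀ a ∈ F, ∀ b ∈ F, a ≠ b → r a b ∨ r b a

/-- `F` is a chain of `Q` with exactly `d` elements. -/
def Fct (r : α → α → Prop) (d : ℕ) (Q : Set α) (F : Finset α) : Prop :=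
  (∀ a ∈ F, a ∈ Q) ∧ Chn r F ∧ F.card = d

/-- The order complex of `Q` is pure, its facets have `d` elements, and it is shellable. -/
def Sh (r : α → α → Prop) (d : ℕ) (Q : Set α) : Prop :=
  Q.Finite ∧
  (∀ F : Finset α, (∀ a ∈ F, a ∈ Q) → Chn r F → ∃ G, F ⊆ G ∧ Fct r d Q G) ∧
  ∃ f : Finset α → ℕ,
    (∀ F G, Fct r d Q F → Fct r d Q G → f F = f G → F = G) ∧
    ∀ F G, Fct r d Q F → Fct r d Q G → f G < f F →
      ∃ H, Fct r d Q H ∧ f H < f F ∧ ∃ v ∈ F, v ∉ G ∧ ∀ u ∈ F, u ≠ v → u ∈ H

end Abs

/-- the greatest length of a sorted subword `0^a 1^b`. -/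
def lis : List Bool → ℕ
  | [] => 0
  | false :: z => lis z + 1
  | true :: z => max (lis z) (z.count true + 1)

/-- non sorted words: they contain `10`. -/
def Fw (l : List Bool) : Prop := [true, false].Sublist l

@[simp] theorem lis_nil : lis [] = 0 := rfl
@[simp] theorem lis_false (z : List Bool) : lis (false :: z) = lis z + 1 := rfl
@[simp] theorem lis_true (z : List Bool) : lis (true :: z) = max (lis z) (z.count true + 1) := rfl

theorem count_le_lis (z : List Bool) : z.count true ≤ lis z := by
  induction z with
  | nil => simp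
  | cons b z ih =>
    cases b
    · simp; omega
    · simp

theorem lis_le_length (z : List Bool) : lis z ≤ z.length := by
  induction z with
  | nil => simp
  | cons b z ih =>
    cases b
    · simpa using ih
    · have h := List.count_le_length (a := true) (l := z)
      simp only [lis_true, List.length_cons]
      omega

theorem lis_mono {l l' : List Bool} (h : l.Sublist l') : lis l ≤ lis l' := by
  induction h with
  | slnil => simp
  | cons b h ih =>
    cases b
    · simp; omega
    · simp only [lis_true]; omega
  | cons_cons b h ih =>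
    have hc := h.count_le true
    cases b
    · simpa using ih
    · simp only [lis_true]; omega

/-- ambient type: identities and words. -/
inductive El : Type
  | idp (n : ℕ) : El
  | wd (l : List Bool) : El
  deriving DecidableEq

open El

/-- the order of `El`: `idp m ≤ wd l` iff `m ≤ lis l`, words by the subword order. -/
def El.leP : El → El → Prop
  | idp m, idp n => m ≤ n
  | idp m, wd l => m ≤ lis l
  | wd _, idp _ => False
  | wd l, wd l' => l.Sublist l'

instance : PartialOrder El where
  le := El.leP
  le_refl a := by cases a <;> simp [El.leP]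
  le_trans a b c h1 h2 := by
    cases a <;> cases b <;> cases c <;> simp only [El.leP] at h1 h2 ⊢
    · omega
    · omega
    · exact h1.trans (lis_mono h2)
    · exact h1.trans h2
  le_antisymm a b h1 h2 := by
    cases a <;> cases b <;> simp only [El.leP] at h1 h2
    · congr 1; omega
    · congr 1; exact h1.antisymm h2

@[simp] theorem le_id_id (m n : ℕ) : idp m ≤ idp n ↔ m ≤ n := Iff.rfl
@[simp] theorem le_id_wd (m : ℕ) (l : List Bool) : idp m ≤ wd l ↔ m ≤ lis l := Iff.rfl
@[simp] theorem le_wd_id (l : List Bool) (n : ℕ) : wd l ≤ idp n ↔ False := Iff.rfl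
@[simp] theorem le_wd_wd (l l' : List Bool) : wd l ≤ wd l' ↔ l.Sublist l' := Iff.rfl

@[simp] theorem lt_id_id (m n : ℕ) : idp m < idp n ↔ m < n := by
  rw [lt_iff_le_not_ge]; simp; omega
@[simp] theorem lt_id_wd (m : ℕ) (l : List Bool) : idp m < wd l ↔ m ≤ lis l := by
  rw [lt_iff_le_not_ge]; simp
@[simp] theorem lt_wd_id (l : List Bool) (n : ℕ) : wd l < idp n ↔ False := by
  rw [lt_iff_le_not_ge]; simp
theorem lt_wd_wd (l l' : List Bool) : wd l < wd l' ↔ l.Sublist l' ∧ l ≠ l' := by
  rw [lt_iff_le_and_ne]; simp
theorem lt_wd_wd_len (l l' : List Bool) : wd l < wd l' ↔ l.Sublist l' ∧ l.length < l'.length := by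
  rw [lt_wd_wd]
  constructor
  · rintro ⟨h, hne⟩
    exact ⟨h, lt_of_le_of_ne h.length_le (fun he => hne (h.eq_of_length he))⟩
  · rintro ⟨h, hl⟩
    exact ⟨h, fun he => by rw [he] at hl; exact absurd hl (lt_irrefl _)⟩

/-- rank = length. -/
def rk : El → ℕ
  | idp n => n
  | wd l => l.length

@[simp] theorem rk_id (n : ℕ) : rk (idp n) = n := rfl
@[simp] theorem rk_wd (l : List Bool) : rk (wd l) = l.length := rfl

/-- open intervals inside a set `P`. -/
def Op (P : Set El) (g h : El) : Set El := {x | x ∈ P ∧ g < x ∧ x < h}

/-- the open interval `(g, h)` of `P` is pure of the right dimension and shellable. -/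
def ShI (P : Set El) (g h : El) : Prop := Sh (· < ·) (rk h - rk g - 1) (Op P g h)

/-- the elements which are permutations with at most one descent. -/
def PP : Set El := {x | ∀ l, x = wd l → Fw l}

@[simp] theorem idp_mem_PP (n : ℕ) : idp n ∈ PP := by intro l h; cases h
@[simp] theorem wd_mem_PP (l : List Bool) : wd l ∈ PP ↔ Fw l := by
  constructor
  · intro h; exact h l rfl
  · intro h l' h'; cases h'; exact h

/-- shellability of `[id_k, w]`. -/
def T (k : ℕ) (w : List Bool) : Prop := ShI PP (idp k) (wd w)

/-- half open interval of words `x ≤ u < w`. -/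
def HO (x w : List Bool) : Set El := {e | ∃ u, e = wd u ∧ x.Sublist u ∧ u.Sublist w ∧ u ≠ w}

/-- elements which are not words starting with `11`. -/
def PC : Set El := {e | ∀ t, e ≠ wd (true :: true :: t)}

/-- mirror image: reverse of the complement. -/
def mir (l : List Bool) : List Bool := (l.map (fun b => !b)).reverse

end H58
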