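import Pool.Agent.W_58cc_h2.Defs

/-!
# MP_58cc3c_co: the word model

`El`: the elements `idp n` (identity of length `n`) and `wd l` (`l` a binary word, `false = 0`,
`true = 1`), ordered by containment; `PP` is the set of the `idp n` and of the non sorted words.
`Sh r d Q`: the poset `Q` (strict order `r`) has a shelling and all its maximal chains have `d`
elements.
-/

namespace Pool.Agent.W_58cc_h2

open List

/-- Elements of the word model. -/
inductive El
  | idp (n : ℕ)
  | wd (l : List Bool)
  deriving DecidableEq

/-- Greatest length of a sorted subword. -/
def lis : List Bool → ℕ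
  | [] => 0
  | false :: z => lis z + 1
  | true :: z => max (lis z) (1 + z.count true)

@[simp] lemma lis_nil : lis [] = 0 := rfl
@[simp] lemma lis_false (z : List Bool) : lis (false :: z) = lis z + 1 := rfl
@[simp] lemma lis_true (z : List Bool) : lis (true :: z) = max (lis z) (1 + z.count true) := rfl

lemma lis_le_cons (a : Bool) (z : List Bool) : lis z ≤ lis (a :: z) := by
  cases a <;> simp

lemma lis_mono {l l' : List Bool} (h : l <+ l') : lis l ≤ lis l' := by
  induction h with
  | slnil => exact le_rfl
  | cons a _ ih => exact ih.trans (lis_le_cons _ _)
  | cons_cons a h ih =>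
      cases a
      · simpa using ih
      · have := h.count_le true
        simp only [lis_true]
        omega

lemma count_le_lis (z : List Bool) : z.count true ≤ lis z := by
  induction z with
  | nil => simp
  | cons a z ih => cases a <;> simp <;> omega

lemma lis_le_length (z : List Bool) : lis z ≤ z.length := by
  induction z with
  | nil => simp
  | cons a z ih =>
      have := List.count_le_length (a := true) (l := z)
      cases a <;> simp <;> omega

/-- A word is non sorted: it has the subword `10`. -/
def NS (l : List Bool) : Prop := [true, false] <+ l

lemma NS.mono {l l' : List Bool} (h : NS l) (h' : l <+ l') : NS l' := h.trans h'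

/-- The order of the word model. -/
def El.le : El → El → Prop
  | .idp m, .idp n => m ≤ n
  | .idp m, .wd l => m ≤ lis l
  | .wd _, .idp _ => False
  | .wd l, .wd l' => l <+ l'

instance : LE El := ⟨El.le⟩

@[simp] lemma idp_le_idp {m n : ℕ} : El.idp m ≤ El.idp n ↔ m ≤ n := Iff.rfl
@[simp] lemma idp_le_wd {m : ℕ} {l : List Bool} : El.idp m ≤ El.wd l ↔ m ≤ lis l := Iff.rfl
@[simp] lemma wd_le_idp {m : ℕ} {l : List Bool} : El.wd l ≤ El.idp m ↔ False := Iff.rfl
@[simp] lemma wd_le_wd {l l' : List Bool} : El.wd l ≤ El.wd l' ↔ l <+ l' := Iff.rfl

instance : PartialOrder El where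
  le_refl x := by cases x <;> simp
  le_trans x y z := by
    cases x <;> cases y <;> cases z <;> simp
    · exact fun a b => a.trans b
    · exact fun a b => a.trans b
    · exact fun a b => a.trans (lis_mono b)
    · exact fun a b => a.trans b
  le_antisymm x y := by
    cases x <;> cases y <;> simp
    · exact fun a b => le_antisymm a b
    · exact fun a b => a.antisymm b

/-- Rank (the length of the permutation). -/
def rk : El → ℕ
  | .idp n => n
  | .wd l => l.length

@[simp] lemma rk_idp (n : ℕ) : rk (.idp n) = n := rfl
@[simp] lemma rk_wd (l : List Bool) : rk (.wd l) = l.length := rfl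

lemma rk_mono {x y : El} (h : x ≤ y) : rk x ≤ rk y := by
  cases x <;> cases y <;> simp at h ⊢
  · exact h
  · exact h.trans (lis_le_length _)
  · exact h.length_le

/-- The poset of the permutations with at most one descent: the identities and the non sorted
words. -/
def PP : Set El := {p | ∀ l, p = El.wd l → NS l}

@[simp] lemma idp_mem_PP (n : ℕ) : El.idp n ∈ PP := by
  intro l h; cases h

@[simp] lemma wd_mem_PP {l : List Bool} : El.wd l ∈ PP ↔ NS l := by
  constructor
  · intro h; exact h l rfl
  · intro h l' hl; cases hl; exact h

/-- On `PP` the rank is strictly monotone. -/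
lemma rk_lt {x y : El} (hx : x ∈ PP) (hy : y ∈ PP) (h : x < y) : rk x < rk y := by
  rcases lt_or_eq_of_le (rk_mono h.le) with h' | h'
  · exact h'
  exfalso
  cases x with
  | idp m =>
    cases y with
    | idp n => simp at h'; subst h'; exact lt_irrefl _ h
    | wd l =>
      have h1 : m ≤ lis l := h.le
      have h2 : NS l := wd_mem_PP.1 hy
      simp at h'
      subst h'
      have : ∀ z : List Bool, NS z → lis z < z.length := by
        intro z
        induction z with
        | nil => intro hz; simp [NS] at hz
        | cons a z ih =>
          intro hz
          cases a with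
          | false =>
            have : NS z := by
              unfold NS at hz ⊢
              rcases List.sublist_cons_iff.1 hz with h | ⟨r, hr, h⟩
              · exact h
              · simp at hr
            simpa using ih this
          | true =>
            have hf : false ∈ z := by
              unfold NS at hz
              rcases List.sublist_cons_iff.1 hz with h | ⟨r, hr, h⟩
              · exact h.subset (by simp)
              · simp at hr; subst hr; exact h.subset (by simp)
            have h1 : z.count true < z.length := by
              rcases lt_or_eq_of_le (List.count_le_length (a := true) (l := z)) with h | h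
              · exact h
              · have := List.count_eq_length.1 h false hf
                simp at this
            have h2 := lis_le_length z
            simp only [lis_true, List.length_cons]
            omega
      have := this l h2
      omega
  | wd l =>
    cases y with
    | idp n => exact h.le
    | wd l' =>
      have h1 : l <+ l' := h.le
      have := h1.eq_of_length (by simpa using h')
      subst this
      exact lt_irrefl _ h

/-- The open interval from `g` to `h` in `P`. -/
def Op (P : Set El) (g h : El) : Set El := {p | p ∈ P ∧ g < p ∧ p < h}

/-- Chains of `Q` for the strict order `r`. -/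
def IsCh {α : Type*} (r : α → α → Prop) (Q : Set α) (F : Finset α) : Prop :=
  (∀ x ∈ F, x ∈ Q) ∧ ∀ x ∈ F, ∀ y ∈ F, x ≠ y → r x y ∨ r y x

/-- Chains with `d` elements. -/
def IsFct {α : Type*} (r : α → α → Prop) (d : ℕ) (Q : Set α) (F : Finset α) : Prop :=
  IsCh r Q F ∧ F.card = d

open Classical in
/-- `Q` is finite, every chain of `Q` lies in a chain with `d` elements, and these chains have a
shelling (given by an injective function `f`; the smaller ones come first). -/
def Sh {α : Type*} (r : α → α → Prop) (d : ℕ) (Q : Set α) : Prop :=
  Q.Finite ∧ (∀ F, IsCh r Q F → ∃ G, IsFct r d Q G ∧ F ⊆ G) ∧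
    ∃ f : Finset α → ℕ, (∀ F G, IsFct r d Q F → IsFct r d Q G → f F = f G → F = G) ∧
      ∀ F G, IsFct r d Q F → IsFct r d Q G → f G < f F →
        ∃ H v, IsFct r d Q H ∧ f H < f F ∧ v ∈ F ∧ F ∩ G ⊆ F.erase v ∧ F.erase v ⊆ H

/-- Shellability of the open interval from `g` to `h` in `P`, with the right dimension. -/
def ShI (P : Set El) (g h : El) : Prop :=
  Sh (fun x y : El => x < y) (rk h - rk g - 1) (Op P g h)

end Pool.Agent.W_58cc_h2
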