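import Pool.Agent.W_58cc_h2.Bridge

/-!
# MP_58cc3c_co: from the word model to the final statement
-/

namespace Pool.Agent.W_58cc_h2

open List

/-- Positive part (section 5 of the proof). -/
def Pos : Prop :=
  ∀ w : List Bool, NS w → ¬ [true, true, true, false, false, false] <+ w →
    ¬ [true, true, false, true, false, false] <+ w →
    ∀ g : El, g ∈ PP → g < .wd w → ShI PP g (.wd w)

/-- Negative part (section 6 of the proof). -/
def Neg : Prop :=
  ∀ w : List Bool, NS w → ∀ k : ℕ, k ≤ 3 → k ≤ lis w →
    ([true, true, true, false, false, false] <+ w ∨ [true, true, false, true, false, false] <+ w) →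
    ∀ d : ℕ, ¬ Sh (fun x y : El => x < y) d (Op PP (.idp k) (.wd w))

theorem final_of (hp : Pos) (hn : Neg) : Final := by
  intro t ht
  obtain ⟨w, hw, rfl⟩ := exists_word ht
  rw [patLE_p456123 hw, patLE_p356124 hw]
  have pos : ¬ [true, true, true, false, false, false] <+ w →
      ¬ [true, true, false, true, false, false] <+ w → ∀ g : El, g ∈ PP →
      PatLE (toP g) (ofWord w) → Shellable (Delta (toP g) (ofWord w)) := by
    intro h1 h2 g hg hle
    by_cases hgw : g = .wd w
    · rw [hgw]; exact shellable_self _
    · rw [shellable_iff hg hw]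
      have : g ≤ .wd w := (patLE_toP (y := .wd w) hg (wd_mem_PP.2 hw)).1 hle
      exact ⟨_, hp w hw h1 h2 g hg (lt_of_le_of_ne this hgw)⟩
  constructor
  · intro k hk hle
    constructor
    · intro h
      have h1 := (shellable_iff (idp_mem_PP k) hw).1 h
      obtain ⟨d, hd⟩ := h1
      rw [patLE_idn_ofWord] at hle
      by_contra hcon
      exact hn w hw k hk hle (by tauto) d hd
    · rintro ⟨h1, h2⟩
      exact pos h1 h2 (.idp k) (idp_mem_PP k) hle
  · intro h1 h2 s hs
    obtain ⟨x, hx, rfl⟩ := exists_of_patLE hs
    exact pos h1 h2 x hx hs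

end Pool.Agent.W_58cc_h2
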