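import Pool.Agent.W_58cc_h2.AbsA

/-!
# Rank, finiteness and chains of identities in `El`
-/

namespace H58

open El

theorem Up0_count {z : List Bool} (h : false ∈ z) : z.count true < z.length := by
  apply lt_of_le_of_ne List.count_le_length
  intro he
  rw [List.count_eq_length] at he
  exact absurd (he false h) (by simp)

theorem lis_lt_length {l : List Bool} (h : Fw l) : lis l < l.length := by
  unfold Fw at h
  induction l with
  | nil => exact absurd h (by simp)
  | cons b z ih =>
    cases b
    · have h1 : [true, false].Sublist z := by
        cases h with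
        | cons _ h1 => exact h1
      have h2 := ih h1
      simp only [lis_false, List.length_cons]
      omega
    · have h1 : false ∈ z := by
        cases h with
        | cons _ h1 => exact h1.subset (by simp)
        | cons_cons _ h1 => exact h1.subset (by simp)
      have h2 := Up0_count h1
      have h3 := lis_le_length z
      simp only [lis_true, List.length_cons]
      omega

/-- the rank is strictly monotone except for `idp n < wd (sorted word of length n)`. -/
theorem rk_lt {a b : El} (h : a < b) (hb : (∃ s, a = wd s) ∨ b ∈ PP) : rk a < rk b := by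
  cases a with
  | idp m =>
    cases b with
    | idp n => exact (lt_id_id m n).1 h
    | wd l =>
      rcases hb with ⟨s, hs⟩ | hb
      · exact absurd hs (by simp)
      · exact lt_of_le_of_lt ((lt_id_wd m l).1 h) (lis_lt_length ((wd_mem_PP l).1 hb))
  | wd s =>
    cases b with
    | idp n => exact absurd h (by simp)
    | wd l => exact ((lt_wd_wd_len s l).1 h).2

/-- `{x | x < h}` is finite: sublists of a word and finitely many identities. -/
theorem finite_lt (h : El) : {x : El | x < h}.Finite := by
  cases h with
  | idp n =>
    apply ((Set.finite_Iio n).image idp).subset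
    intro x hx
    cases x with
    | idp m => exact ⟨m, (lt_id_id m n).1 hx, rfl⟩
    | wd s => exact absurd hx (by simp)
  | wd l =>
    have h1 : {s : List Bool | s ∈ l.sublists}.Finite := List.finite_toSet _
    apply (((Set.finite_Iic (lis l)).image idp).union (h1.image wd)).subset
    intro x hx
    cases x with
    | idp m => exact Or.inl ⟨m, (lt_id_wd m l).1 hx, rfl⟩
    | wd s =>
      refine Or.inr ⟨s, ?_, rfl⟩
      exact List.mem_sublists.2 ((lt_wd_wd s l).1 hx).1

theorem Op_finite (P : Set El) (g h : El) : (Op P g h).Finite := by
  exact (finite_lt h).subset fun x hx => hx.2.2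

/-- chains of identities (induction on `b`, `sh_cone`). -/
theorem sh_idchain (a b : ℕ) :
    Sh (· < ·) (b - a - 1) {x : El | ∃ n, x = idp n ∧ a < n ∧ n < b} := by
  have hempty : ∀ b, b ≤ a + 1 → {x : El | ∃ n, x = idp n ∧ a < n ∧ n < b} = ∅ := by
    intro b hb
    ext x
    simp only [Set.mem_setOf_eq, Set.mem_empty_iff_false, iff_false]
    rintro ⟨n, _, h1, h2⟩
    omega
  induction b with
  | zero =>
    rw [hempty 0 (by omega), show 0 - a - 1 = 0 by omega]
    exact sh_empty _
  | succ b ih =>
    by_cases hab : a < b
    · have h1 : {x : El | ∃ n, x = idp n ∧ a < n ∧ n < b + 1} =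
          insert (idp b) {x : El | ∃ n, x = idp n ∧ a < n ∧ n < b} := by
        ext x
        simp only [Set.mem_setOf_eq, Set.mem_insert_iff]
        constructor
        · rintro ⟨n, rfl, h1, h2⟩
          by_cases h3 : n = b
          · exact Or.inl (by rw [h3])
          · exact Or.inr ⟨n, rfl, h1, by omega⟩
        · rintro (rfl | ⟨n, rfl, h1, h2⟩)
          · exact ⟨b, rfl, hab, by omega⟩
          · exact ⟨n, rfl, h1, by omega⟩
      rw [h1, show b + 1 - a - 1 = (b - a - 1) + 1 by omega]
      apply sh_cone _ _ _ ih
      · rintro ⟨n, h2, h3, h4⟩
        have h5 : b = n := El.idp.inj h2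
        omega
      · rintro q ⟨n, rfl, h3, h4⟩
        exact Or.inr ((lt_id_id n b).2 h4)
    · rw [hempty (b + 1) (by omega), show b + 1 - a - 1 = 0 by omega]
      exact sh_empty _

end H58
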