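import Pool.Agent.W_58cc_h2.NegA
import Pool.Agent.W_58cc_h2.Up0

/-!
# The negative theorem for words (paper proof, section 6)
-/

namespace H58

open El

/-- the elements of `PP` strictly between `idp 3` and `111000`, resp. `110100`: words of length 4
or 5 with three ones or three zeros; comparable ones have the same number of ones `= 3` or `≠ 3`. -/
theorem between (v : List Bool) (hv : v = [true, true, true, false, false, false] ∨
    v = [true, true, false, true, false, false]) (x : El) (hx : x ∈ PP) (h1 : idp 3 < x)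
    (h2 : x < wd v) : ∃ l, x = wd l ∧ (l.length = 4 ∨ l.length = 5) ∧
      (l.count true = 3 ∨ l.count false = 3) := by
  cases x with
  | idp n =>
    exfalso
    rw [lt_id_id] at h1
    rw [lt_id_wd] at h2
    have : lis v = 3 := by rcases hv with rfl | rfl <;> rfl
    omega
  | wd l =>
    refine ⟨l, rfl, ?_⟩
    rw [wd_mem_PP] at hx
    rw [lt_id_wd] at h1
    rw [lt_wd_wd_len] at h2
    have hl := lis_lt_length hx
    have hlen : l.length < 6 := by
      rcases hv with rfl | rfl <;> exact h2.2
    refine ⟨by omega, ?_⟩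
    have k1 : ∀ l ∈ [true, true, true, false, false, false].sublists, 3 ≤ lis l →
        lis l < l.length → l.length < 6 → (l.count true = 3 ∨ l.count false = 3) := by decide
    have k2 : ∀ l ∈ [true, true, false, true, false, false].sublists, 3 ≤ lis l →
        lis l < l.length → l.length < 6 → (l.count true = 3 ∨ l.count false = 3) := by decide
    rcases hv with rfl | rfl
    · exact k1 l (List.mem_sublists.2 h2.1) h1 hl hlen
    · exact k2 l (List.mem_sublists.2 h2.1) h1 hl hlen

/-- **Negative theorem**: `k ≤ 3`, `w` contains `111000` or `110100`: the open interval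
`(idp k, w)` is not shellable. -/
theorem neg (w : List Bool) (k : ℕ) (hk : k ≤ 3)
    (hw : [true, true, true, false, false, false].Sublist w ∨
      [true, true, false, true, false, false].Sublist w) (d : ℕ) :
    ¬ Sh (· < ·) d (Op PP (idp k) (wd w)) := by
  classical
  obtain ⟨v, hv, hvw⟩ : ∃ v, (v = [true, true, true, false, false, false] ∨
    v = [true, true, false, true, false, false]) ∧ v.Sublist w := by
    rcases hw with h | h
    · exact ⟨_, Or.inl rfl, h⟩
    · exact ⟨_, Or.inr rfl, h⟩
  intro hsh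
  obtain ⟨a1, ha1⟩ : ∃ a : El, a = wd [true, true, true, false] := ⟨_, rfl⟩
  obtain ⟨b1, hb1⟩ : ∃ a : El, a = wd [true, true, true, false, false] := ⟨_, rfl⟩
  obtain ⟨a2, ha2⟩ : ∃ a : El, a = wd [true, false, false, false] := ⟨_, rfl⟩
  obtain ⟨b2, hb2⟩ : ∃ a : El, a = wd [true, true, false, false, false] := ⟨_, rfl⟩
  have l1 : idp 3 < a1 := by rw [ha1, lt_id_wd]; decide
  have l1' : idp 3 < a2 := by rw [ha2, lt_id_wd]; decide
  have l2 : a1 < b1 := by rw [ha1, hb1, lt_wd_wd]; decide
  have l2' : a2 < b2 := by rw [ha2, hb2, lt_wd_wd]; decide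
  have l3 : b1 < wd v := by
    rw [hb1, lt_wd_wd]
    rcases hv with rfl | rfl <;> decide
  have l3' : b2 < wd v := by
    rw [hb2, lt_wd_wd]
    rcases hv with rfl | rfl <;> decide
  have l4 : wd v ≤ wd w := (le_wd_wd v w).2 hvw
  have l0 : idp k ≤ idp 3 := (le_id_id k 3).2 hk
  have pa1 : a1 ∈ PP := by rw [ha1, wd_mem_PP]; unfold Fw; decide
  have pa2 : a2 ∈ PP := by rw [ha2, wd_mem_PP]; unfold Fw; decide
  have pb1 : b1 ∈ PP := by rw [hb1, wd_mem_PP]; unfold Fw; decide
  have pb2 : b2 ∈ PP := by rw [hb2, wd_mem_PP]; unfold Fw; decide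
  have pv : wd v ∈ PP := by
    rw [wd_mem_PP]; unfold Fw
    rcases hv with rfl | rfl <;> decide
  obtain ⟨Q, hQ⟩ : ∃ Q, Q = Op PP (idp k) (wd w) := ⟨_, rfl⟩
  rw [← hQ] at hsh
  have qa1 : a1 ∈ Q := by
    rw [hQ]; exact ⟨pa1, l0.trans_lt l1, (l2.trans l3).trans_le l4⟩
  have qb1 : b1 ∈ Q := by
    rw [hQ]; exact ⟨pb1, l0.trans_lt (l1.trans l2), l3.trans_le l4⟩
  have qa2 : a2 ∈ Q := by
    rw [hQ]; exact ⟨pa2, l0.trans_lt l1', (l2'.trans l3').trans_le l4⟩
  have qb2 : b2 ∈ Q := by
    rw [hQ]; exact ⟨pb2, l0.trans_lt (l1'.trans l2'), l3'.trans_le l4⟩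
  have hlow : ∀ x ∈ Q, idp 3 ∉ Q → idp 3 < x := by
    intro x hx h3
    rw [hQ] at hx h3
    have h5 : idp k = idp 3 := by
      by_contra hcon
      exact h3 ⟨idp_mem_PP 3, lt_of_le_of_ne l0 hcon, (l1.trans (l2.trans l3)).trans_le l4⟩
    rw [← h5]
    exact hx.2.1
  have hhigh : ∀ x ∈ Q, wd v ∉ Q → x < wd v := by
    intro x hx h3
    rw [hQ] at hx h3
    have h5 : wd v = wd w := by
      by_contra hcon
      exact h3 ⟨pv, l0.trans_lt (l1.trans (l2.trans l3)), lt_of_le_of_ne l4 hcon⟩
    rw [h5]
    exact hx.2.2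
  have hQP : ∀ x ∈ Q, x ∈ PP := by
    intro x hx
    rw [hQ] at hx
    exact hx.1
  have hA : ∀ F : Finset El, (∀ x ∈ F, x ∈ Q) → Chn (· < ·) F → (idp 3 ∈ Q → idp 3 ∈ F) →
      (wd v ∈ Q → wd v ∈ F) → ∀ x ∈ F, (x ≤ idp 3 ∨ wd v ≤ x) ∨ (idp 3 < x ∧ x < wd v) := by
    intro F hF hc h3 hvF x hx
    have t1 : x ≤ idp 3 ∨ idp 3 < x := by
      by_cases h : idp 3 ∈ Q
      · by_cases he : x = idp 3
        · exact Or.inl he.le
        · rcases hc x hx _ (h3 h) he with h4 | h4
          · exact Or.inl h4.le
          · exact Or.inr h4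
      · exact Or.inr (hlow x (hF x hx) h)
    have t2 : wd v ≤ x ∨ x < wd v := by
      by_cases h : wd v ∈ Q
      · by_cases he : x = wd v
        · exact Or.inl he.ge
        · rcases hc x hx _ (hvF h) he with h4 | h4
          · exact Or.inr h4
          · exact Or.inl h4.le
      · exact Or.inr (hhigh x (hF x hx) h)
    tauto
  -- the first facet
  obtain ⟨F1, hS, hF1⟩ : ∃ G, (({idp 3, a1, b1, wd v} : Finset El).filter (· ∈ Q)) ⊆ G ∧
      Fct (· < ·) d Q G := by
    apply hsh.2.1
    · intro a ha
      exact (Finset.mem_filter.1 ha).2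
    · intro a ha b hb hne
      have ha' := (Finset.mem_filter.1 ha).1
      have hb' := (Finset.mem_filter.1 hb).1
      simp only [Finset.mem_insert, Finset.mem_singleton] at ha' hb'
      rcases ha' with rfl | rfl | rfl | rfl <;> rcases hb' with rfl | rfl | rfl | rfl
      · exact absurd rfl hne
      · exact Or.inl l1
      · exact Or.inl (l1.trans l2)
      · exact Or.inl (l1.trans (l2.trans l3))
      · exact Or.inr l1
      · exact absurd rfl hne
      · exact Or.inl l2
      · exact Or.inl (l2.trans l3)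
      · exact Or.inr (l1.trans l2)
      · exact Or.inr l2
      · exact absurd rfl hne
      · exact Or.inl l3
      · exact Or.inr (l1.trans (l2.trans l3))
      · exact Or.inr (l2.trans l3)
      · exact Or.inr l3
      · exact absurd rfl hne
  have f1a : a1 ∈ F1 := hS (Finset.mem_filter.2 ⟨by simp, qa1⟩)
  have f1b : b1 ∈ F1 := hS (Finset.mem_filter.2 ⟨by simp, qb1⟩)
  have f13 : idp 3 ∈ Q → idp 3 ∈ F1 := fun h => hS (Finset.mem_filter.2 ⟨by simp, h⟩)
  have f1v : wd v ∈ Q → wd v ∈ F1 := fun h => hS (Finset.mem_filter.2 ⟨by simp, h⟩)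
  obtain ⟨D, hD⟩ : ∃ D, D = (F1.erase a1).erase b1 := ⟨_, rfl⟩
  have hDm : ∀ x, x ∈ D ↔ x ≠ b1 ∧ x ≠ a1 ∧ x ∈ F1 := by
    intro x
    rw [hD, Finset.mem_erase, Finset.mem_erase]
  have hDcard : D.card + 2 = d := by
    have h1 : b1 ∈ F1.erase a1 := Finset.mem_erase.2 ⟨l2.ne', f1b⟩
    have h2 : (F1.erase a1).card = F1.card - 1 := Finset.card_erase_of_mem f1a
    have h3 : 0 < (F1.erase a1).card := Finset.card_pos.2 ⟨_, h1⟩
    rw [hD, Finset.card_erase_of_mem h1, ← hF1.2.2]
    omega
  have d3 : idp 3 ∈ Q → idp 3 ∈ D := fun h =>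
    (hDm _).2 ⟨(l1.trans l2).ne, l1.ne, f13 h⟩
  have dv : wd v ∈ Q → wd v ∈ D := fun h =>
    (hDm _).2 ⟨l3.ne', (l2.trans l3).ne', f1v h⟩
  have hDQ : ∀ x ∈ D, x ∈ Q := fun x hx => hF1.1 x ((hDm x).1 hx).2.2
  have hD1 : ∀ x ∈ D, x ≤ idp 3 ∨ wd v ≤ x := by
    intro x hx
    obtain ⟨h1, h2, h3⟩ := (hDm x).1 hx
    rcases hA F1 hF1.1 hF1.2.1 f13 f1v x h3 with h | ⟨h4, h5⟩
    · exact h
    · exfalso
      obtain ⟨l, rfl, hl, -⟩ := between v hv x (hQP x (hF1.1 x h3)) h4 h5
      rcases hl with hl | hl
      · rcases hF1.2.1 _ h3 _ f1a h2 with h6 | h6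
        · rw [ha1, lt_wd_wd_len] at h6
          have := h6.2
          simp at this
          omega
        · rw [ha1, lt_wd_wd_len] at h6
          have := h6.2
          simp at this
          omega
      · rcases hF1.2.1 _ h3 _ f1b h1 with h6 | h6
        · rw [hb1, lt_wd_wd_len] at h6
          have := h6.2
          simp at this
          omega
        · rw [hb1, lt_wd_wd_len] at h6
          have := h6.2
          simp at this
          omega
  have hDc : Chn (· < ·) D := fun x hx y hy hne =>
    hF1.2.1 x ((hDm x).1 hx).2.2 y ((hDm y).1 hy).2.2 hne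
  -- the second facet
  have a2D : a2 ∉ D := by
    intro h
    rcases hD1 _ h with h1 | h1
    · exact absurd (l1'.trans_le h1) (lt_irrefl _)
    · exact absurd ((l2'.trans l3').trans_le h1) (lt_irrefl _)
  have b2D : b2 ∉ D := by
    intro h
    rcases hD1 _ h with h1 | h1
    · exact absurd ((l1'.trans l2').trans_le h1) (lt_irrefl _)
    · exact absurd (l3'.trans_le h1) (lt_irrefl _)
  have ca2 : ∀ x ∈ D, x < a2 ∨ a2 < x := by
    intro x hx
    rcases hD1 x hx with h | h
    · exact Or.inl (h.trans_lt l1')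
    · exact Or.inr ((l2'.trans l3').trans_le h)
  have cb2 : ∀ x ∈ D, x < b2 ∨ b2 < x := by
    intro x hx
    rcases hD1 x hx with h | h
    · exact Or.inl (h.trans_lt (l1'.trans l2'))
    · exact Or.inr (l3'.trans_le h)
  have hF2 : Fct (· < ·) d Q (insert a2 (insert b2 D)) := by
    refine ⟨?_, ?_, ?_⟩
    · intro x hx
      simp only [Finset.mem_insert] at hx
      rcases hx with rfl | rfl | hx
      · exact qa2
      · exact qb2
      · exact hDQ x hx
    · intro x hx y hy hne
      simp only [Finset.mem_insert] at hx hy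
      rcases hx with rfl | rfl | hx
      · rcases hy with rfl | rfl | hy
        · exact absurd rfl hne
        · exact Or.inl l2'
        · exact (ca2 y hy).symm
      · rcases hy with rfl | rfl | hy
        · exact Or.inr l2'
        · exact absurd rfl hne
        · exact (cb2 y hy).symm
      · rcases hy with rfl | rfl | hy
        · exact ca2 x hx
        · exact cb2 x hx
        · exact hDc x hx y hy hne
    · rw [Finset.card_insert_of_notMem, Finset.card_insert_of_notMem b2D]
      · omega
      · rw [Finset.mem_insert]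
        rintro (h | h)
        · exact l2'.ne h
        · exact a2D h
  -- colours
  have hmid : ∀ F, Fct (· < ·) d Q F → D ⊆ F → ∀ a ∈ F, a ∉ D → idp 3 < a ∧ a < wd v := by
    intro F hF hDF a ha haD
    rcases hA F hF.1 hF.2.1 (fun h => hDF (d3 h)) (fun h => hDF (dv h)) a ha with h | h
    · exfalso
      have haF1 : a ∉ F1 := by
        intro haF
        have : a = b1 ∨ a = a1 := by
          by_contra hcon
          push Not at hcon
          exact haD ((hDm a).2 ⟨hcon.1, hcon.2, haF⟩)
        rcases this with rfl | rfl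
        · rcases h with h | h
          · exact absurd ((l1.trans l2).trans_le h) (lt_irrefl _)
          · exact absurd (l3.trans_le h) (lt_irrefl _)
        · rcases h with h | h
          · exact absurd (l1.trans_le h) (lt_irrefl _)
          · exact absurd ((l2.trans l3).trans_le h) (lt_irrefl _)
      have hcomp : ∀ x ∈ F1, a < x ∨ x < a := by
        intro x hx
        by_cases hxb : x = b1
        · rw [hxb]
          rcases h with h | h
          · exact Or.inl (h.trans_lt (l1.trans l2))
          · exact Or.inr (l3.trans_le h)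
        · by_cases hxa : x = a1
          · rw [hxa]
            rcases h with h | h
            · exact Or.inl (h.trans_lt l1)
            · exact Or.inr ((l2.trans l3).trans_le h)
          · have hxD : x ∈ D := (hDm x).2 ⟨hxb, hxa, hx⟩
            exact hF.2.1 a ha x (hDF hxD) (fun he => haD (he ▸ hxD))
      have hle := sh_card_le hsh (insert a F1) (by
        intro x hx
        rcases Finset.mem_insert.1 hx with rfl | hx
        · exact hF.1 _ ha
        · exact hF1.1 x hx) (by
        intro x hx y hy hne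
        rcases Finset.mem_insert.1 hx with hx | hx
        · rcases Finset.mem_insert.1 hy with hy | hy
          · exact absurd (hx.trans hy.symm) hne
          · rw [hx]; exact hcomp y hy
        · rcases Finset.mem_insert.1 hy with hy | hy
          · rw [hy]; exact (hcomp x hx).symm
          · exact hF1.2.1 x hx y hy hne)
      rw [Finset.card_insert_of_notMem haF1, hF1.2.2] at hle
      omega
    · exact h
  have hcnt : ∀ l : List Bool, l.count true + l.count false = l.length := by
    intro l
    induction l with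
    | nil => rfl
    | cons b z ih => cases b <;> simp <;> omega
  have key := colour_const hsh D hDcard (fun x => ∃ l, x = wd l ∧ l.count true = 3) (by
    intro F hF hDF a ha haD b hb hbD
    by_cases hab : a = b
    · rw [hab]
    obtain ⟨p1, p2⟩ := hmid F hF hDF a ha haD
    obtain ⟨q1, q2⟩ := hmid F hF hDF b hb hbD
    obtain ⟨l, rfl, hl, hl2⟩ := between v hv a (hQP a (hF.1 a ha)) p1 p2
    obtain ⟨m, rfl, hm, hm2⟩ := between v hv b (hQP b (hF.1 b hb)) q1 q2
    have e1 : (∃ l', wd l = wd l' ∧ l'.count true = 3) ↔ l.count true = 3 := by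
      constructor
      · rintro ⟨l', h, h'⟩
        rw [El.wd.inj h]; exact h'
      · intro h; exact ⟨l, rfl, h⟩
    have e2 : (∃ l', wd m = wd l' ∧ l'.count true = 3) ↔ m.count true = 3 := by
      constructor
      · rintro ⟨l', h, h'⟩
        rw [El.wd.inj h]; exact h'
      · intro h; exact ⟨m, rfl, h⟩
    simp only [e1, e2]
    have c1 := hcnt l
    have c2 := hcnt m
    rcases hF.2.1 _ ha _ hb hab with h | h
    · rw [lt_wd_wd_len] at h
      have h1 := h.1.count_le true
      have h2 := h.1.count_le false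
      have h3 := h.2
      constructor <;> intro h4 <;> omega
    · rw [lt_wd_wd_len] at h
      have h1 := h.1.count_le true
      have h2 := h.1.count_le false
      have h3 := h.2
      constructor <;> intro h4 <;> omega) F1 (insert a2 (insert b2 D)) hF1 hF2
    (fun x hx => ((hDm x).1 hx).2.2) (fun x hx => by simp [hx]) a1 a2 f1a
    (fun h => ((hDm _).1 h).2.1 rfl) (by simp) a2D
  have : ∃ l, a2 = wd l ∧ l.count true = 3 := key.1 ⟨_, ha1, by decide⟩
  obtain ⟨l, h1, h2⟩ := this
  rw [ha2] at h1
  rw [← El.wd.inj h1] at h2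
  simp at h2

end H58
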