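import Pool.Agent.W_58cc_h2.Sub

/-!
# Mirror symmetry: reverse of the complement
-/

namespace H58

open El

@[simp] theorem mir_mir (l : List Bool) : mir (mir l) = l := by
  unfold mir
  rw [List.map_reverse, List.reverse_reverse, List.map_map]
  have h : ((fun b : Bool => !b) ∘ fun b : Bool => !b) = id := by
    funext b
    cases b <;> rfl
  rw [h, List.map_id]

@[simp] theorem length_mir (l : List Bool) : (mir l).length = l.length := by
  unfold mir
  rw [List.length_reverse, List.length_map]

theorem mir_append (l l' : List Bool) : mir (l ++ l') = mir l' ++ mir l := by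
  unfold mir
  rw [List.map_append, List.reverse_append]

private theorem Mir_mono {l l' : List Bool} (h : l.Sublist l') : (mir l).Sublist (mir l') :=
  (h.map _).reverse

theorem mir_sublist (l l' : List Bool) : (mir l).Sublist (mir l') ↔ l.Sublist l' := by
  constructor
  · intro h
    have h1 := Mir_mono h
    rwa [mir_mir, mir_mir] at h1
  · exact Mir_mono

private theorem Mir_sublist_mir (l l' : List Bool) : l.Sublist (mir l') ↔ (mir l).Sublist l' := by
  rw [← mir_sublist l (mir l'), mir_mir]

theorem Fw_mir (l : List Bool) : Fw (mir l) ↔ Fw l := by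
  unfold Fw
  rw [Mir_sublist_mir]
  rfl

private theorem Mir_lis_replicate (b : ℕ) : lis (List.replicate b true) = b := by
  induction b with
  | zero => rfl
  | succ b ih =>
    rw [List.replicate_succ, lis_true, ih, List.count_replicate_self]
    omega

private theorem Mir_lis_replicate2 (a b : ℕ) :
    lis (List.replicate a false ++ List.replicate b true) = a + b := by
  induction a with
  | zero => rw [List.replicate_zero, List.nil_append, Mir_lis_replicate, zero_add]
  | succ a ih =>
    rw [List.replicate_succ, List.cons_append, lis_false, ih]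
    omega

private theorem Mir_exists (l : List Bool) : ∀ k, k ≤ lis l → ∃ a b, a + b = k ∧
    (List.replicate a false ++ List.replicate b true).Sublist l := by
  induction l with
  | nil =>
    intro k hk
    rw [lis_nil] at hk
    exact ⟨0, 0, by omega, by simp⟩
  | cons c z ih =>
    intro k hk
    cases c with
    | false =>
      rw [lis_false] at hk
      cases k with
      | zero => exact ⟨0, 0, rfl, by simp⟩
      | succ k =>
        obtain ⟨a, b, hab, h⟩ := ih k (by omega)
        refine ⟨a + 1, b, by omega, ?_⟩
        rw [List.replicate_succ, List.cons_append]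
        exact h.cons_cons false
    | true =>
      rw [lis_true] at hk
      by_cases h1 : k ≤ lis z
      · obtain ⟨a, b, hab, h⟩ := ih k h1
        exact ⟨a, b, hab, h.cons true⟩
      · refine ⟨0, k, by omega, ?_⟩
        rw [List.replicate_zero, List.nil_append]
        have h2 : k ≤ (true :: z).count true := by
          rw [List.count_cons_self]
          omega
        exact List.replicate_sublist_iff.2 h2

/-- a word `l` has `k ≤ lis l` iff it contains `0^a 1^b` with `a + b = k`. -/
theorem le_lis_iff (k : ℕ) (l : List Bool) :
    k ≤ lis l ↔ ∃ a b, a + b = k ∧ (List.replicate a false ++ List.replicate b true).Sublist l := by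
  constructor
  · exact Mir_exists l k
  · rintro ⟨a, b, rfl, h⟩
    have h1 := lis_mono h
    rwa [Mir_lis_replicate2] at h1

private theorem Mir_replicate (a b : ℕ) :
    mir (List.replicate a false ++ List.replicate b true) =
      List.replicate b false ++ List.replicate a true := by
  unfold mir
  rw [List.map_append, List.map_replicate, List.map_replicate, List.reverse_append,
    List.reverse_replicate, List.reverse_replicate]
  rfl

theorem lis_mir (l : List Bool) : lis (mir l) = lis l := by
  apply eq_of_forall_le_iff
  intro k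
  rw [le_lis_iff, le_lis_iff]
  constructor
  · rintro ⟨a, b, hab, h⟩
    rw [Mir_sublist_mir, Mir_replicate] at h
    exact ⟨b, a, by omega, h⟩
  · rintro ⟨a, b, hab, h⟩
    refine ⟨b, a, by omega, ?_⟩
    rw [Mir_sublist_mir, Mir_replicate]
    exact h

/-- the mirror on `El` -/
private def Mir_phi : El → El
  | idp n => idp n
  | wd l => wd (mir l)

private theorem Mir_phi_phi (x : El) : Mir_phi (Mir_phi x) = x := by
  cases x with
  | idp n => rfl
  | wd l => simp only [Mir_phi, mir_mir]

private theorem Mir_phi_le (a b : El) : Mir_phi a ≤ Mir_phi b ↔ a ≤ b := by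
  cases a <;> cases b <;> simp [Mir_phi, lis_mir, mir_sublist]

private theorem Mir_phi_lt (a b : El) : Mir_phi a < Mir_phi b ↔ a < b := by
  rw [lt_iff_le_not_ge, lt_iff_le_not_ge, Mir_phi_le, Mir_phi_le]

private theorem Mir_phi_mem (x : El) : Mir_phi x ∈ PP ↔ x ∈ PP := by
  cases x <;> simp [Mir_phi, Fw_mir]

/-- transport of `T` along the mirror (`sh_image` with `idp n ↦ idp n`, `wd l ↦ wd (mir l)`). -/
theorem T_mir (k : ℕ) (w : List Bool) (h : T k (mir w)) : T k w := by
  unfold T ShI at h ⊢
  have h1 := sh_image (s := (· < ·)) Mir_phi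
    (fun a _ b _ hab => by rw [← Mir_phi_phi a, hab, Mir_phi_phi])
    (fun a _ b _ => (Mir_phi_lt a b).symm) h
  have h2 : Mir_phi '' Op PP (idp k) (wd (mir w)) = Op PP (idp k) (wd w) := by
    ext x
    constructor
    · rintro ⟨y, ⟨hy1, hy2, hy3⟩, rfl⟩
      refine ⟨(Mir_phi_mem y).2 hy1, (Mir_phi_lt (idp k) y).2 hy2, ?_⟩
      have h3 := (Mir_phi_lt y (wd (mir w))).2 hy3
      have h4 : Mir_phi (wd (mir w)) = wd w := by simp only [Mir_phi, mir_mir]
      rwa [h4] at h3
    · rintro ⟨hx1, hx2, hx3⟩
      refine ⟨Mir_phi x, ⟨(Mir_phi_mem x).2 hx1, (Mir_phi_lt (idp k) x).2 hx2,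
        (Mir_phi_lt x (wd w)).2 hx3⟩, Mir_phi_phi x⟩
  rw [h2] at h1
  have h5 : rk (wd (mir w)) = rk (wd w) := by simp
  rwa [h5] at h1

end H58
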