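import Pool.Agent.W_58cc_h2.Red10
import Pool.Agent.W_58cc_h2.Core
import Pool.Agent.W_58cc_h2.Mir

/-!
# The positive theorem for words (paper proof, section 5)
-/

namespace H58

open El

/-- `111000` -/
def pat1 : List Bool := [true, true, true, false, false, false]
/-- `110100` -/
def pat2 : List Bool := [true, true, false, true, false, false]

private theorem Pos_shape (u : List Bool) (h : ¬ [false, true].Sublist u) :
    ∃ a b, u = List.replicate a true ++ List.replicate b false := by
  induction u with
  | nil => exact ⟨0, 0, rfl⟩
  | cons c z ih =>
    cases c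
    · refine ⟨0, z.length + 1, ?_⟩
      rw [List.replicate_zero, List.nil_append, List.replicate_succ, List.cons.injEq]
      refine ⟨rfl, ?_⟩
      rw [List.eq_replicate_iff]
      refine ⟨rfl, fun d hd => ?_⟩
      cases d
      · rfl
      · exact absurd ((List.singleton_sublist.2 hd).cons_cons false) h
    · obtain ⟨a, b, rfl⟩ := ih fun h1 => h (h1.cons true)
      exact ⟨a + 1, b, by rw [List.replicate_succ, List.cons_append]⟩

/-- the remaining words: `w` starts with `11`, ends with `00`, avoids both patterns: `1^r 00` or
`110^t`. -/
theorem core_shape (u : List Bool) (h1 : ¬ pat1.Sublist (true :: true :: (u ++ [false, false])))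
    (h2 : ¬ pat2.Sublist (true :: true :: (u ++ [false, false]))) :
    (∃ r, 2 ≤ r ∧ true :: true :: (u ++ [false, false]) = List.replicate r true ++ [false, false]) ∨
    (∃ t, 2 ≤ t ∧ true :: true :: (u ++ [false, false]) = [true, true] ++ List.replicate t false) := by
  obtain ⟨a, b, rfl⟩ := Pos_shape u (by
    intro h
    apply h2
    exact ((h.append (List.Sublist.refl [false, false])).cons_cons true).cons_cons true)
  cases b with
  | zero =>
    left
    refine ⟨a + 2, by omega, ?_⟩
    rw [List.replicate_zero, List.append_nil, List.replicate_succ, List.replicate_succ]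
    rfl
  | succ b =>
    cases a with
    | zero =>
      right
      refine ⟨b + 1 + 2, by omega, ?_⟩
      rw [List.replicate_zero, List.nil_append, List.replicate_add (b + 1) 2]
      rfl
    | succ a =>
      exfalso
      apply h1
      have h3 : [true, false].Sublist
          (List.replicate (a + 1) true ++ List.replicate (b + 1) false) := by
        have h4 : [true].Sublist (List.replicate (a + 1) true) := by
          rw [List.replicate_succ]
          exact (List.nil_sublist _).cons_cons true
        have h5 : [false].Sublist (List.replicate (b + 1) false) := by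
          rw [List.replicate_succ]
          exact (List.nil_sublist _).cons_cons false
        exact h4.append h5
      exact ((h3.append (List.Sublist.refl [false, false])).cons_cons true).cons_cons true

private theorem Pos_count_false (w : List Bool) : w.count false ≤ lis w := by
  induction w with
  | nil => simp
  | cons b z ih =>
    cases b
    · simp only [List.count_cons_self, lis_false]
      omega
    · have h : (true :: z).count false = z.count false := by simp
      rw [h, lis_true]
      omega

private theorem Pos_two_le (w : List Bool) (h : 3 ≤ w.length) : 2 ≤ lis w := by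
  have h1 := Pos_count_false w
  have h2 := count_le_lis w
  have h3 : w.count false + w.count true = w.length := by
    induction w with
    | nil => rfl
    | cons b z ih =>
      clear h h1 h2 ih
      have : ∀ l : List Bool, l.count false + l.count true = l.length := by
        intro l
        induction l with
        | nil => rfl
        | cons b z ih =>
          cases b
          · simp only [List.count_cons_self, List.length_cons]
            have : (false :: z).count true = z.count true := by simp
            omega
          · simp only [List.count_cons_self, List.length_cons]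
            have : (true :: z).count false = z.count false := by simp
            omega
      exact this _
  omega

private theorem Pos_lis_core (r : ℕ) : lis (List.replicate r true ++ [false, false]) = max r 2 := by
  induction r with
  | zero => rfl
  | succ r ih =>
    have h : (List.replicate r true ++ [false, false]).count true = r := by
      rw [List.count_append, List.count_replicate_self]
      rfl
    rw [List.replicate_succ, List.cons_append, lis_true, ih, h]
    omega

private theorem Pos_step (n : ℕ) (IH : ∀ w : List Bool, w.length < n → Fw w → ¬ pat1.Sublist w →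
    ¬ pat2.Sublist w → ∀ k, k ≤ lis w → T k w) (w : List Bool) (hn : w.length = n) (hF : Fw w)
    (h1 : ¬ pat1.Sublist w) (h2 : ¬ pat2.Sublist w) (k : ℕ) (hk1 : 1 ≤ k) (hk : k ≤ lis w)
    (hs : (∃ w', w = false :: w') ∨ ∃ w2, w = true :: false :: w2) : T k w := by
  obtain ⟨j, rfl⟩ : ∃ j, k = j + 1 := ⟨k - 1, by omega⟩
  rcases hs with ⟨w', rfl⟩ | ⟨w2, rfl⟩
  · have hF' : Fw w' := by
      unfold Fw at hF ⊢
      cases hF with
      | cons _ h => exact h
    have hs' : w'.Sublist (false :: w') := List.sublist_cons_self _ _
    rw [List.length_cons] at hn
    rw [lis_false] at hk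
    refine red0 j w' hF' (by omega) ?_ ?_
    · exact IH w' (by omega) hF' (fun h => h1 (h.trans hs')) (fun h => h2 (h.trans hs')) j (by omega)
    · intro x hx hxw hl
      have hlen := hxw.length_le
      exact IH _ (by omega) hx (fun h => h1 (h.trans (hxw.trans hs')))
        (fun h => h2 (h.trans (hxw.trans hs'))) _ hl
  · rw [List.length_cons, List.length_cons] at hn
    rw [lis_10] at hk
    have hs' : w2.Sublist (true :: false :: w2) :=
      (List.sublist_cons_self _ _).trans (List.sublist_cons_self _ _)
    refine red10 j w2 (by omega) ?_ ?_
    · intro x hx hxw hl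
      have hlen := hxw.length_le
      rw [List.length_cons] at hlen
      have hs2 : (true :: true :: x).Sublist (true :: false :: w2) := (hxw.cons false).cons_cons true
      refine IH _ ?_ hx (fun h => h1 (h.trans hs2)) (fun h => h2 (h.trans hs2)) _ hl
      rw [List.length_cons, List.length_cons]
      omega
    · intro y hy hyw hl
      have hlen := hyw.length_le
      exact IH _ (by omega) hy (fun h => h1 (h.trans (hyw.trans hs')))
        (fun h => h2 (h.trans (hyw.trans hs'))) _ hl

private theorem Pos_two (n : ℕ) (IH : ∀ w : List Bool, w.length < n → Fw w → ¬ pat1.Sublist w →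
    ¬ pat2.Sublist w → ∀ k, k ≤ lis w → T k w) (w : List Bool) (hn : w.length = n) (hF : Fw w)
    (h1 : ¬ pat1.Sublist w) (h2 : ¬ pat2.Sublist w) (k : ℕ) (hk2 : 2 ≤ k) (hk : k ≤ lis w) :
    T k w := by
  by_cases hs : (∃ w', w = false :: w') ∨ ∃ w2, w = true :: false :: w2
  · exact Pos_step n IH w hn hF h1 h2 k (by omega) hk hs
  by_cases hs2 : (∃ w', mir w = false :: w') ∨ ∃ w2, mir w = true :: false :: w2
  · apply T_mir
    refine Pos_step n IH (mir w) (by rw [length_mir, hn]) ((Fw_mir w).2 hF) ?_ ?_ k (by omega)
      (by rw [lis_mir]; exact hk) hs2
    · intro h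
      apply h1
      rw [← mir_sublist]
      exact h
    · intro h
      apply h2
      rw [← mir_sublist]
      exact h
  -- now `w = 11v` and `mir w = 11z`
  have shape : ∀ v : List Bool, 2 ≤ v.length →
      ¬ ((∃ w', v = false :: w') ∨ ∃ w2, v = true :: false :: w2) →
      ∃ z, v = true :: true :: z := by
    intro v hv hns
    match v, hv, hns with
    | [], hv, _ => simp at hv
    | [_], hv, _ => simp at hv
    | false :: b :: z, _, hns => exact absurd (Or.inl ⟨_, rfl⟩) hns
    | true :: false :: z, _, hns => exact absurd (Or.inr ⟨_, rfl⟩) hns
    | true :: true :: z, _, _ => exact ⟨z, rfl⟩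
  have hlen : 2 ≤ w.length := List.Sublist.length_le hF
  obtain ⟨v, hv⟩ := shape w hlen hs
  obtain ⟨z, hz⟩ := shape (mir w) (by rw [length_mir]; exact hlen) hs2
  have hw : w = mir z ++ [false, false] := by
    rw [← mir_mir w, hz]
    have : (true :: true :: z) = [true, true] ++ z := rfl
    rw [this, mir_append]
    rfl
  have hu : ∃ u, w = true :: true :: (u ++ [false, false]) := by
    rw [hw] at hv
    match hm : mir z, hv with
    | [], hv => simp at hv
    | [a], hv => simp at hv
    | a :: b :: u, hv =>
      simp only [List.cons_append, List.cons.injEq] at hv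
      refine ⟨u, ?_⟩
      rw [hw, hm, hv.1, hv.2.1]
      rfl
  obtain ⟨u, hu⟩ := hu
  rw [hu] at h1 h2
  rcases core_shape u h1 h2 with ⟨r, hr, he⟩ | ⟨t, ht, he⟩
  · rw [he] at hu
    rw [hu, Pos_lis_core] at hk
    rw [hu]
    exact core r k hk2 (by omega)
  · rw [he] at hu
    have hm : mir w = List.replicate t true ++ [false, false] := by
      rw [hu, mir_append]
      unfold mir
      rw [List.map_replicate, List.reverse_replicate]
      rfl
    apply T_mir
    rw [← lis_mir, hm, Pos_lis_core] at hk
    rw [hm]
    exact core t k hk2 (by omega)

/-- **Positive theorem**: `w ∈ F` avoiding the two patterns, `k ≤ lis w`: `T k w`. Strong induction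
on the length (for all `k`): `k ≥ 1` and `w` starts with `0`: `red0`; `w` starts with `10`: `red10`;
`w` ends with `1` or `10`: the same for `mir w` and `T_mir`; otherwise `core_shape`, and `core`
(`k ≥ 2`), `red_one` (`k = 1`). `k = 0`: `red_zero`. -/
theorem pos (w : List Bool) (hF : Fw w) (h1 : ¬ pat1.Sublist w) (h2 : ¬ pat2.Sublist w)
    (k : ℕ) (hk : k ≤ lis w) : T k w := by
  obtain ⟨n, hn⟩ : ∃ n, n = w.length := ⟨_, rfl⟩
  induction n using Nat.strong_induction_on generalizing w k with
  | _ n ih =>
    have IH : ∀ w : List Bool, w.length < n → Fw w → ¬ pat1.Sublist w →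
        ¬ pat2.Sublist w → ∀ k, k ≤ lis w → T k w :=
      fun w' hw' hF' h1' h2' k' hk' => ih w'.length hw' w' hF' h1' h2' k' hk' rfl
    have hlen : 2 ≤ w.length := List.Sublist.length_le hF
    have hT1 : T 1 w := by
      by_cases h3 : 3 ≤ w.length
      · exact red_one w hF h3 (Pos_two n IH w hn.symm hF h1 h2 2 le_rfl (Pos_two_le w h3))
      · have h4 : w = [true, false] := (List.Sublist.eq_of_length hF (by simp; omega)).symm
        rw [h4]
        exact t1_ten
    match k, hk with
    | 0, _ => exact red_zero w hF hT1
    | 1, _ => exact hT1
    | k + 2, hk => exact Pos_two n IH w hn.symm hF h1 h2 (k + 2) (by omega) hk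

end H58
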