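import Pool.Agent.W_58cc_h2.Up

/-!
# Subword intervals (paper proof, section 2)
-/

namespace H58

open El

/-- prefix map. -/
def Sub_pre (p : List Bool) : El → El
  | idp n => idp n
  | wd l => wd (p ++ l)

theorem Sub_pre_inj (p : List Bool) {a b : El} (h : Sub_pre p a = Sub_pre p b) : a = b := by
  cases a <;> cases b <;> simp [Sub_pre] at h ⊢
  · exact h
  · exact h

theorem Sub_pre_lt (p u v : List Bool) : wd u < wd v ↔ Sub_pre p (wd u) < Sub_pre p (wd v) := by
  simp only [Sub_pre, lt_wd_wd, List.append_sublist_append_left, ne_eq, List.append_cancel_left_eq]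

/-- prefixing all words of a half open interval. -/
theorem sh_pre_HO {d : ℕ} (p x w : List Bool) (h : Sh (· < ·) d (HO x w)) :
    Sh (· < ·) d {e : El | ∃ u, e = wd (p ++ u) ∧ x.Sublist u ∧ u.Sublist w ∧ u ≠ w} := by
  have h1 := sh_image (s := (· < ·)) (Sub_pre p) (fun a _ b _ hab => Sub_pre_inj p hab)
    (by
      rintro _ ⟨u, rfl, _⟩ _ ⟨v, rfl, _⟩
      exact Sub_pre_lt p u v) h
  have e : Sub_pre p '' HO x w =
      {e : El | ∃ u, e = wd (p ++ u) ∧ x.Sublist u ∧ u.Sublist w ∧ u ≠ w} := by
    ext e
    constructor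
    · rintro ⟨_, ⟨u, rfl, hu⟩, rfl⟩
      exact ⟨u, rfl, hu⟩
    · rintro ⟨u, rfl, hu⟩
      exact ⟨wd u, ⟨u, rfl, hu⟩, rfl⟩
  rwa [e] at h1

/-- prefixing all words of an open interval. -/
theorem sh_pre_Op {d : ℕ} (p s w : List Bool) (h : Sh (· < ·) d (Op Set.univ (wd s) (wd w))) :
    Sh (· < ·) d {e : El | ∃ u, e = wd (p ++ u) ∧ s.Sublist u ∧ u.Sublist w ∧ u ≠ w ∧ u ≠ s} := by
  have hw : ∀ x ∈ Op Set.univ (wd s) (wd w), ∃ u, x = wd u := by
    rintro x ⟨-, hx, -⟩
    cases x with
    | idp n => exact absurd hx (by simp)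
    | wd u => exact ⟨u, rfl⟩
  have h1 := sh_image (s := (· < ·)) (Sub_pre p) (fun a _ b _ hab => Sub_pre_inj p hab)
    (by
      intro a ha b hb
      obtain ⟨u, rfl⟩ := hw a ha
      obtain ⟨v, rfl⟩ := hw b hb
      exact Sub_pre_lt p u v) h
  have e : Sub_pre p '' Op Set.univ (wd s) (wd w) =
      {e : El | ∃ u, e = wd (p ++ u) ∧ s.Sublist u ∧ u.Sublist w ∧ u ≠ w ∧ u ≠ s} := by
    ext e
    constructor
    · rintro ⟨x, hx, rfl⟩
      obtain ⟨u, rfl⟩ := hw x hx
      obtain ⟨-, h2, h3⟩ := hx
      rw [lt_wd_wd] at h2 h3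
      exact ⟨u, rfl, h2.1, h3.1, h3.2, fun h => h2.2 h.symm⟩
    · rintro ⟨u, rfl, h2, h3, h4, h5⟩
      refine ⟨wd u, ⟨Set.mem_univ _, ?_, ?_⟩, rfl⟩
      · rw [lt_wd_wd]
        exact ⟨h2, fun h => h5 h.symm⟩
      · rw [lt_wd_wd]
        exact ⟨h3, h4⟩
  rwa [e] at h1

/-- a half open interval is a cone over an open one (or empty). -/
theorem HO_of_shI (s w : List Bool) (hs : s.Sublist w)
    (h : wd s < wd w → ShI Set.univ (wd s) (wd w)) : Sh (· < ·) (w.length - s.length) (HO s w) := by
  by_cases hsw : s = w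
  · subst hsw
    have e : HO s s = ∅ := by
      ext x
      simp only [Set.mem_empty_iff_false, iff_false]
      rintro ⟨u, rfl, h1, h2, h3⟩
      exact h3 (h2.antisymm h1)
    rw [e, Nat.sub_self]
    exact sh_empty _
  · have hlt : wd s < wd w := (lt_wd_wd s w).2 ⟨hs, hsw⟩
    have hlen := ((lt_wd_wd_len s w).1 hlt).2
    have h1 := h hlt
    have e : HO s w = insert (wd s) (Op Set.univ (wd s) (wd w)) := by
      ext x
      constructor
      · rintro ⟨u, rfl, h2, h3, h4⟩
        by_cases hu : u = s
        · exact Or.inl (by rw [hu])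
        · exact Or.inr ⟨Set.mem_univ _, (lt_wd_wd s u).2 ⟨h2, fun h => hu h.symm⟩,
            (lt_wd_wd u w).2 ⟨h3, h4⟩⟩
      · rintro (rfl | ⟨-, h2, h3⟩)
        · exact ⟨s, rfl, List.Sublist.refl s, hs, hsw⟩
        · cases x with
          | idp n => exact absurd h2 (by simp)
          | wd u =>
            rw [lt_wd_wd] at h2 h3
            exact ⟨u, rfl, h2.1, h3.1, h3.2⟩
    have h2 := sh_cone (wd s) (fun h => lt_irrefl _ h.2.1) (fun q hq => Or.inl hq.2.1) h1
    rw [e]
    rw [show w.length - s.length = rk (wd w) - rk (wd s) - 1 + 1 by simp only [rk_wd]; omega]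
    exact h2

theorem Sub_cons {a : Bool} {v u : List Bool} (hv : ∀ t, v ≠ a :: t) :
    v.Sublist (a :: u) ↔ v.Sublist u := by
  rw [List.sublist_cons_iff]
  constructor
  · rintro (h | ⟨t, h, -⟩)
    · exact h
    · exact absurd h (hv t)
  · exact fun h => Or.inl h

/-- the part of the words starting with `a` above a word not starting with `a`. -/
theorem Sub_part {a : Bool} {v w' : List Bool} (hv : ∀ t, v ≠ a :: t)
    (h : Sh (· < ·) (w'.length - v.length) (HO v w')) :
    ShI {e | ∃ u, e = wd (a :: u)} (wd v) (wd (a :: w')) := by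
  have h1 := sh_pre_HO [a] v w' h
  have e : Op {e | ∃ u, e = wd (a :: u)} (wd v) (wd (a :: w')) =
      {e : El | ∃ u, e = wd ([a] ++ u) ∧ v.Sublist u ∧ u.Sublist w' ∧ u ≠ w'} := by
    ext e
    constructor
    · rintro ⟨⟨u, rfl⟩, h2, h3⟩
      rw [lt_wd_wd] at h2 h3
      refine ⟨u, rfl, (Sub_cons hv).1 h2.1, ?_, ?_⟩
      · exact List.cons_sublist_cons.1 h3.1
      · exact fun h => h3.2 (by rw [h])
    · rintro ⟨u, rfl, h2, h3, h4⟩
      refine ⟨⟨u, rfl⟩, ?_, ?_⟩
      · rw [lt_wd_wd]
        exact ⟨(Sub_cons hv).2 h2, hv u⟩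
      · rw [lt_wd_wd]
        exact ⟨List.cons_sublist_cons.2 h3, fun h => h4 (List.cons.inj h).2⟩
  unfold ShI
  rw [e, show rk (wd (a :: w')) - rk (wd v) - 1 = w'.length - v.length by
    simp only [rk_wd, List.length_cons]; omega]
  exact h1

/-- **(S)** Bjoerner: subword intervals are shellable. Induction on `w.length`, `sh_up` with
`A` = words starting with the first letter `a` of `w = a :: w'`. If `x` does not start with `a`
and `x < w` then `x <+ w'`, the only cover of `x` starting with `a` is `a :: x` and `y = a :: z`. -/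
theorem sub_shI (s w : List Bool) (h : wd s < wd w) : ShI Set.univ (wd s) (wd w) := by
  induction hn : w.length using Nat.strong_induction_on generalizing s w with
  | _ n ih =>
    cases w with
    | nil =>
      exfalso
      have := ((lt_wd_wd_len s []).1 h).2
      simp at this
    | cons a w' =>
      have hlen : w'.length < n := by rw [← hn, List.length_cons]; exact Nat.lt_succ_self _
      have key : ∀ v : List Bool, (∀ t, v ≠ a :: t) → wd v < wd (a :: w') →
          ShI {e | ∃ u, e = wd (a :: u)} (wd v) (wd (a :: w')) := by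
        intro v hv hvw
        apply Sub_part hv
        apply HO_of_shI v w' ((Sub_cons hv).1 ((lt_wd_wd _ _).1 hvw).1)
        exact fun h1 => ih _ hlen v w' h1 rfl
      refine sh_up Set.univ {e | ∃ u, e = wd (a :: u)} (wd s) (wd (a :: w')) h (Or.inl ⟨s, rfl⟩)
        (fun x _ => Set.mem_univ x) ?_ ?_ ?_ ?_
      · by_cases hs : ∃ s', s = a :: s'
        · obtain ⟨s', rfl⟩ := hs
          have hlt : wd s' < wd w' := by
            rw [lt_wd_wd] at h ⊢
            exact ⟨List.cons_sublist_cons.1 h.1, fun he => h.2 (by rw [he])⟩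
          have h1 := sh_pre_Op [a] s' w' (ih _ hlen s' w' hlt rfl)
          have e : Op {e | ∃ u, e = wd (a :: u)} (wd (a :: s')) (wd (a :: w')) =
              {e : El | ∃ u, e = wd ([a] ++ u) ∧ s'.Sublist u ∧ u.Sublist w' ∧ u ≠ w' ∧
                u ≠ s'} := by
            ext e
            constructor
            · rintro ⟨⟨u, rfl⟩, h2, h3⟩
              rw [lt_wd_wd] at h2 h3
              refine ⟨u, rfl, List.cons_sublist_cons.1 h2.1, List.cons_sublist_cons.1 h3.1, ?_, ?_⟩
              · exact fun h => h3.2 (by rw [h])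
              · exact fun h => h2.2 (by rw [h])
            · rintro ⟨u, rfl, h2, h3, h4, h5⟩
              refine ⟨⟨u, rfl⟩, ?_, ?_⟩
              · rw [lt_wd_wd]
                exact ⟨List.cons_sublist_cons.2 h2, fun h => h5 (List.cons.inj h).2.symm⟩
              · rw [lt_wd_wd]
                exact ⟨List.cons_sublist_cons.2 h3, fun h => h4 (List.cons.inj h).2⟩
          unfold ShI
          rw [e, show rk (wd (a :: w')) - rk (wd (a :: s')) - 1 = rk (wd w') - rk (wd s') - 1 by
            simp only [rk_wd, List.length_cons]; omega]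
          exact h1
        · push Not at hs
          exact key s hs h
      · intro x _ hsx hxw hxA
        cases x with
        | idp m => exact absurd hsx (by simp)
        | wd v =>
          refine ih v.length ?_ s v hsx rfl
          have := ((lt_wd_wd_len _ _).1 hxw).2
          omega
      · intro x _ hsx hxw hxA
        cases x with
        | idp m => exact absurd hsx (by simp)
        | wd v => exact key v (fun t ht => hxA ⟨t, by rw [ht]⟩) hxw
      · intro x _ hsx hxw hxA z b hz hsz hzx hzr hb hxb hbh hbr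
        cases x with
        | idp m => exact absurd hsx (by simp)
        | wd v =>
          have hv : ∀ t, v ≠ a :: t := fun t ht => hxA ⟨t, by rw [ht]⟩
          cases z with
          | idp m => exact absurd hsz (by simp)
          | wd z' =>
            have hbA : ∃ u, b = wd (a :: u) := by
              rcases hb with rfl | hb
              · exact ⟨w', rfl⟩
              · exact hb
            obtain ⟨u, rfl⟩ := hbA
            rw [lt_wd_wd] at hxb hzx
            have hvu : v = u := by
              apply ((Sub_cons hv).1 hxb.1).eq_of_length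
              simp only [rk_wd, List.length_cons] at hbr
              omega
            subst hvu
            refine ⟨wd (a :: z'), ⟨z', rfl⟩, ?_, ?_⟩
            · rw [lt_wd_wd_len]
              exact ⟨List.sublist_cons_self a z', by simp⟩
            · rw [lt_wd_wd]
              exact ⟨List.cons_sublist_cons.2 hzx.1, fun h => hzx.2 (List.cons.inj h).2⟩

theorem sub_HO (s w : List Bool) (h : s.Sublist w) : Sh (· < ·) (w.length - s.length) (HO s w) :=
  HO_of_shI s w h (sub_shI s w)

/-- intervals above a word do not see `P` if `P` contains all words above it. -/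
theorem sub_shI_of (P : Set El) (s w : List Bool) (h : wd s < wd w)
    (hP : ∀ u, s.Sublist u → u.Sublist w → u ≠ s → u ≠ w → wd u ∈ P) :
    ShI P (wd s) (wd w) := by
  have e : Op P (wd s) (wd w) = Op Set.univ (wd s) (wd w) := by
    ext x
    constructor
    · rintro ⟨-, h1⟩
      exact ⟨Set.mem_univ _, h1⟩
    · rintro ⟨-, h1, h2⟩
      refine ⟨?_, h1, h2⟩
      cases x with
      | idp n => exact absurd h1 (by simp)
      | wd u =>
        rw [lt_wd_wd] at h1 h2
        exact hP u h1.1 h2.1 (fun h => h1.2 h.symm) h2.2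
  unfold ShI
  rw [e]
  exact sub_shI s w h

end H58
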