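import Pool.Agent.W_58cc_h2.Fin
import Pool.Agent.W_58cc_h2.Pos
import Pool.Agent.W_58cc_h2.Neg
import Pool.Agent.W_58cc_h2.Sub

/-!
# MP_58cc3c_co: the theorems on words give the final statement
-/

namespace Pool.Agent.W_58cc_h2

open List

theorem sh_iff_H58 {α : Type*} {r : α → α → Prop} {d : ℕ} {Q : Set α} :
    H58.Sh r d Q ↔ Sh r d Q := by
  classical
  have hf : ∀ F, H58.Fct r d Q F ↔ IsFct r d Q F := by
    intro F
    unfold H58.Fct IsFct IsCh H58.Chn
    tauto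
  constructor
  · rintro ⟨h1, h2, f, h3, h4⟩
    refine ⟨h1, ?_, f, ?_, ?_⟩
    · intro F hF
      obtain ⟨G, hFG, hG⟩ := h2 F hF.1 hF.2
      exact ⟨G, (hf G).1 hG, hFG⟩
    · intro F G hF hG h
      exact h3 F G ((hf F).2 hF) ((hf G).2 hG) h
    · intro F G hF hG h
      obtain ⟨H, hH, h5, v, hv, h6, h7⟩ := h4 F G ((hf F).2 hF) ((hf G).2 hG) h
      refine ⟨H, v, (hf H).1 hH, h5, hv, ?_, ?_⟩
      · intro x hx
        rw [Finset.mem_inter] at hx
        exact Finset.mem_erase.2 ⟨fun he => h6 (he ▸ hx.2), hx.1⟩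
      · intro x hx
        rw [Finset.mem_erase] at hx
        exact h7 x hx.2 hx.1
  · rintro ⟨h1, h2, f, h3, h4⟩
    refine ⟨h1, ?_, f, ?_, ?_⟩
    · intro F hF hc
      obtain ⟨G, hG, hFG⟩ := h2 F ⟨hF, hc⟩
      exact ⟨G, hFG, (hf G).2 hG⟩
    · intro F G hF hG h
      exact h3 F G ((hf F).1 hF) ((hf G).1 hG) h
    · intro F G hF hG h
      obtain ⟨H, v, hH, h5, hv, h6, h7⟩ := h4 F G ((hf F).1 hF) ((hf G).1 hG) h
      refine ⟨H, (hf H).2 hH, h5, v, hv, ?_, ?_⟩
      · intro hvG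
        have := h6 (Finset.mem_inter.2 ⟨hv, hvG⟩)
        simp at this
      · intro u hu huv
        exact h7 (Finset.mem_erase.2 ⟨huv, hu⟩)

/-- From the type of the proof to the type of the bridge. -/
def cv : H58.El → El
  | .idp n => .idp n
  | .wd l => .wd l

@[simp] lemma cv_idp (n : ℕ) : cv (.idp n) = .idp n := rfl
@[simp] lemma cv_wd (l : List Bool) : cv (.wd l) = .wd l := rfl

lemma lis_eq (l : List Bool) : H58.lis l = lis l := by
  induction l with
  | nil => rfl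
  | cons b z ih =>
    cases b
    · simp [ih]
    · simp only [H58.lis_true, lis_true, ih]
      omega

lemma cv_inj {x y : H58.El} (h : cv x = cv y) : x = y := by
  cases x <;> cases y <;> simp at h ⊢ <;> exact h

lemma cv_le {x y : H58.El} : x ≤ y ↔ cv x ≤ cv y := by
  cases x <;> cases y <;> simp [lis_eq]

lemma cv_lt {x y : H58.El} : x < y ↔ cv x < cv y := by
  rw [lt_iff_le_not_ge, lt_iff_le_not_ge, cv_le, cv_le]

lemma cv_PP {x : H58.El} : x ∈ H58.PP ↔ cv x ∈ PP := by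
  cases x <;> simp [H58.Fw, NS]

lemma cv_Op (g h : H58.El) : cv '' H58.Op H58.PP g h = Op PP (cv g) (cv h) := by
  ext x
  constructor
  · rintro ⟨y, ⟨h1, h2, h3⟩, rfl⟩
    exact ⟨cv_PP.1 h1, cv_lt.1 h2, cv_lt.1 h3⟩
  · rintro ⟨h1, h2, h3⟩
    obtain ⟨y, rfl⟩ : ∃ y, cv y = x := by
      cases x with
      | idp n => exact ⟨.idp n, rfl⟩
      | wd l => exact ⟨.wd l, rfl⟩
    exact ⟨y, ⟨cv_PP.2 h1, cv_lt.2 h2, cv_lt.2 h3⟩, rfl⟩

theorem sh_Op_iff {d : ℕ} (g h : H58.El) :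
    H58.Sh (· < ·) d (H58.Op H58.PP g h) ↔
      Sh (fun x y : El => x < y) d (Op PP (cv g) (cv h)) := by
  rw [← cv_Op, sh_iff_H58]
  constructor
  · exact Sh.image cv (fun _ _ _ _ h => cv_inj h) (fun _ _ _ _ => cv_lt)
  · exact Sh.of_image cv (fun _ _ _ _ h => cv_inj h) (fun _ _ _ _ => cv_lt)

theorem pos_holds : Pos := by
  intro w hw h1 h2 g hg hgw
  have key : ∀ g' : H58.El, cv g' = g → H58.ShI H58.PP g' (.wd w) → ShI PP g (.wd w) := by
    rintro g' rfl h
    have h3 := (sh_Op_iff (d := rk (.wd w) - rk (cv g') - 1) g' (.wd w)).1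
    apply h3
    have h4 : rk (.wd w) - rk (cv g') - 1 = H58.rk (.wd w) - H58.rk g' - 1 := by
      cases g' <;> rfl
    rw [h4]
    exact h
  cases g with
  | idp k =>
    have hk : k ≤ lis w := hgw.le
    exact key (.idp k) rfl (H58.pos w hw h1 h2 k (by rw [lis_eq]; exact hk))
  | wd s =>
    have hs : NS s := wd_mem_PP.1 hg
    refine key (.wd s) rfl (H58.sub_shI_of H58.PP s w ?_ ?_)
    · exact cv_lt.2 hgw
    · intro u hsu _ _ _
      exact (H58.wd_mem_PP u).2 (hs.mono hsu)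

/-- Lower bound a word. -/
theorem shI_wd {s w : List Bool} (hs : NS s) (h : El.wd s < El.wd w) :
    ShI PP (.wd s) (.wd w) := by
  have h1 := H58.sub_shI_of H58.PP s w (cv_lt.2 h) (fun u hsu _ _ _ =>
    (H58.wd_mem_PP u).2 (hs.mono hsu))
  exact (sh_Op_iff (.wd s) (.wd w)).1 h1

/-- Intervals with a lower bound which is not an identity. -/
theorem nonid (t : FPerm) (ht : OneDescent t) (s : FPerm) (hst : PatLE s t)
    (hs : ∀ k, s ≠ idn k) : Shellable (Delta s t) := by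
  obtain ⟨w, hw, rfl⟩ := exists_word ht
  obtain ⟨x, hx, rfl⟩ := exists_of_patLE hst
  have hwP : El.wd w ∈ PP := wd_mem_PP.2 hw
  by_cases hxw : x = .wd w
  · rw [hxw]; exact shellable_self _
  · have hlt : x < .wd w := lt_of_le_of_ne ((patLE_toP hx hwP).1 hst) hxw
    cases x with
    | idp k => exact absurd rfl (hs k)
    | wd u => exact (shellable_iff hx hw).2 ⟨_, shI_wd (wd_mem_PP.1 hx) hlt⟩

theorem neg_holds : Neg := by
  intro w _ k hk _ hpat d h
  exact H58.neg w k hk hpat d ((sh_Op_iff (.idp k) (.wd w)).2 h)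

theorem final : Final := final_of pos_holds neg_holds

end Pool.Agent.W_58cc_h2
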