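import Pool.Agent.W_58cc_h2.AbsA

/-!
# Connectivity in codimension one
-/

namespace H58


/-- connectivity in codimension one, abstract: in a shellable complex, the facets containing a
given chain `D` with `d - 2` elements are all of the same colour, if the two elements outside `D`
of such a facet always have the same colour.  Proof: let `F0` be the facet containing `D` with the
smallest `f`; strong induction on `f F`: if `F ≠ F0` contains `D` then `f F0 < f F`, take `H`, `v`
from the shelling property for `(F, F0)`: `D ⊆ F ∩ F0 ⊆ H`, `v ∉ D`, `H` contains the other element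
of `F \ D`, so `H` and `F` have the same colour. -/
theorem colour_const {α : Type*} [DecidableEq α] {r : α → α → Prop} {d : ℕ} {Q : Set α}
    (h : Sh r d Q) (D : Finset α) (hD : D.card + 2 = d) (col : α → Prop)
    (hcol : ∀ F, Fct r d Q F → D ⊆ F → ∀ a ∈ F, a ∉ D → ∀ b ∈ F, b ∉ D → (col a ↔ col b))
    (F G : Finset α) (hF : Fct r d Q F) (hG : Fct r d Q G) (hDF : D ⊆ F) (hDG : D ⊆ G)
    (a b : α) (ha : a ∈ F) (haD : a ∉ D) (hb : b ∈ G) (hbD : b ∉ D) : col a ↔ col b := by
  obtain ⟨_, _, f, hinj, hsh⟩ := h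
  -- the facet with the smallest value of `f`
  obtain ⟨F0, ⟨hF0, hDF0⟩, hmin⟩ : ∃ F0, (Fct r d Q F0 ∧ D ⊆ F0) ∧
      ∀ F', (Fct r d Q F' ∧ D ⊆ F') → f F0 ≤ f F' := by
    have hne : (Set.range fun F' : {F' : Finset α // Fct r d Q F' ∧ D ⊆ F'} => f F'.1).Nonempty :=
      ⟨f F, ⟨F, hF, hDF⟩, rfl⟩
    obtain ⟨⟨F0, hF0⟩, hF0e⟩ := Nat.sInf_mem hne
    refine ⟨F0, hF0, fun F' hF' => ?_⟩
    have h1 : f F0 = sInf (Set.range fun F' : {F' : Finset α // Fct r d Q F' ∧ D ⊆ F'} => f F'.1) :=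
      hF0e
    rw [h1]
    exact Nat.sInf_le ⟨⟨F', hF'⟩, rfl⟩
  have hcard : ∀ F', Fct r d Q F' → D ⊆ F' → (F' \ D).card = 2 := by
    intro F' hF' hDF'
    rw [Finset.card_sdiff_of_subset hDF', hF'.2.2]
    omega
  obtain ⟨b0, hb0⟩ : (F0 \ D).Nonempty := by
    rw [← Finset.card_pos, hcard F0 hF0 hDF0]
    norm_num
  rw [Finset.mem_sdiff] at hb0
  have key : ∀ n : ℕ, ∀ F', Fct r d Q F' → D ⊆ F' → f F' = n → ∀ a ∈ F', a ∉ D →
      (col a ↔ col b0) := by
    intro n
    induction n using Nat.strong_induction_on with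
    | _ n ih =>
      intro F' hF' hDF' hn a ha haD
      by_cases hFF : F' = F0
      · subst hFF
        exact hcol F' hF' hDF' a ha haD b0 hb0.1 hb0.2
      · have h1 := hmin F' ⟨hF', hDF'⟩
        have h2 : f F0 ≠ f F' := fun h3 => hFF (hinj F0 F' hF0 hF' h3).symm
        obtain ⟨H, hH, hHlt, v, hv, hvF0, hvH⟩ := hsh F' F0 hF' hF0 (lt_of_le_of_ne h1 h2)
        have hDH : D ⊆ H := by
          intro x hx
          apply hvH x (hDF' hx)
          rintro rfl
          exact hvF0 (hDF0 hx)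
        obtain ⟨w, hw, hwv⟩ := Finset.exists_mem_ne (s := F' \ D)
          (by rw [hcard F' hF' hDF']; norm_num) v
        rw [Finset.mem_sdiff] at hw
        rw [hcol F' hF' hDF' a ha haD w hw.1 hw.2]
        exact ih (f H) (by omega) H hH hDH rfl w (hvH w hw.1 hwv) hw.2
  rw [key _ F hF hDF rfl a ha haD, key _ G hG hDG rfl b hb hbD]

end H58
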