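import Pool.Agent.W_58cc_h2.Sub

/-!
# Reduction (1): words starting with `0` (paper proof, section 4 (1))
-/

namespace H58

open El

/-- identities and words starting with `0`, in `PP`. -/
def A1 : Set El := {e | e ∈ PP ∧ ∀ l, e = wd l → ∃ t, l = false :: t}

/-- the shift map. -/
def Red0_sh : El → El
  | idp n => idp (n + 1)
  | wd l => wd (false :: l)

theorem Red0_sh_lt (a b : El) : a < b ↔ Red0_sh a < Red0_sh b := by
  cases a with
  | idp m =>
    cases b with
    | idp n => simp [Red0_sh]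
    | wd l => simp [Red0_sh]
  | wd s =>
    cases b with
    | idp n => simp [Red0_sh]
    | wd l => simp [Red0_sh, lt_wd_wd]

theorem Red0_sh_inj {a b : El} (h : Red0_sh a = Red0_sh b) : a = b := by
  cases a <;> cases b <;> simp [Red0_sh] at h ⊢
  · exact h
  · exact h

theorem Red0_f {b : Bool} {s l : List Bool} (h : (b :: s).Sublist ((!b) :: l)) :
    (b :: s).Sublist l := by
  rcases List.sublist_cons_iff.1 h with h | ⟨r, hr, _⟩
  · exact h
  · simp at hr

theorem Red0_Fw {l : List Bool} : Fw (false :: l) ↔ Fw l := by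
  unfold Fw
  exact ⟨fun h => Red0_f (b := true) h, fun h => h.trans (List.sublist_cons_self _ _)⟩

theorem Red0_wd_above {s : List Bool} {e : El} (h : wd s < e) : ∃ l, e = wd l := by
  cases e with
  | idp n => exact absurd h (by simp)
  | wd l => exact ⟨l, rfl⟩

/-- shift by one zero: `idp n ↦ idp (n+1)`, `wd l ↦ wd (0l)`. It maps `(idp j, w')` in `PP` onto
`(idp (j+1), 0w')` in `A1` (`lis (0l) = lis l + 1`). -/
theorem sh_shift0 (j : ℕ) (w' : List Bool) (h : T j w') :
    ShI A1 (idp (j + 1)) (wd (false :: w')) := by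
  have h1 := sh_image (s := (· < ·)) Red0_sh (fun a _ b _ hab => Red0_sh_inj hab)
    (fun a _ b _ => Red0_sh_lt a b) h
  have e : Red0_sh '' Op PP (idp j) (wd w') = Op A1 (idp (j + 1)) (wd (false :: w')) := by
    ext x
    constructor
    · rintro ⟨y, ⟨hy, hy1, hy2⟩, rfl⟩
      refine ⟨?_, (Red0_sh_lt _ _).1 hy1, (Red0_sh_lt _ _).1 hy2⟩
      cases y with
      | idp n => exact ⟨idp_mem_PP _, fun l hl => by cases hl⟩
      | wd l =>
        refine ⟨(wd_mem_PP _).2 (Red0_Fw.2 ((wd_mem_PP l).1 hy)), ?_⟩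
        intro l' hl'
        exact ⟨l, (El.wd.inj hl').symm⟩
    · rintro ⟨hx, hx1, hx2⟩
      cases x with
      | idp n =>
        have hn : j + 1 < n := (lt_id_id _ _).1 hx1
        obtain ⟨m, rfl⟩ : ∃ m, n = m + 1 := ⟨n - 1, by omega⟩
        refine ⟨idp m, ⟨idp_mem_PP _, ?_, ?_⟩, rfl⟩
        · rw [lt_id_id]; omega
        · rw [lt_id_wd, lis_false] at hx2
          rw [lt_id_wd]; omega
      | wd l =>
        obtain ⟨t, rfl⟩ := hx.2 l rfl
        refine ⟨wd t, ⟨(wd_mem_PP _).2 (Red0_Fw.1 ((wd_mem_PP _).1 hx.1)), ?_, ?_⟩, rfl⟩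
        · exact (Red0_sh_lt (idp j) (wd t)).2 hx1
        · exact (Red0_sh_lt (wd t) (wd w')).2 hx2
  rw [e] at h1
  unfold ShI
  have h2 : rk (wd (false :: w')) - rk (idp (j + 1)) - 1 = rk (wd w') - rk (idp j) - 1 := by
    simp only [rk_wd, rk_id, List.length_cons]
    omega
  rw [h2]
  exact h1

/-- words `0u` with `x ≤ u < w'`, if `x` starts with `1`: the part of `A1` above `x`. -/
theorem shI_A1_above (x w' : List Bool) (hx : Fw (true :: x)) (hxw : (true :: x).Sublist w') :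
    ShI A1 (wd (true :: x)) (wd (false :: w')) := by
  have h1 := Sub_part (a := false) (v := true :: x) (w' := w') (fun t ht => by simp at ht)
    (sub_HO (true :: x) w' hxw)
  have e : Op A1 (wd (true :: x)) (wd (false :: w')) =
      Op {e | ∃ u, e = wd (false :: u)} (wd (true :: x)) (wd (false :: w')) := by
    ext y
    constructor
    · rintro ⟨hy, hy1, hy2⟩
      obtain ⟨l, rfl⟩ := Red0_wd_above hy1
      obtain ⟨t, rfl⟩ := hy.2 l rfl
      exact ⟨⟨t, rfl⟩, hy1, hy2⟩
    · rintro ⟨⟨t, rfl⟩, hy1, hy2⟩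
      refine ⟨⟨?_, ?_⟩, hy1, hy2⟩
      · rw [wd_mem_PP]
        exact List.Sublist.trans hx hy1.le
      · intro l hl
        exact ⟨t, (El.wd.inj hl).symm⟩
  unfold ShI at h1 ⊢
  rw [e]
  exact h1

theorem Red0_not_A1 {x : El} (hx : x ∈ PP) (h : x ∉ A1) : ∃ y, x = wd (true :: y) := by
  cases x with
  | idp n => exact absurd ⟨idp_mem_PP n, fun l h => by cases h⟩ h
  | wd l =>
    have hF : Fw l := (wd_mem_PP l).1 hx
    match l, hF, hx, h with
    | [], hF, _, _ => unfold Fw at hF; simp at hF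
    | false :: l', _, hx, h =>
      exact absurd ⟨hx, fun l hl => ⟨l', (El.wd.inj hl).symm⟩⟩ h
    | true :: y, _, _, _ => exact ⟨y, rfl⟩

/-- **(1)** `T_k(0w') ⇐ T_{k-1}(w')`, `T_k(x)` (`x` starting with `1`, below `w'`). `sh_up` with
`A = A1`: cover of `x` in `A1 ∪ {w}` is `0x`; `z` a word: `y = 0z`; `z = idp n` (`n = |x| - 1`):
`y = idp (n+1)`. -/
theorem red0 (j : ℕ) (w' : List Bool) (hF : Fw w') (hj : j ≤ lis w') (h1 : T j w')
    (h2 : ∀ x, Fw (true :: x) → (true :: x).Sublist w' → j + 1 ≤ lis (true :: x) →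
      T (j + 1) (true :: x)) :
    T (j + 1) (false :: w') := by
  have hg : idp (j + 1) < wd (false :: w') := by
    rw [lt_id_wd, lis_false]
    omega
  apply sh_up PP A1 (idp (j + 1)) (wd (false :: w')) hg
    (Or.inr ⟨fun x hx => hx, (wd_mem_PP _).2 (Red0_Fw.2 hF)⟩) (fun x hx => hx.1)
    (sh_shift0 j w' h1)
  · intro x hx hgx hxh hxA
    obtain ⟨y, rfl⟩ := Red0_not_A1 hx hxA
    exact h2 y ((wd_mem_PP _).1 hx) (Red0_f (b := true) hxh.le) ((lt_id_wd _ _).1 hgx)
  · intro x hx hgx hxh hxA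
    obtain ⟨y, rfl⟩ := Red0_not_A1 hx hxA
    exact shI_A1_above y w' ((wd_mem_PP _).1 hx) (Red0_f (b := true) hxh.le)
  · intro x hx hgx hxh hxA z a hz hgz hzx hrz ha hxa hah hra
    obtain ⟨y, rfl⟩ := Red0_not_A1 hx hxA
    obtain ⟨l, rfl⟩ := Red0_wd_above hxa
    obtain ⟨l', rfl⟩ : ∃ l', l = false :: l' := by
      rcases ha with ha | ha
      · exact ⟨w', El.wd.inj ha⟩
      · exact ha.2 l rfl
    have hzP : z ∈ PP := by
      rcases hz with hz | hz
      · rw [hz]; exact idp_mem_PP _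
      · exact hz
    have h3 : (true :: y).Sublist l' := Red0_f (b := true) hxa.le
    have h4 : true :: y = l' := h3.eq_of_length (by simp at hra ⊢; omega)
    subst h4
    cases z with
    | idp n =>
      have hn2 : n ≤ lis (true :: y) := (lt_id_wd _ _).1 hzx
      refine ⟨idp (n + 1), ⟨idp_mem_PP _, fun l hl => by cases hl⟩, ?_, ?_⟩
      · rw [lt_id_id]; omega
      · rw [lt_id_wd, lis_false]; omega
    | wd s =>
      have hs := (lt_wd_wd _ _).1 hzx
      refine ⟨wd (false :: s), ⟨?_, ?_⟩, ?_, ?_⟩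
      · rw [wd_mem_PP]
        exact Red0_Fw.2 ((wd_mem_PP _).1 hzP)
      · intro l hl
        exact ⟨s, (El.wd.inj hl).symm⟩
      · rw [lt_wd_wd_len]
        exact ⟨List.sublist_cons_self _ _, by simp⟩
      · rw [lt_wd_wd]
        exact ⟨hs.1.cons_cons _, fun h => hs.2 (List.cons.inj h).2⟩

end H58
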