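import Pool.Agent.W_58cc_h2.Red10b

/-!
# Reduction (2): words starting with `10` (paper proof, section 4 (2))
-/

namespace H58

open El

theorem Red10_f {b : Bool} {s l : List Bool} (h : (b :: s).Sublist ((!b) :: l)) :
    (b :: s).Sublist l := by
  rcases List.sublist_cons_iff.1 h with h | ⟨r, hr, _⟩
  · exact h
  · simp at hr

theorem Red10_tt {t w2 : List Bool}
    (h : (true :: true :: t).Sublist (true :: false :: w2)) : (true :: t).Sublist w2 := by
  have h1 : (true :: t).Sublist (false :: w2) := by
    cases h with
    | cons _ h => exact (List.sublist_cons_self _ _).trans h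
    | cons_cons _ h => exact h
  exact Red10_f (b := true) h1

theorem Red10_not_A2 {x : El} (hx : x ∈ PP) (h : x ∉ A2) : ∃ t, x = wd (true :: true :: t) := by
  by_contra hcon
  push Not at hcon
  exact h ⟨hx, hcon⟩

theorem Red10_wd_above {s : List Bool} {e : El} (h : wd s < e) : ∃ l, e = wd l := by
  cases e with
  | idp n => exact absurd h (by simp)
  | wd l => exact ⟨l, rfl⟩

/-- above a word of `F`, `A2` and `PC` are the same. -/
theorem Red10_Op {s : List Bool} (hs : Fw s) (h : El) : Op A2 (wd s) h = Op PC (wd s) h := by
  ext e
  constructor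
  · rintro ⟨h1, h2, h3⟩
    exact ⟨h1.2, h2, h3⟩
  · rintro ⟨h1, h2, h3⟩
    obtain ⟨l, rfl⟩ := Red10_wd_above h2
    exact ⟨⟨(wd_mem_PP l).2 (List.Sublist.trans hs h2.le), h1⟩, h2, h3⟩

theorem Red10_count_replicate {m : ℕ} {l : List Bool} (h : m ≤ l.count true) :
    (List.replicate m true).Sublist l := by
  exact List.replicate_sublist_iff.2 h

/-- **(2)** `T_k(10w2) ⇐ T_k(x)` (`x < w` starting with `11`), `T_{k-1}(y)` (`y ≤ w2`). Step 1:
`sh_up` with `A = A2`: outside `x = 1x1`, `x1 = 1x'`, `x1 <+ w2`; covers of `x` in `A2 ∪ {w}`:
`0x` (then `y = 0z` or `idp |x|`) and `10x1` (then `z = 1z1`, `y = 10z1`, or `z = idp (|x| - 1)`,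
`x` has exactly one zero and `y = 10 1^(|x|-2)`). Upper part `Op PC (wd x) (wd w)` = `cc_shI`,
`A2` itself by `step2`. -/
theorem red10 (j : ℕ) (w2 : List Bool) (hj : j ≤ lis w2)
    (h1 : ∀ x, Fw (true :: true :: x) → (true :: x).Sublist w2 →
      j + 1 ≤ lis (true :: true :: x) → T (j + 1) (true :: true :: x))
    (h2 : ∀ y, Fw y → y.Sublist w2 → j ≤ lis y → T j y) :
    T (j + 1) (true :: false :: w2) := by
  have hFw : Fw (true :: false :: w2) := by
    unfold Fw
    exact (List.nil_sublist _).cons_cons _ |>.cons_cons _
  have hPC : wd (true :: false :: w2) ∈ PC := by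
    intro t h
    have := El.wd.inj h
    simp at this
  have hg : idp (j + 1) < wd (true :: false :: w2) := by
    rw [lt_id_wd, lis_10]
    omega
  have hcc : ∀ t, Fw (true :: true :: t) → wd (true :: true :: t) < wd (true :: false :: w2) →
      ShI A2 (wd (true :: true :: t)) (wd (true :: false :: w2)) := by
    intro t ht hlt
    have := cc_shI (true :: t) (true :: false :: w2) hlt hPC
    unfold ShI at this ⊢
    rw [Red10_Op ht]
    exact this
  apply sh_up PP A2 (idp (j + 1)) (wd (true :: false :: w2)) hg
    (Or.inr ⟨fun x hx => hx, (wd_mem_PP _).2 hFw⟩) (fun x hx => hx.1) (step2 j w2 hj h2)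
  · intro x hx hgx hxh hxA
    obtain ⟨t, rfl⟩ := Red10_not_A2 hx hxA
    exact h1 t ((wd_mem_PP _).1 hx) (Red10_tt hxh.le) ((lt_id_wd _ _).1 hgx)
  · intro x hx hgx hxh hxA
    obtain ⟨t, rfl⟩ := Red10_not_A2 hx hxA
    exact hcc t ((wd_mem_PP _).1 hx) hxh
  · intro x hx hgx hxh hxA z a hz hgz hzx hrz ha hxa hah hra
    obtain ⟨t, rfl⟩ := Red10_not_A2 hx hxA
    obtain ⟨l, rfl⟩ := Red10_wd_above hxa
    have haC : wd l ∈ PC := by
      rcases ha with ha | ha
      · rw [ha]; exact hPC
      · exact ha.2
    have hxl : (true :: true :: t).Sublist l := hxa.le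
    have hll : l.length = t.length + 3 := by simpa using hra
    have hzP : z ∈ PP := by
      rcases hz with hz | hz
      · rw [hz]; exact idp_mem_PP _
      · exact hz
    match l, hxl, hll, haC with
    | [], _, hll, _ => simp at hll
    | [true], _, hll, _ => simp at hll
    | true :: true :: l', _, _, haC => exact absurd rfl (haC l')
    | false :: l', hxl, hll, _ =>
      have h3 : (true :: true :: t).Sublist l' := Red10_f (b := true) hxl
      have h4 : true :: true :: t = l' := h3.eq_of_length (by simp at hll ⊢; omega)
      subst h4
      cases z with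
      | idp n =>
        have hn : t.length + 2 = n + 1 := by simpa using hrz
        have hn2 : n ≤ lis (true :: true :: t) := (lt_id_wd _ _).1 hzx
        refine ⟨idp (n + 1), ⟨idp_mem_PP _, fun t h => by cases h⟩, ?_, ?_⟩
        · rw [lt_id_id]; omega
        · rw [lt_id_wd, lis_false]; omega
      | wd s =>
        have hs : s.Sublist (true :: true :: t) := hzx.le
        have hsF : Fw s := (wd_mem_PP _).1 hzP
        have hsl : t.length + 2 = s.length + 1 := by simpa using hrz
        refine ⟨wd (false :: s), ⟨?_, ?_⟩, ?_, ?_⟩
        · rw [wd_mem_PP]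
          exact List.Sublist.trans hsF (List.sublist_cons_self _ _)
        · intro t' h
          have := El.wd.inj h
          simp at this
        · rw [lt_wd_wd_len]
          exact ⟨List.sublist_cons_self _ _, by simp⟩
        · rw [lt_wd_wd_len]
          exact ⟨hs.cons_cons _, by simp; omega⟩
    | true :: false :: l', hxl, hll, _ =>
      have h3 : (true :: t).Sublist l' := Red10_tt hxl
      have h4 : true :: t = l' := h3.eq_of_length (by simp at hll ⊢; omega)
      subst h4
      cases z with
      | idp n =>
        have hn : t.length + 2 = n + 1 := by simpa using hrz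
        have hn2 : n ≤ lis (true :: true :: t) := (lt_id_wd _ _).1 hzx
        have hcnt : t.length ≤ (true :: t).count true := by
          have h5 := lis_le_length t
          simp only [lis_true, List.count_cons_self] at hn2 ⊢
          omega
        refine ⟨wd (true :: false :: List.replicate t.length true), ⟨?_, ?_⟩, ?_, ?_⟩
        · rw [wd_mem_PP]
          unfold Fw
          exact (List.nil_sublist _).cons_cons _ |>.cons_cons _
        · intro t' h
          have := El.wd.inj h
          simp at this
        · rw [lt_id_wd, lis_10]
          have := count_le_lis (List.replicate t.length true)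
          simp at this
          omega
        · rw [lt_wd_wd_len]
          exact ⟨((Red10_count_replicate hcnt).cons_cons _).cons_cons _, by simp⟩
      | wd s =>
        have hs : s.Sublist (true :: true :: t) := hzx.le
        have hsF : Fw s := (wd_mem_PP _).1 hzP
        have hsl : t.length + 2 = s.length + 1 := by simpa using hrz
        match s, hs, hsF, hsl with
        | [], _, _, hsl => simp at hsl
        | false :: s', hs, _, hsl =>
          exfalso
          have h5 : (false :: s').Sublist t := Red10_f (b := false) (Red10_f (b := false) hs)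
          have := h5.length_le
          simp at this hsl
          omega
        | true :: s', hs, hsF, hsl =>
          have h5 : s'.Sublist (true :: t) := by
            have := List.cons_sublist_cons.1 hs
            exact this
          refine ⟨wd (true :: false :: s'), ⟨?_, ?_⟩, ?_, ?_⟩
          · rw [wd_mem_PP]
            exact List.Sublist.trans hsF ((List.sublist_cons_self _ _).cons_cons _)
          · intro t' h
            have := El.wd.inj h
            simp at this
          · rw [lt_wd_wd_len]
            exact ⟨(List.sublist_cons_self _ _).cons_cons _, by simp⟩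
          · rw [lt_wd_wd_len]
            refine ⟨(h5.cons_cons _).cons_cons _, ?_⟩
            simp at hsl ⊢
            omega

end H58
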