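import Pool.Agent.W_58cc_h2.Red0

/-!
# Reduction (2), lemma B (paper proof, section 4 (2))
-/

namespace H58

open El

/-- identities, words starting with `0` and words starting with `10`, in `PP`. -/
def A2 : Set El := {e | e ∈ PP ∧ e ∈ PC}

theorem lis_10 (y : List Bool) : lis (true :: false :: y) = lis y + 1 := by
  have h := count_le_lis y
  have h2 : (false :: y).count true = y.count true := by simp
  rw [lis_true, lis_false, h2]
  omega

private theorem Red10a_Fw_cons (b : Bool) {z : List Bool} (h : Fw z) : Fw (b :: z) :=
  List.Sublist.cons b h

private theorem Red10a_Fw_false {z : List Bool} (h : Fw (false :: z)) : Fw z := by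
  unfold Fw at h ⊢
  cases h with
  | cons _ h1 => exact h1

/-- sorted words have `lis = length` -/
theorem Red10a_lis_of_not_Fw {y : List Bool} (h : ¬ Fw y) : lis y = y.length := by
  induction y with
  | nil => rfl
  | cons b z ih =>
    have h1 := ih fun h2 => h (Red10a_Fw_cons b h2)
    cases b
    · rw [lis_false, h1, List.length_cons]
    · have h2 : z.count true = z.length := by
        rw [List.count_eq_length]
        intro c hc
        by_contra hne
        have hc0 : c = false := by
          cases c
          · rfl
          · exact absurd rfl hne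
        apply h
        unfold Fw
        rw [hc0] at hc
        exact (List.singleton_sublist.2 hc).cons_cons true
      rw [lis_true, h1, h2, List.length_cons]
      omega

private theorem Red10a_sub {t y : List Bool} :
    (false :: t).Sublist (true :: false :: y) ↔ t.Sublist y := by
  constructor
  · intro h
    cases h with
    | cons _ h1 => exact List.cons_sublist_cons.1 h1
  · intro h
    exact (h.cons_cons false).cons true

/-- Lemma B: the part of `A1` between `idp (j+1)` and `10y`. If `y ∈ F` it is the cone with apex
`wd (0y)` over `Op A1 (idp (j+1)) (wd (0y))` (`sh_shift0`), if `y` is sorted it is the chain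
`{idp n : j + 1 < n ≤ |y| + 1}`. -/
theorem lemB (j : ℕ) (y : List Bool) (hj : j ≤ lis y) (h1 : Fw y → T j y) :
    ShI A1 (idp (j + 1)) (wd (true :: false :: y)) := by
  by_cases hF : Fw y
  · have h2 := sh_shift0 j y (h1 hF)
    have hlt := lis_lt_length hF
    unfold ShI at h2 ⊢
    have hd : rk (wd (true :: false :: y)) - rk (idp (j + 1)) - 1 =
        (rk (wd (false :: y)) - rk (idp (j + 1)) - 1) + 1 := by
      simp only [rk_wd, rk_id, List.length_cons]
      omega
    have hmem : wd (false :: y) ∈ A1 := by
      refine ⟨(wd_mem_PP _).2 (Red10a_Fw_cons false hF), fun l hl => ?_⟩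
      cases hl
      exact ⟨y, rfl⟩
    have hset : Op A1 (idp (j + 1)) (wd (true :: false :: y)) =
        insert (wd (false :: y)) (Op A1 (idp (j + 1)) (wd (false :: y))) := by
      ext e
      constructor
      · rintro ⟨he1, he2, he3⟩
        cases e with
        | idp n =>
          right
          refine ⟨he1, he2, ?_⟩
          rw [lt_id_wd, lis_10] at he3
          rw [lt_id_wd, lis_false]
          exact he3
        | wd l =>
          obtain ⟨t, rfl⟩ := he1.2 l rfl
          rw [lt_wd_wd, Red10a_sub] at he3
          by_cases hty : t = y
          · left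
            rw [hty]
          · right
            refine ⟨he1, he2, ?_⟩
            rw [lt_wd_wd]
            exact ⟨List.cons_sublist_cons.2 he3.1, fun h => hty (List.cons.inj h).2⟩
      · rintro (rfl | ⟨he1, he2, he3⟩)
        · refine ⟨hmem, ?_, ?_⟩
          · rw [lt_id_wd, lis_false]
            omega
          · rw [lt_wd_wd, Red10a_sub]
            exact ⟨List.Sublist.refl y, by simp⟩
        · refine ⟨he1, he2, he3.trans ?_⟩
          rw [lt_wd_wd, Red10a_sub]
          exact ⟨List.Sublist.refl y, by simp⟩
    rw [hset, hd]
    exact sh_cone _ (fun h3 => lt_irrefl _ h3.2.2) (fun q hq => Or.inr hq.2.2) h2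
  · have hlen := Red10a_lis_of_not_Fw hF
    have h2 := sh_idchain (j + 1) (y.length + 2)
    unfold ShI
    have hd : rk (wd (true :: false :: y)) - rk (idp (j + 1)) - 1 =
        y.length + 2 - (j + 1) - 1 := by
      simp only [rk_wd, rk_id, List.length_cons]
    have hset : Op A1 (idp (j + 1)) (wd (true :: false :: y)) =
        {x : El | ∃ n, x = idp n ∧ j + 1 < n ∧ n < y.length + 2} := by
      ext e
      constructor
      · rintro ⟨he1, he2, he3⟩
        cases e with
        | idp n =>
          rw [lt_id_wd, lis_10, hlen] at he3
          rw [lt_id_id] at he2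
          exact ⟨n, rfl, he2, by omega⟩
        | wd l =>
          exfalso
          obtain ⟨t, rfl⟩ := he1.2 l rfl
          rw [lt_wd_wd, Red10a_sub] at he3
          have h3 := Red10a_Fw_false ((wd_mem_PP _).1 he1.1)
          exact hF (List.Sublist.trans h3 he3.1)
      · rintro ⟨n, rfl, hn1, hn2⟩
        refine ⟨⟨idp_mem_PP n, fun l hl => by cases hl⟩, (lt_id_id _ _).2 hn1, ?_⟩
        rw [lt_id_wd, lis_10, hlen]
        omega
    rw [hset, hd]
    exact h2

end H58
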