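import Pool.Agent.W_58cc_h2.CC
import Pool.Agent.W_58cc_h2.Red10a

/-!
# Reduction (2), step 2 (paper proof, section 4 (2))
-/

namespace H58

open El

theorem Red10b_f {b : Bool} {s l : List Bool} (h : (b :: s).Sublist ((!b) :: l)) :
    (b :: s).Sublist l := by
  rcases List.sublist_cons_iff.1 h with h | ⟨r, hr, _⟩
  · exact h
  · simp at hr

theorem Red10b_nil_sub_Fw (z : List Bool) : Fw (true :: false :: z) := by
  unfold Fw
  exact (List.nil_sublist _).cons_cons _ |>.cons_cons _

theorem Red10b_Fw_mono {l l' : List Bool} (h : Fw l) (h' : l.Sublist l') : Fw l' :=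
  List.Sublist.trans h h'

/-- sorted words. -/
theorem Red10b_lis_eq {l : List Bool} (h : ¬ Fw l) : lis l = l.length := by
  induction l with
  | nil => rfl
  | cons b z ih =>
    have h1 : ¬ Fw z := fun hz => h (Red10b_Fw_mono hz (List.sublist_cons_self _ _))
    have h2 := ih h1
    cases b
    · rw [lis_false, h2, List.length_cons]
    · have h3 : ∀ x ∈ z, true = x := by
        intro x hx
        by_contra hcon
        have h4 : x = false := by
          cases x
          · rfl
          · exact absurd rfl hcon
        rw [h4] at hx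
        apply h
        unfold Fw
        exact (List.singleton_sublist.2 hx).cons_cons _
      have h4 : z.count true = z.length := List.count_eq_length.2 h3
      rw [lis_true, h2, h4, List.length_cons]
      omega

/-- elements of `A2` outside `A1`. -/
theorem Red10b_not_A1 {x : El} (hx : x ∈ A2) (h : x ∉ A1) : ∃ y, x = wd (true :: false :: y) := by
  cases x with
  | idp n => exact absurd ⟨idp_mem_PP n, fun l h => by cases h⟩ h
  | wd l =>
    have hF : Fw l := (wd_mem_PP l).1 hx.1
    match l, hF, hx, h with
    | [], hF, _, _ => unfold Fw at hF; simp at hF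
    | false :: l', _, hx, h =>
      exact absurd ⟨hx.1, fun l hl => ⟨l', (El.wd.inj hl).symm⟩⟩ h
    | [true], hF, _, _ => unfold Fw at hF; simp at hF
    | true :: true :: t, _, hx, _ => exact absurd rfl (hx.2 t)
    | true :: false :: y, _, _, _ => exact ⟨y, rfl⟩

theorem Red10b_A1_wd {l : List Bool} (h : Fw l) : wd (false :: l) ∈ A1 := by
  refine ⟨?_, ?_⟩
  · rw [wd_mem_PP]
    exact Red10b_Fw_mono h (List.sublist_cons_self _ _)
  · intro l' hl'
    exact ⟨l, (El.wd.inj hl').symm⟩

theorem Red10b_A1_idp (n : ℕ) : idp n ∈ A1 := ⟨idp_mem_PP n, fun l h => by cases h⟩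

theorem Red10b_wd_above {s : List Bool} {e : El} (h : wd s < e) : ∃ l, e = wd l := by
  cases e with
  | idp n => exact absurd h (by simp)
  | wd l => exact ⟨l, rfl⟩

theorem Red10b_Op {s : List Bool} (hs : Fw s) (h : El) : Op A2 (wd s) h = Op PC (wd s) h := by
  ext e
  constructor
  · rintro ⟨h1, h2, h3⟩
    exact ⟨h1.2, h2, h3⟩
  · rintro ⟨h1, h2, h3⟩
    obtain ⟨l, rfl⟩ := Red10b_wd_above h2
    exact ⟨⟨(wd_mem_PP l).2 (List.Sublist.trans hs h2.le), h1⟩, h2, h3⟩

theorem Red10b_sub {y w : List Bool}
    (h : (true :: false :: y).Sublist (true :: false :: w)) : y.Sublist w := by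
  have h1 := List.cons_sublist_cons.1 h
  exact List.cons_sublist_cons.1 h1

/-- Step 2: `sh_down` with `P = A2`, `A = A1`. Outside `A1`: `x = 10y`; lower part `lemB`, upper
part `Op PC (wd x) (wd w)` = `cc_shI`. `hE`: `z = wd (0y)` (`y ∈ F`) or `z = idp (|y|+1)` (`y` sorted);
`a = 10y⁺`: `wd (0y⁺)` if `y⁺ ∈ F`, else `idp (|y|+2)`; `a = 010y`: `wd (00y)` if `y ∈ F`,
else `idp (|y| + 2)`. -/
theorem step2 (j : ℕ) (w2 : List Bool) (hj : j ≤ lis w2)
    (h2 : ∀ y, Fw y → y.Sublist w2 → j ≤ lis y → T j y) :
    ShI A2 (idp (j + 1)) (wd (true :: false :: w2)) := by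
  have hPC : wd (true :: false :: w2) ∈ PC := by
    intro t h
    have := El.wd.inj h
    simp at this
  have hg : idp (j + 1) < wd (true :: false :: w2) := by
    rw [lt_id_wd, lis_10]
    omega
  apply sh_down A2 A1 (idp (j + 1)) (wd (true :: false :: w2)) hg
    (Or.inr ⟨fun x hx => hx.1, (wd_mem_PP _).2 (Red10b_nil_sub_Fw w2)⟩) _
    (lemB j w2 hj (fun hF => h2 w2 hF (List.Sublist.refl _) hj))
  · intro x hx hgx hxh hxA
    obtain ⟨y, rfl⟩ := Red10b_not_A1 hx hxA
    have hjy : j ≤ lis y := by
      have := (lt_id_wd _ _).1 hgx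
      rw [lis_10] at this
      omega
    exact lemB j y hjy (fun hF => h2 y hF (Red10b_sub hxh.le) hjy)
  · intro x hx hgx hxh hxA
    obtain ⟨y, rfl⟩ := Red10b_not_A1 hx hxA
    have := cc_shI (false :: y) (true :: false :: w2) hxh hPC
    unfold ShI at this ⊢
    rw [Red10b_Op (Red10b_nil_sub_Fw y)]
    exact this
  · intro x hx hgx hxh hxA z a hz hgz hzx hrz ha hxa hah hra
    obtain ⟨y, rfl⟩ := Red10b_not_A1 hx hxA
    obtain ⟨l, rfl⟩ := Red10b_wd_above hxa
    have haC : wd l ∈ PC := by
      rcases ha with ha | ha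
      · rw [ha]; exact hPC
      · exact ha.2
    have hxl : (true :: false :: y).Sublist l := hxa.le
    have hll : l.length = y.length + 3 := by simpa using hra
    have hzA : z ∈ A1 := by
      rcases hz with hz | hz
      · rw [hz]; exact Red10b_A1_idp _
      · exact hz
    -- the two possibilities for `z`
    have hz2 : (z = wd (false :: y) ∧ Fw y) ∨ (z = idp (y.length + 1) ∧ lis y = y.length) := by
      cases z with
      | idp n =>
        right
        have h3 : y.length + 2 = n + 1 := by simpa using hrz
        have h4 : n ≤ lis (true :: false :: y) := (lt_id_wd _ _).1 hzx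
        rw [lis_10] at h4
        have h5 := lis_le_length y
        refine ⟨by congr 1; omega, by omega⟩
      | wd s =>
        left
        obtain ⟨s', rfl⟩ := hzA.2 s rfl
        have h3 : (false :: s').Sublist (false :: y) := Red10b_f (b := false) hzx.le
        have h4 : s'.Sublist y := List.cons_sublist_cons.1 h3
        have h5 : y.length + 2 = s'.length + 1 + 1 := by simpa using hrz
        have h6 : s' = y := h4.eq_of_length (by omega)
        subst h6
        refine ⟨rfl, ?_⟩
        have h7 : Fw (false :: s') := (wd_mem_PP _).1 hzA.1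
        unfold Fw at h7 ⊢
        exact Red10b_f (b := true) h7
    match l, hxl, hll, haC with
    | [], _, hll, _ => simp at hll
    | [true], _, hll, _ => simp at hll
    | true :: true :: l', _, _, haC => exact absurd rfl (haC l')
    | false :: l', hxl, hll, _ =>
      have h3 : (true :: false :: y).Sublist l' := Red10b_f (b := true) hxl
      have h4 : true :: false :: y = l' := h3.eq_of_length (by simp at hll ⊢; omega)
      subst h4
      rcases hz2 with ⟨rfl, hyF⟩ | ⟨rfl, hly⟩
      · refine ⟨wd (false :: false :: y), ?_, ?_, ?_⟩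
        · exact Red10b_A1_wd (Red10b_Fw_mono hyF (List.sublist_cons_self _ _))
        · rw [lt_wd_wd_len]
          exact ⟨List.sublist_cons_self _ _, by simp⟩
        · rw [lt_wd_wd_len]
          exact ⟨(List.sublist_cons_self _ _).cons_cons _, by simp⟩
      · refine ⟨idp (y.length + 2), Red10b_A1_idp _, ?_, ?_⟩
        · rw [lt_id_id]; omega
        · rw [lt_id_wd, lis_false, lis_10]; omega
    | true :: false :: l', hxl, hll, _ =>
      have h3 : y.Sublist l' := Red10b_sub hxl
      have h4 : l'.length = y.length + 1 := by simp at hll; omega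
      rcases hz2 with ⟨rfl, hyF⟩ | ⟨rfl, hly⟩
      · refine ⟨wd (false :: l'), ?_, ?_, ?_⟩
        · exact Red10b_A1_wd (Red10b_Fw_mono hyF h3)
        · rw [lt_wd_wd_len]
          exact ⟨h3.cons_cons _, by simp; omega⟩
        · rw [lt_wd_wd_len]
          exact ⟨List.sublist_cons_self _ _, by simp⟩
      · by_cases hl' : Fw l'
        · refine ⟨wd (false :: l'), Red10b_A1_wd hl', ?_, ?_⟩
          · rw [lt_id_wd, lis_false]
            have := lis_mono h3
            omega
          · rw [lt_wd_wd_len]
            exact ⟨List.sublist_cons_self _ _, by simp⟩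
        · have h5 := Red10b_lis_eq hl'
          refine ⟨idp (y.length + 2), Red10b_A1_idp _, ?_, ?_⟩
          · rw [lt_id_id]; omega
          · rw [lt_id_wd, lis_10]; omega
  · intro x hx
    refine ⟨hx.1, ?_⟩
    intro t h
    obtain ⟨t', ht'⟩ := hx.2 _ h
    simp at ht'

end H58
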