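import Pool.Agent.W_58cc_h2.AbsB
import Pool.Agent.W_58cc_h2.Up0

/-!
# Lemma L and its dual for the ranked poset `El`
-/

namespace H58

open El

theorem Up_surj {C : Finset El} (hch : Chn (· < ·) C) {a b : ℕ} (hcard : C.card = b - a - 1)
    (hm : ∀ c ∈ C, a < rk c ∧ rk c < b) (hm2 : ∀ c ∈ C, ∀ c' ∈ C, c < c' → rk c < rk c')
    {n : ℕ} (h1 : a < n) (h2 : n < b) : ∃ c ∈ C, rk c = n := by
  classical
  have hinj : Set.InjOn rk (C : Set El) := by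
    intro c hc c' hc' hcc
    by_contra hne
    rcases hch c hc c' hc' hne with h | h
    · have := hm2 c hc c' hc' h
      omega
    · have := hm2 c' hc' c hc h
      omega
  have hsub : C.image rk ⊆ Finset.Ioo a b := by
    intro n hn
    obtain ⟨c, hc, rfl⟩ := Finset.mem_image.1 hn
    exact Finset.mem_Ioo.2 (hm c hc)
  have heq : C.image rk = Finset.Ioo a b := by
    apply Finset.eq_of_subset_of_card_le hsub
    rw [Finset.card_image_of_injOn hinj, hcard, Nat.card_Ioo]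
  have h3 : n ∈ C.image rk := by
    rw [heq]
    exact Finset.mem_Ioo.2 ⟨h1, h2⟩
  obtain ⟨c, hc, hcn⟩ := Finset.mem_image.1 h3
  exact ⟨c, hc, hcn⟩

theorem Up_low {g x : El} (hg : g < x) (hgx : rk g < rk x) {C : Finset El}
    (hC : ∀ c ∈ C, g < c ∧ c < x) (hch : Chn (· < ·) C) (hcard : C.card = rk x - rk g - 1)
    (hm : ∀ c ∈ C, rk g < rk c ∧ rk c < rk x)
    (hm2 : ∀ c ∈ C, ∀ c' ∈ C, c < c' → rk c < rk c') :
    ∃ z, (z = g ∨ z ∈ C) ∧ g ≤ z ∧ z < x ∧ rk x = rk z + 1 ∧ ∀ c ∈ C, c ≤ z := by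
  rcases Nat.lt_or_ge (rk g + 1) (rk x) with h | h
  · obtain ⟨z, hz, hzr⟩ := Up_surj hch hcard hm hm2 (n := rk x - 1) (by omega) (by omega)
    refine ⟨z, Or.inr hz, (hC z hz).1.le, (hC z hz).2, by omega, ?_⟩
    intro c hc
    by_cases hcz : c = z
    · exact hcz.le
    · rcases hch c hc z hz hcz with h1 | h1
      · exact h1.le
      · exfalso
        have h2 := hm2 z hz c hc h1
        have h3 := (hm c hc).2
        omega
  · refine ⟨g, Or.inl rfl, le_rfl, hg, by omega, ?_⟩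
    intro c hc
    exfalso
    have h3 := hm c hc
    omega

theorem Up_high {x h : El} (hg : x < h) (hgx : rk x < rk h) {C : Finset El}
    (hC : ∀ c ∈ C, x < c ∧ c < h) (hch : Chn (· < ·) C) (hcard : C.card = rk h - rk x - 1)
    (hm : ∀ c ∈ C, rk x < rk c ∧ rk c < rk h)
    (hm2 : ∀ c ∈ C, ∀ c' ∈ C, c < c' → rk c < rk c') :
    ∃ a, (a = h ∨ a ∈ C) ∧ x < a ∧ a ≤ h ∧ rk a = rk x + 1 ∧ ∀ c ∈ C, a ≤ c := by
  rcases Nat.lt_or_ge (rk x + 1) (rk h) with h0 | h0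
  · obtain ⟨z, hz, hzr⟩ := Up_surj hch hcard hm hm2 (n := rk x + 1) (by omega) (by omega)
    refine ⟨z, Or.inr hz, (hC z hz).1, (hC z hz).2.le, by omega, ?_⟩
    intro c hc
    by_cases hcz : c = z
    · exact hcz.ge
    · rcases hch c hc z hz hcz with h1 | h1
      · exfalso
        have h2 := hm2 c hc z hz h1
        have h3 := (hm c hc).1
        omega
      · exact h1.le
  · refine ⟨h, Or.inl rfl, hg, le_rfl, by omega, ?_⟩
    intro c hc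
    exfalso
    have h3 := hm c hc
    omega

theorem Up_rk {P : Set El} {g h : El}
    (hR : (∃ s, g = wd s) ∨ ((∀ x ∈ P, x ∈ PP) ∧ h ∈ PP)) (u v : El) (hu : g ≤ u)
    (hv : v ∈ P ∨ v = h) (huv : u < v) : rk u < rk v := by
  apply rk_lt huv
  rcases hR with ⟨s, rfl⟩ | ⟨h1, h2⟩
  · left
    cases u with
    | idp n => exact absurd hu (by simp)
    | wd l => exact ⟨l, rfl⟩
  · right
    rcases hv with hv | rfl
    · exact h1 v hv
    · exact h2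

/-- **Lemma L, up version**: blocks by the largest element outside `A`.
From `sh_rel` with `r = (<)`, `d1 x = rk x - rk g - 1`, `d2 x = rk h - rk x - 1`.
`hE` of `sh_rel`: `C1` is a chain of `rk x - rk g - 1` elements with ranks strictly between
`rk g` and `rk x`, so all ranks occur: its largest element `z` (or `z = g` if `C1` is empty) has
rank `rk x - 1`; similarly the smallest element `a` of `C2` (or `a = h`).
`hR` makes the rank strictly monotone on `{g} ∪ Op P g h ∪ {h}` (elements above a word are words). -/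
theorem sh_up (P A : Set El) (g h : El) (hgh : g < h)
    (hR : (∃ s, g = wd s) ∨ ((∀ x ∈ P, x ∈ PP) ∧ h ∈ PP))
    (hAP : ∀ x ∈ A, x ∈ P) (hA : ShI A g h)
    (h1 : ∀ x ∈ P, g < x → x < h → x ∉ A → ShI P g x)
    (h2 : ∀ x ∈ P, g < x → x < h → x ∉ A → ShI A x h)
    (hE : ∀ x ∈ P, g < x → x < h → x ∉ A → ∀ z a, (z = g ∨ z ∈ P) → g ≤ z → z < x →
      rk x = rk z + 1 → (a = h ∨ a ∈ A) → x < a → a ≤ h → rk a = rk x + 1 →
      ∃ y ∈ A, z < y ∧ y < a) :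
    ShI P g h := by
  have hrk := Up_rk hR
  refine sh_rel (A := Op A g h) (fun a => lt_irrefl a) (fun a b c => lt_trans)
    (fun x => rk x - rk g - 1) (fun x => rk h - rk x - 1) (Op_finite P g h)
    (fun a ha => ⟨hAP a ha.1, ha.2⟩) hA ?_ ?_ ?_ ?_
  · rintro x ⟨hxP, hgx, hxh⟩ -
    have e1 := hrk g x le_rfl (Or.inl hxP) hgx
    have e2 := hrk x h hgx.le (Or.inr rfl) hxh
    show rk x - rk g - 1 + (rk h - rk x - 1) + 1 = rk h - rk g - 1
    omega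
  · rintro x ⟨hxP, hgx, hxh⟩ hxA
    have e1 : {q | q ∈ Op P g h ∧ q < x} = Op P g x := by
      ext q
      constructor
      · rintro ⟨⟨h3, h4, _⟩, h5⟩
        exact ⟨h3, h4, h5⟩
      · rintro ⟨h3, h4, h5⟩
        exact ⟨⟨h3, h4, h5.trans hxh⟩, h5⟩
    rw [e1]
    exact h1 x hxP hgx hxh fun h3 => hxA ⟨h3, hgx, hxh⟩
  · rintro x ⟨hxP, hgx, hxh⟩ hxA
    have e1 : {a | a ∈ Op A g h ∧ x < a} = Op A x h := by
      ext q
      constructor
      · rintro ⟨⟨h3, _, h4⟩, h5⟩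
        exact ⟨h3, h5, h4⟩
      · rintro ⟨h3, h4, h5⟩
        exact ⟨⟨h3, hgx.trans h4, h5⟩, h4⟩
    rw [e1]
    exact h2 x hxP hgx hxh fun h3 => hxA ⟨h3, hgx, hxh⟩
  · rintro x ⟨hxP, hgx, hxh⟩ hxA C1 C2 ⟨hC1, hch1, hcard1⟩ ⟨hC2, hch2, hcard2⟩
    have hxA' : x ∉ A := fun h3 => hxA ⟨h3, hgx, hxh⟩
    obtain ⟨z, hz1, hz2, hz3, hz4, hz5⟩ := Up_low hgx (hrk g x le_rfl (Or.inl hxP) hgx)
      (fun c hc => ⟨(hC1 c hc).1.2.1, (hC1 c hc).2⟩) hch1 hcard1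
      (fun c hc => ⟨hrk g c le_rfl (Or.inl (hC1 c hc).1.1) (hC1 c hc).1.2.1,
        hrk c x (hC1 c hc).1.2.1.le (Or.inl hxP) (hC1 c hc).2⟩)
      (fun c hc c' hc' hcc => hrk c c' (hC1 c hc).1.2.1.le (Or.inl (hC1 c' hc').1.1) hcc)
    obtain ⟨a, ha1, ha2, ha3, ha4, ha5⟩ := Up_high hxh (hrk x h hgx.le (Or.inr rfl) hxh)
      (fun c hc => ⟨(hC2 c hc).2, (hC2 c hc).1.2.2⟩) hch2 hcard2
      (fun c hc => ⟨hrk x c hgx.le (Or.inl (hAP c (hC2 c hc).1.1)) (hC2 c hc).2,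
        hrk c h (hC2 c hc).1.2.1.le (Or.inr rfl) (hC2 c hc).1.2.2⟩)
      (fun c hc c' hc' hcc => hrk c c' (hC2 c hc).1.2.1.le (Or.inl (hAP c' (hC2 c' hc').1.1)) hcc)
    obtain ⟨y, hyA, hzy, hya⟩ := hE x hxP hgx hxh hxA' z a
      (hz1.imp_right fun hz => (hC1 z hz).1.1) hz2 hz3 hz4
      (ha1.imp_right fun ha => (hC2 a ha).1.1) ha2 ha3 ha4
    exact ⟨y, ⟨hyA, hz2.trans_lt hzy, hya.trans_le ha3⟩, fun c hc => (hz5 c hc).trans_lt hzy,
      fun c hc => hya.trans_le (ha5 c hc)⟩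

/-- **Lemma L\*, down version**: blocks by the smallest element outside `A`.
`sh_rel` for the relation `fun a b => b < a`, and `sh_swap`. -/
theorem sh_down (P A : Set El) (g h : El) (hgh : g < h)
    (hR : (∃ s, g = wd s) ∨ ((∀ x ∈ P, x ∈ PP) ∧ h ∈ PP))
    (hAP : ∀ x ∈ A, x ∈ P) (hA : ShI A g h)
    (h1 : ∀ x ∈ P, g < x → x < h → x ∉ A → ShI A g x)
    (h2 : ∀ x ∈ P, g < x → x < h → x ∉ A → ShI P x h)
    (hE : ∀ x ∈ P, g < x → x < h → x ∉ A → ∀ z a, (z = g ∨ z ∈ A) → g ≤ z → z < x →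
      rk x = rk z + 1 → (a = h ∨ a ∈ P) → x < a → a ≤ h → rk a = rk x + 1 →
      ∃ y ∈ A, z < y ∧ y < a) :
    ShI P g h := by
  have hrk := Up_rk hR
  refine sh_swap.1 ?_
  refine sh_rel (r := fun a b : El => b < a) (A := Op A g h) (fun a => lt_irrefl a)
    (fun a b c hab hbc => lt_trans hbc hab)
    (fun x => rk h - rk x - 1) (fun x => rk x - rk g - 1) (Op_finite P g h)
    (fun a ha => ⟨hAP a ha.1, ha.2⟩) (sh_swap.2 hA) ?_ ?_ ?_ ?_
  · rintro x ⟨hxP, hgx, hxh⟩ -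
    have e1 := hrk g x le_rfl (Or.inl hxP) hgx
    have e2 := hrk x h hgx.le (Or.inr rfl) hxh
    show rk h - rk x - 1 + (rk x - rk g - 1) + 1 = rk h - rk g - 1
    omega
  · rintro x ⟨hxP, hgx, hxh⟩ hxA
    have e1 : {q | q ∈ Op P g h ∧ x < q} = Op P x h := by
      ext q
      constructor
      · rintro ⟨⟨h3, _, h4⟩, h5⟩
        exact ⟨h3, h5, h4⟩
      · rintro ⟨h3, h4, h5⟩
        exact ⟨⟨h3, hgx.trans h4, h5⟩, h4⟩
    rw [e1]
    exact sh_swap.2 (h2 x hxP hgx hxh fun h3 => hxA ⟨h3, hgx, hxh⟩)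
  · rintro x ⟨hxP, hgx, hxh⟩ hxA
    have e1 : {a | a ∈ Op A g h ∧ a < x} = Op A g x := by
      ext q
      constructor
      · rintro ⟨⟨h3, h4, _⟩, h5⟩
        exact ⟨h3, h4, h5⟩
      · rintro ⟨h3, h4, h5⟩
        exact ⟨⟨h3, h4, h5.trans hxh⟩, h5⟩
    rw [e1]
    exact sh_swap.2 (h1 x hxP hgx hxh fun h3 => hxA ⟨h3, hgx, hxh⟩)
  · rintro x ⟨hxP, hgx, hxh⟩ hxA C1 C2 ⟨hC1, hch1, hcard1⟩ ⟨hC2, hch2, hcard2⟩
    have hxA' : x ∉ A := fun h3 => hxA ⟨h3, hgx, hxh⟩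
    have hch1' : Chn (· < ·) C1 := fun a ha b hb hab => (hch1 a ha b hb hab).symm
    have hch2' : Chn (· < ·) C2 := fun a ha b hb hab => (hch2 a ha b hb hab).symm
    obtain ⟨z, hz1, hz2, hz3, hz4, hz5⟩ := Up_low hgx (hrk g x le_rfl (Or.inl hxP) hgx)
      (fun c hc => ⟨(hC2 c hc).1.2.1, (hC2 c hc).2⟩) hch2' hcard2
      (fun c hc => ⟨hrk g c le_rfl (Or.inl (hAP c (hC2 c hc).1.1)) (hC2 c hc).1.2.1,
        hrk c x (hC2 c hc).1.2.1.le (Or.inl hxP) (hC2 c hc).2⟩)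
      (fun c hc c' hc' hcc => hrk c c' (hC2 c hc).1.2.1.le (Or.inl (hAP c' (hC2 c' hc').1.1)) hcc)
    obtain ⟨a, ha1, ha2, ha3, ha4, ha5⟩ := Up_high hxh (hrk x h hgx.le (Or.inr rfl) hxh)
      (fun c hc => ⟨(hC1 c hc).2, (hC1 c hc).1.2.2⟩) hch1' hcard1
      (fun c hc => ⟨hrk x c hgx.le (Or.inl (hC1 c hc).1.1) (hC1 c hc).2,
        hrk c h (hC1 c hc).1.2.1.le (Or.inr rfl) (hC1 c hc).1.2.2⟩)
      (fun c hc c' hc' hcc => hrk c c' (hC1 c hc).1.2.1.le (Or.inl (hC1 c' hc').1.1) hcc)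
    obtain ⟨y, hyA, hzy, hya⟩ := hE x hxP hgx hxh hxA' z a
      (hz1.imp_right fun hz => (hC2 z hz).1.1) hz2 hz3 hz4
      (ha1.imp_right fun ha => (hC1 a ha).1.1) ha2 ha3 ha4
    exact ⟨y, ⟨hyA, hz2.trans_lt hzy, hya.trans_le ha3⟩, fun c hc => hya.trans_le (ha5 c hc),
      fun c hc => (hz5 c hc).trans_lt hzy⟩

end H58
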